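import Pool.Agent.Helper60.BP.Defs
import Pool.Agent.Helper72.BPA.Base

/-!
# Law of large numbers for the labels of the alive vertices
-/

set_option autoImplicit false

namespace Pool.Agent.Helper42.BPX

open Finset MeasureTheory Pool.Agent.Helper87.BP Pool.Agent.Helper60.BP

noncomputable section

open Classical

variable {n : ℕ}

/-- iterates of `f` at `1` -/
def gseq (f : ℝ → ℝ) : ℕ → ℝ
  | 0 => 1
  | s + 1 => f (gseq f s)

lemma gseq_pos {f : ℝ → ℝ} (hf : ∀ x, 0 < x → 0 < f x) : ∀ s, 0 < gseq f s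
  | 0 => one_pos
  | s + 1 => hf _ (gseq_pos hf s)

/-- messages started from `1` -/
theorem msg_one {f : ℝ → ℝ} (hf : Monotone f) (h0 : ∀ x, 0 ≤ x → 0 ≤ f x)
    (A : Finset (Sym2 (Fin n))) : ∀ (t : ℕ) (i j : Fin n),
      0 ≤ msg f (Adj A) (fun _ _ => 1) t i j ∧
        (AL A t i j → gseq f t ≤ msg f (Adj A) (fun _ _ => 1) t i j) := by
  intro t
  induction t with
  | zero => exact fun i j => ⟨zero_le_one, fun _ => le_rfl⟩
  | succ t ih =>
    intro i j
    rw [msg_succ]
    refine ⟨Finset.sum_nonneg fun k _ => h0 _ (ih k i).1, ?_⟩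
    rintro ⟨k, hkj, hki, hal⟩
    have hk : k ∈ (nb A i).erase j := mem_erase.2 ⟨hkj, mem_nb.2 hki.symm⟩
    refine le_trans ?_ (Finset.single_le_sum (f := fun k => f (msg f (Adj A) (fun _ _ => 1) t k i))
      (fun k _ => h0 _ (ih k i).1) hk)
    exact hf ((ih k i).2 hal)

theorem field_one {f : ℝ → ℝ} (hf : Monotone f) (h0 : ∀ x, 0 ≤ x → 0 ≤ f x)
    {A : Finset (Sym2 (Fin n))} {t : ℕ} {i : Fin n} (h : AV A t i) :
    gseq f (t + 1) ≤ field f (Adj A) (fun _ _ => 1) t i := by
  obtain ⟨k, hki, hal⟩ := h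
  rw [field_eq]
  have hk : k ∈ nb A i := mem_nb.2 hki.symm
  refine le_trans ?_ (Finset.single_le_sum (f := fun k => f (msg f (Adj A) (fun _ _ => 1) t k i))
    (fun k _ => h0 _ (msg_one hf h0 A t k i).1) hk)
  exact hf ((msg_one hf h0 A t k i).2 hal)

lemma measurable_zf (y : ℝ) : Measurable (zf y) := by
  unfold zf
  refine Measurable.sub ?_ ?_
  · exact Measurable.ite measurableSet_Ici measurable_const measurable_const
  · exact Measurable.ite measurableSet_Ici measurable_const measurable_const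

lemma abs_zf_le (y v : ℝ) : |zf y v| ≤ 1 := by
  unfold zf
  split_ifs <;> simp

lemma zf_eq_zero {y v : ℝ} (h : |y| < |v|) : zf y v = 0 := by
  unfold zf
  rcases le_or_gt 0 v with hv | hv
  · rw [abs_of_nonneg hv] at h
    rw [if_pos (by linarith [le_abs_self y]), if_pos hv, sub_self]
  · rw [abs_of_neg hv] at h
    rw [if_neg (by linarith [neg_abs_le y]), if_neg (not_le.2 hv), sub_self]

/-- the asymmetry of the set of alive vertices is bounded by the asymmetry profile of the run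
started from `1` -/
theorem alive_AS {f : ℝ → ℝ} (hf : Monotone f) (hf0 : f 0 = 0) (hpos : ∀ x, 0 < x → 0 < f x)
    {L : ℝ} (hb : ∀ x, |f x| ≤ L) (A : Finset (Sym2 (Fin n))) (σ : Fin n → Bool) (r : ℕ) :
    gseq f (r + 2) * ((∑ i ∈ univ.filter (fun i => AV A r i), lab σ i) / n) ^ 2
      ≤ AS f (Adj A) (fun _ _ => 1) σ r := by
  have h0 : ∀ x, 0 ≤ x → 0 ≤ f x := fun x hx => by rw [← hf0]; exact hf hx
  set g := gseq f (r + 2) with hg
  have hgpos : 0 < g := gseq_pos hpos _
  have hlab : ∀ i, |lab σ i| = 1 := by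
    intro i
    unfold lab
    split_ifs <;> simp
  -- the profile is nice
  have hm : Measurable (fun v => Zt f (Adj A) (fun _ _ => 1) σ r v ^ 2) := by
    unfold Zt
    refine Measurable.pow_const ?_ 2
    refine Measurable.div_const ?_ _
    refine Finset.measurable_sum _ fun i _ => ?_
    exact (measurable_zf _).const_mul _
  have hnice : Pool.Agent.Helper72.BPA.Nice
      (fun v => Zt f (Adj A) (fun _ _ => 1) σ r v ^ 2) := by
    refine ⟨hm, ⟨1, fun v => ?_⟩, ⟨L, fun v hv => ?_⟩⟩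
    · rw [abs_pow, sq_le_one_iff_abs_le_one, abs_abs]
      unfold Zt
      rw [abs_div, Nat.abs_cast]
      refine div_le_one_of_le₀ ((Finset.abs_sum_le_sum_abs _ _).trans ?_) (Nat.cast_nonneg _)
      calc ∑ i : Fin n, |lab σ i * zf (f (field f (Adj A) (fun _ _ => 1) r i)) v|
          ≤ ∑ _i : Fin n, (1 : ℝ) := Finset.sum_le_sum fun i _ => by
            rw [abs_mul, hlab, one_mul]; exact abs_zf_le _ _
        _ = n := by simp
    · have : Zt f (Adj A) (fun _ _ => 1) σ r v = 0 := by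
        unfold Zt
        rw [Finset.sum_eq_zero, zero_div]
        intro i _
        rw [zf_eq_zero ((hb _).trans_lt hv), mul_zero]
      show Zt f (Adj A) (fun _ _ => 1) σ r v ^ 2 = 0
      rw [this]
      norm_num
  have hval : ∀ v ∈ Set.Ioo 0 g, Zt f (Adj A) (fun _ _ => 1) σ r v ^ 2
      = ((∑ i ∈ univ.filter (fun i => AV A r i), lab σ i) / n) ^ 2 := by
    intro v hv
    unfold Zt
    have : ∑ i, lab σ i * zf (f (field f (Adj A) (fun _ _ => 1) r i)) v
        = - ∑ i ∈ univ.filter (fun i => AV A r i), lab σ i := by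
      rw [← Finset.sum_neg_distrib, Finset.sum_filter]
      refine Finset.sum_congr rfl fun i _ => ?_
      by_cases hi : AV A r i
      · rw [if_pos hi]
        have h1 : g ≤ f (field f (Adj A) (fun _ _ => 1) r i) := hf (field_one hf h0 hi)
        unfold zf
        rw [if_neg (by linarith [hv.2]), if_pos hv.1.le]
        ring
      · rw [if_neg hi, field_dead hf0 le_rfl hi, hf0]
        unfold zf
        rw [sub_self, mul_zero]
    rw [this, neg_div, neg_sq]
  unfold AS
  calc g * ((∑ i ∈ univ.filter (fun i => AV A r i), lab σ i) / n) ^ 2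
      = ∫ _v in Set.Ioo 0 g, ((∑ i ∈ univ.filter (fun i => AV A r i), lab σ i) / n) ^ 2 := by
        rw [setIntegral_const, smul_eq_mul, Real.volume_real_Ioo_of_le hgpos.le, sub_zero]
    _ = ∫ v in Set.Ioo 0 g, Zt f (Adj A) (fun _ _ => 1) σ r v ^ 2 :=
        setIntegral_congr_fun measurableSet_Ioo fun v hv => (hval v hv).symm
    _ ≤ ∫ v, Zt f (Adj A) (fun _ _ => 1) σ r v ^ 2 :=
        setIntegral_le_integral hnice.integrable (Filter.Eventually.of_forall fun v => sq_nonneg _)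

/-- law of large numbers for the labels of the alive vertices -/
theorem alive_lln {f : ℝ → ℝ} (hf : Monotone f) (hf0 : f 0 = 0) (hpos : ∀ x, 0 < x → 0 < f x)
    {L : ℝ} (hb : ∀ x, |f x| ≤ L) {a b : ℝ} {r : ℕ} (hn : 0 < n)
    (hp0 : ∀ (σ : Fin n → Bool) e, 0 ≤ pe n a b σ e) (hp1 : ∀ (σ : Fin n → Bool) e,
      pe n a b σ e ≤ 1) {C ε : ℝ} (hε : 0 < ε)
    (hA : (∑ σ : Fin n → Bool, EE (pe n a b σ) (prs n)
      (fun A => AS f (Adj A) (fun _ _ => 1) σ r)) / 2 ^ n ≤ C) :
    (∑ σ : Fin n → Bool, Pr (pe n a b σ) (prs n)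
      (fun A => ε * n ≤ |∑ i ∈ univ.filter (fun i => AV A r i), lab σ i|)) / 2 ^ n
      ≤ C / (gseq f (r + 2) * ε ^ 2) := by
  set g := gseq f (r + 2) with hg
  have hgpos : 0 < g := gseq_pos hpos _
  have hn' : (0 : ℝ) < n := by exact_mod_cast hn
  have hnn : ∀ (A : Finset (Sym2 (Fin n))) (σ : Fin n → Bool),
      0 ≤ AS f (Adj A) (fun _ _ => 1) σ r := fun A σ => integral_nonneg fun v => sq_nonneg _
  have hterm : ∀ σ ∈ (univ : Finset (Fin n → Bool)), Pr (pe n a b σ) (prs n)
      (fun A => ε * n ≤ |∑ i ∈ univ.filter (fun i => AV A r i), lab σ i|)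
      ≤ EE (pe n a b σ) (prs n) (fun A => AS f (Adj A) (fun _ _ => 1) σ r) / (g * ε ^ 2) := by
    intro σ _
    have h1 : ∀ A ⊆ prs n, ε * n ≤ |∑ i ∈ univ.filter (fun i => AV A r i), lab σ i| →
        g * ε ^ 2 ≤ AS f (Adj A) (fun _ _ => 1) σ r := by
      intro A _ h
      refine le_trans ?_ (alive_AS hf hf0 hpos hb A σ r)
      refine mul_le_mul_of_nonneg_left ?_ hgpos.le
      rw [← sq_abs (_ / (n : ℝ)), abs_div, Nat.abs_cast]
      refine pow_le_pow_left₀ hε.le ?_ 2
      rw [le_div_iff₀ hn']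
      exact h
    exact (Pr_mono (fun e _ => hp0 σ e) (fun e _ => hp1 σ e) h1).trans
      (Pr_ge_le (fun e _ => hp0 σ e) (fun e _ => hp1 σ e) (fun A _ => hnn A σ) (by positivity))
  calc (∑ σ : Fin n → Bool, Pr (pe n a b σ) (prs n)
      (fun A => ε * n ≤ |∑ i ∈ univ.filter (fun i => AV A r i), lab σ i|)) / 2 ^ n
      ≤ (∑ σ : Fin n → Bool, EE (pe n a b σ) (prs n)
        (fun A => AS f (Adj A) (fun _ _ => 1) σ r) / (g * ε ^ 2)) / 2 ^ n :=
        div_le_div_of_nonneg_right (Finset.sum_le_sum hterm) (by positivity)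
    _ = ((∑ σ : Fin n → Bool, EE (pe n a b σ) (prs n)
        (fun A => AS f (Adj A) (fun _ _ => 1) σ r)) / 2 ^ n) / (g * ε ^ 2) := by
        rw [← Finset.sum_div, div_right_comm]
    _ ≤ C / (g * ε ^ 2) := div_le_div_of_nonneg_right hA (by positivity)

end

end Pool.Agent.Helper42.BPX
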