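import Pool.Agent.Helper42.BPX.PB

/-!
# Closures: size, and comparison with the graph outside a set
-/

set_option autoImplicit false

namespace Pool.Agent.Helper42.BPX

open Finset

noncomputable section

open Classical

variable {n : ℕ}

/-- `S` contains `Q` and the vertices with at least `k` neighbours in `S` -/
def ClosedQ (A : Finset (Sym2 (Fin n))) (Q : Finset (Fin n)) (k : ℕ) (S : Finset (Fin n)) : Prop :=
  Q ⊆ S ∧ ∀ i, k ≤ (nb A i ∩ S).card → i ∈ S

/-- the least such set -/
def clo (A : Finset (Sym2 (Fin n))) (Q : Finset (Fin n)) (k : ℕ) : Finset (Fin n) :=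
  univ.filter (fun i => ∀ S, ClosedQ A Q k S → i ∈ S)

lemma cl_eq_clo (A : Finset (Sym2 (Fin n))) (D k : ℕ) : cl A D k = clo A (low A D) k := rfl

lemma clo_subset {A : Finset (Sym2 (Fin n))} {Q : Finset (Fin n)} {k : ℕ} {S : Finset (Fin n)}
    (h : ClosedQ A Q k S) : clo A Q k ⊆ S := by
  intro i hi
  simp only [clo, mem_filter, mem_univ, true_and] at hi
  exact hi S h

lemma closedQ_clo (A : Finset (Sym2 (Fin n))) (Q : Finset (Fin n)) (k : ℕ) :
    ClosedQ A Q k (clo A Q k) := by
  refine ⟨fun i hi => ?_, fun i hi => ?_⟩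
  · simp only [clo, mem_filter, mem_univ, true_and]
    exact fun S hS => hS.1 hi
  · simp only [clo, mem_filter, mem_univ, true_and]
    intro S hS
    refine hS.2 i (hi.trans (card_le_card ?_))
    exact inter_subset_inter_left (clo_subset hS)

/-- a vertex of the closure outside `Q` has many neighbours in the closure -/
lemma mem_clo_imp {A : Finset (Sym2 (Fin n))} {Q : Finset (Fin n)} {k : ℕ} {i : Fin n}
    (hi : i ∈ clo A Q k) (hQ : i ∉ Q) : k ≤ (nb A i ∩ clo A Q k).card := by
  by_contra hcon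
  rw [not_le] at hcon
  have h := closedQ_clo A Q k
  have hc : ClosedQ A Q k ((clo A Q k).erase i) := by
    refine ⟨fun x hx => mem_erase.2 ⟨fun e => hQ (e ▸ hx), h.1 hx⟩, fun x hx => ?_⟩
    have h1 : k ≤ (nb A x ∩ clo A Q k).card :=
      hx.trans (card_le_card (inter_subset_inter_left (erase_subset _ _)))
    refine mem_erase.2 ⟨?_, h.2 x h1⟩
    rintro rfl
    omega
  exact (mem_erase.1 (clo_subset hc hi)).1 rfl

lemma many_mono {A A' : Finset (Sym2 (Fin n))} (hA : A ⊆ A') {k k' : ℕ} (hk : k' ≤ k)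
    {B B' : Finset (Fin n)} (hB : B ⊆ B') : many A k B ⊆ many A' k' B' := by
  intro i hi
  rw [mem_many] at hi ⊢
  refine hk.trans (hi.trans (card_le_card ?_))
  intro j hj
  rw [mem_inter, mem_nb] at hj
  exact mem_inter.2 ⟨mem_nb.2 ⟨hj.1.1, hA hj.1.2⟩, hB hj.2⟩

lemma Expd.mono {A A' : Finset (Sym2 (Fin n))} (hA : A ⊆ A') {k k' m m' : ℕ} (hk : k' ≤ k)
    (hm : m ≤ m') (h : Expd A' m' k') : Expd A m k := fun B hB =>
  (Nat.mul_le_mul_left 10 (card_le_card (many_mono hA hk Subset.rfl))).trans (h B (hB.trans hm))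

/-- size of the closure -/
theorem card_clo {A : Finset (Sym2 (Fin n))} {Q : Finset (Fin n)} {k m : ℕ} (hE : Expd A m k)
    (hQ : 10 * Q.card ≤ 9 * m) : 9 * (clo A Q k).card ≤ 10 * Q.card := by
  -- iterate `N ↦ Q ∪ many A k N`
  let F : Finset (Fin n) → Finset (Fin n) := fun N => Q ∪ many A k N
  have hF : Monotone F := fun N N' h => union_subset_union_right (many_mono Subset.rfl le_rfl h)
  let N : ℕ → Finset (Fin n) := fun j => F^[j] ∅
  have hN0 : N 0 = ∅ := rfl
  have hNs : ∀ j, N (j + 1) = F (N j) := fun j => Function.iterate_succ_apply' F j ∅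
  have hmono : Monotone N := by
    refine monotone_nat_of_le_succ fun j => ?_
    induction j with
    | zero => rw [hN0]; exact empty_subset _
    | succ j ih =>
      calc N (j + 1) = F (N j) := hNs j
        _ ⊆ F (N (j + 1)) := hF ih
        _ = N (j + 1 + 1) := (hNs (j + 1)).symm
  have hcard : ∀ j, 9 * (N j).card ≤ 10 * Q.card := by
    intro j
    induction j with
    | zero => rw [hN0]; simp
    | succ j ih =>
      have h1 : (N j).card ≤ m := by omega
      have h2 := hE (N j) h1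
      rw [hNs]
      have h3 : (F (N j)).card ≤ Q.card + (many A k (N j)).card := card_union_le _ _
      omega
  -- the sequence becomes stationary
  obtain ⟨j, hj⟩ : ∃ j, N (j + 1) = N j := by
    by_contra hcon
    push Not at hcon
    have hlt : ∀ j, j ≤ (N j).card := by
      intro j
      induction j with
      | zero => exact Nat.zero_le _
      | succ j ih =>
        have : N j ⊂ N (j + 1) := (hmono (Nat.le_succ j)).lt_of_ne (hcon j).symm
        have := card_lt_card this
        omega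
    have h1 := hlt (n + 1)
    have h2 := card_le_univ (N (n + 1))
    rw [Fintype.card_fin] at h2
    omega
  have hclosed : ClosedQ A Q k (N j) := by
    have e : F (N j) = N j := by rw [← hNs, hj]
    refine ⟨?_, fun i hi => ?_⟩
    · calc Q ⊆ F (N j) := subset_union_left
        _ = N j := e
    · rw [← e]
      exact mem_union_right _ (mem_many.2 hi)
  exact (Nat.mul_le_mul_left 9 (card_le_card (clo_subset hclosed))).trans (hcard j)

/-- the pairs outside `Γ` -/
def outp (Γ : Finset (Fin n)) : Finset (Sym2 (Fin n)) :=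
  (prs n).filter (fun e => ∀ x ∈ e, x ∉ Γ)

lemma mem_outp {Γ : Finset (Fin n)} {i j : Fin n} :
    s(i, j) ∈ outp Γ ↔ i ≠ j ∧ i ∉ Γ ∧ j ∉ Γ := by
  simp only [outp, mem_filter, mem_prs, Sym2.mem_iff]
  constructor
  · rintro ⟨h, h'⟩
    exact ⟨h, h' i (Or.inl rfl), h' j (Or.inr rfl)⟩
  · rintro ⟨h, h1, h2⟩
    refine ⟨h, ?_⟩
    rintro x (rfl | rfl)
    · exact h1
    · exact h2

/-- vertices outside `Γ` with few neighbours outside `Γ` -/
def lowout (A : Finset (Sym2 (Fin n))) (Γ : Finset (Fin n)) (D : ℕ) : Finset (Fin n) :=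
  univ.filter (fun i => i ∉ Γ ∧ (nb A i \ Γ).card < D)

/-- the closure outside `Γ` -/
def cloout (A : Finset (Sym2 (Fin n))) (Γ : Finset (Fin n)) (D k : ℕ) : Finset (Fin n) :=
  clo (A ∩ outp Γ) (lowout A Γ D) k

lemma nb_out {A : Finset (Sym2 (Fin n))} {Γ : Finset (Fin n)} {i : Fin n} (hi : i ∉ Γ) :
    nb (A ∩ outp Γ) i = nb A i \ Γ := by
  ext j
  simp only [mem_nb, mem_sdiff, Adj, mem_inter, mem_outp]
  tauto

lemma nb_out' {A : Finset (Sym2 (Fin n))} {Γ : Finset (Fin n)} {i : Fin n} (hi : i ∈ Γ) :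
    nb (A ∩ outp Γ) i = ∅ := by
  ext j
  simp only [mem_nb, Adj, mem_inter, mem_outp, notMem_empty, iff_false]
  tauto

lemma lowout_inter {A : Finset (Sym2 (Fin n))} {Γ : Finset (Fin n)} {D : ℕ} :
    lowout (A ∩ outp Γ) Γ D = lowout A Γ D := by
  unfold lowout
  refine filter_congr fun i _ => ?_
  by_cases hi : i ∈ Γ
  · simp [hi]
  · rw [nb_out hi]
    simp [hi]

lemma cloout_inter {A : Finset (Sym2 (Fin n))} {Γ : Finset (Fin n)} {D k : ℕ} :
    cloout (A ∩ outp Γ) Γ D k = cloout A Γ D k := by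
  unfold cloout
  rw [lowout_inter, inter_assoc, inter_self]

lemma cloout_disj {A : Finset (Sym2 (Fin n))} {Γ : Finset (Fin n)} {D k : ℕ} (hk : 1 ≤ k) :
    Disjoint (cloout A Γ D k) Γ := by
  have hc : ClosedQ (A ∩ outp Γ) (lowout A Γ D) k (univ \ Γ) := by
    refine ⟨fun i hi => ?_, fun i hi => ?_⟩
    · simp only [lowout, mem_filter, mem_univ, true_and] at hi
      exact mem_sdiff.2 ⟨mem_univ _, hi.1⟩
    · refine mem_sdiff.2 ⟨mem_univ _, fun h => ?_⟩
      rw [nb_out' h] at hi
      simp at hi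
      omega
  rw [disjoint_left]
  intro i hi
  exact (mem_sdiff.1 (clo_subset hc hi)).2

/-- if every vertex outside `Γ` has at most one neighbour in `Γ`, the closure lies in `Γ` and the
closure outside `Γ` with smaller threshold -/
theorem cl_subset_out {A : Finset (Sym2 (Fin n))} {Γ : Finset (Fin n)} {D k : ℕ}
    (h1 : ∀ u, u ∉ Γ → (nb A u ∩ Γ).card ≤ 1) :
    cl A D (k + 1) ⊆ Γ ∪ cloout A Γ D k := by
  refine cl_subset ⟨fun i hi => ?_, fun i hi => ?_⟩
  · by_cases hΓ : i ∈ Γ
    · exact mem_union_left _ hΓ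
    · refine mem_union_right _ ((closedQ_clo _ _ _).1 ?_)
      simp only [low, lowout, mem_filter, mem_univ, true_and] at hi ⊢
      exact ⟨hΓ, (card_le_card sdiff_subset).trans_lt hi⟩
  · by_cases hΓ : i ∈ Γ
    · exact mem_union_left _ hΓ
    · refine mem_union_right _ ((closedQ_clo _ _ _).2 i ?_)
      rw [nb_out hΓ]
      have h2 : nb A i ∩ (Γ ∪ cloout A Γ D k)
          ⊆ (nb A i ∩ Γ) ∪ ((nb A i \ Γ) ∩ cloout A Γ D k) := by
        intro x hx
        rw [mem_inter, mem_union] at hx
        by_cases hxΓ : x ∈ Γ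
        · exact mem_union_left _ (mem_inter.2 ⟨hx.1, hxΓ⟩)
        · rcases hx.2 with h | h
          · exact absurd h hxΓ
          · exact mem_union_right _ (mem_inter.2 ⟨mem_sdiff.2 ⟨hx.1, hxΓ⟩, h⟩)
      have h3 := (card_le_card h2).trans (card_union_le _ _)
      have h4 := h1 i hΓ
      show k ≤ ((nb A i \ Γ) ∩ cloout A Γ D k).card
      omega

/-- a vertex of `Γ` in the closure has few neighbours outside `Γ` or many neighbours in the closure
outside `Γ` -/
theorem mem_cl_out {A : Finset (Sym2 (Fin n))} {Γ : Finset (Fin n)} {D k : ℕ}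
    (h1 : ∀ u, u ∉ Γ → (nb A u ∩ Γ).card ≤ 1) {v : Fin n} (hv : v ∈ cl A D (k + 1))
    (h2 : (nb A v ∩ Γ).card ≤ 2) :
    (nb A v \ Γ).card < D ∨ k + 1 ≤ (nb A v ∩ cloout A Γ D k).card + 2 := by
  by_cases hlow : v ∈ low A D
  · left
    simp only [low, mem_filter, mem_univ, true_and] at hlow
    exact (card_le_card sdiff_subset).trans_lt hlow
  · right
    rw [cl_eq_clo] at hv
    have h3 := mem_clo_imp hv hlow
    rw [← cl_eq_clo] at h3
    have h4 : nb A v ∩ cl A D (k + 1) ⊆ (nb A v ∩ Γ) ∪ (nb A v ∩ cloout A Γ D k) := by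
      rw [← inter_union_distrib_left]
      exact inter_subset_inter_left (cl_subset_out h1)
    have h5 := (card_le_card h4).trans (card_union_le _ _)
    omega

end

end Pool.Agent.Helper42.BPX
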