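import Pool.Agent.Helper42.BPX.EE
import Pool.Agent.Helper87.BP.Defs

/-!
# Persistence of the saturated state: deterministic part
-/

set_option autoImplicit false

namespace Pool.Agent.Helper42.BPX

open Finset Pool.Agent.Helper87.BP

noncomputable section

open Classical

variable {n : ℕ}

/-- adjacency in the graph with edge set `A` -/
def Adj (A : Finset (Sym2 (Fin n))) (i j : Fin n) : Prop := i ≠ j ∧ s(i, j) ∈ A

lemma Adj.symm {A : Finset (Sym2 (Fin n))} {i j : Fin n} (h : Adj A i j) : Adj A j i :=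
  ⟨h.1.symm, by rw [Sym2.eq_swap]; exact h.2⟩

lemma adj_comm {A : Finset (Sym2 (Fin n))} {i j : Fin n} : Adj A i j ↔ Adj A j i :=
  ⟨Adj.symm, Adj.symm⟩

/-- neighbours of `i` -/
def nb (A : Finset (Sym2 (Fin n))) (i : Fin n) : Finset (Fin n) := univ.filter (fun j => Adj A i j)

lemma mem_nb {A : Finset (Sym2 (Fin n))} {i j : Fin n} : j ∈ nb A i ↔ Adj A i j := by simp [nb]

/-- vertices of degree less than `D` -/
def low (A : Finset (Sym2 (Fin n))) (D : ℕ) : Finset (Fin n) :=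
  univ.filter (fun i => (nb A i).card < D)

/-- `S` contains the vertices of degree less than `D` and those with at least `k` neighbours in
`S` -/
def Closed (A : Finset (Sym2 (Fin n))) (D k : ℕ) (S : Finset (Fin n)) : Prop :=
  low A D ⊆ S ∧ ∀ i, k ≤ (nb A i ∩ S).card → i ∈ S

/-- the least closed set -/
def cl (A : Finset (Sym2 (Fin n))) (D k : ℕ) : Finset (Fin n) :=
  univ.filter (fun i => ∀ S, Closed A D k S → i ∈ S)

lemma cl_subset {A : Finset (Sym2 (Fin n))} {D k : ℕ} {S : Finset (Fin n)}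
    (h : Closed A D k S) : cl A D k ⊆ S := by
  intro i hi
  simp only [cl, mem_filter, mem_univ, true_and] at hi
  exact hi S h

lemma closed_cl (A : Finset (Sym2 (Fin n))) (D k : ℕ) : Closed A D k (cl A D k) := by
  refine ⟨fun i hi => ?_, fun i hi => ?_⟩
  · simp only [cl, mem_filter, mem_univ, true_and]
    exact fun S hS => hS.1 hi
  · simp only [cl, mem_filter, mem_univ, true_and]
    intro S hS
    refine hS.2 i (hi.trans (card_le_card ?_))
    exact inter_subset_inter_left (cl_subset hS)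

/-- vertices with at least `k` neighbours in `B` -/
def many (A : Finset (Sym2 (Fin n))) (k : ℕ) (B : Finset (Fin n)) : Finset (Fin n) :=
  univ.filter (fun i => k ≤ (nb A i ∩ B).card)

lemma mem_many {A : Finset (Sym2 (Fin n))} {k : ℕ} {B : Finset (Fin n)} {i : Fin n} :
    i ∈ many A k B ↔ k ≤ (nb A i ∩ B).card := by simp [many]

/-- expansion: sets of at most `m` vertices have few vertices with many neighbours in them -/
def Expd (A : Finset (Sym2 (Fin n))) (m k : ℕ) : Prop :=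
  ∀ B : Finset (Fin n), B.card ≤ m → 10 * (many A k B).card ≤ B.card

/-- vertices with an outgoing message below `L` after `t` rounds -/
def bad (f : ℝ → ℝ) (A : Finset (Sym2 (Fin n))) (h0 : Fin n → Fin n → ℝ) (L : ℝ) (t : ℕ) :
    Finset (Fin n) :=
  univ.filter (fun i => ∃ j, Adj A i j ∧ msg f (Adj A) h0 t i j < L)

lemma mem_bad {f : ℝ → ℝ} {A : Finset (Sym2 (Fin n))} {h0 : Fin n → Fin n → ℝ} {L : ℝ} {t : ℕ}
    {i : Fin n} : i ∈ bad f A h0 L t ↔ ∃ j, Adj A i j ∧ msg f (Adj A) h0 t i j < L := by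
  simp [bad]

lemma msg_succ (f : ℝ → ℝ) (A : Finset (Sym2 (Fin n))) (h0 : Fin n → Fin n → ℝ) (t : ℕ)
    (i j : Fin n) : msg f (Adj A) h0 (t + 1) i j
      = ∑ k ∈ (nb A i).erase j, f (msg f (Adj A) h0 t k i) := by
  have e : (nb A i).erase j = univ.filter (fun k => Adj A k i ∧ k ≠ j) := by
    ext k
    simp only [mem_erase, mem_nb, mem_filter, mem_univ, true_and]
    rw [adj_comm]
    tauto
  rw [e]
  show (∑ k ∈ univ.filter (fun k => Adj A k i ∧ k ≠ j), f (msg f (Adj A) h0 t k i)) = _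
  rfl

lemma field_eq (f : ℝ → ℝ) (A : Finset (Sym2 (Fin n))) (h0 : Fin n → Fin n → ℝ) (t : ℕ)
    (i : Fin n) : field f (Adj A) h0 t i = ∑ k ∈ nb A i, f (msg f (Adj A) h0 t k i) := by
  have e : nb A i = univ.filter (fun k => Adj A k i) := by
    ext k
    simp only [mem_nb, mem_filter, mem_univ, true_and]
    exact adj_comm
  rw [e]
  rfl

/-- a vertex of large degree with few bad neighbours is good in the next round -/
theorem step {f : ℝ → ℝ} (hf : Monotone f) {c c1 L : ℝ} (hc : ∀ x, |f x| ≤ c) (h1 : c1 ≤ f L)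
    (h10 : 0 ≤ c1) {D k : ℕ} (hL : L ≤ ((D : ℝ) - 1 - k) * c1 - k * c)
    {A : Finset (Sym2 (Fin n))} {h0 : Fin n → Fin n → ℝ} {t : ℕ} {i : Fin n}
    (hi : i ∉ low A D) (hb : (nb A i ∩ bad f A h0 L t).card < k) :
    i ∉ bad f A h0 L (t + 1) := by
  have hc0 : 0 ≤ c := (abs_nonneg _).trans (hc 0)
  rw [mem_bad]
  rintro ⟨j, hij, hlt⟩
  rw [msg_succ] at hlt
  refine absurd hlt (not_lt.2 (hL.trans ?_))
  set N := (nb A i).erase j with hN
  have hdeg : D ≤ N.card + 1 := by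
    have : D ≤ (nb A i).card := by
      simp only [low, mem_filter, mem_univ, true_and, not_lt] at hi
      exact hi
    rw [hN]
    have := Finset.card_erase_add_one (mem_nb.2 hij)
    omega
  have hsplit : ∑ l ∈ N, f (msg f (Adj A) h0 t l i)
      = ∑ l ∈ N.filter (fun l => l ∈ bad f A h0 L t), f (msg f (Adj A) h0 t l i)
        + ∑ l ∈ N.filter (fun l => l ∉ bad f A h0 L t), f (msg f (Adj A) h0 t l i) :=
    (Finset.sum_filter_add_sum_filter_not _ _ _).symm
  have hb1 : (N.filter (fun l => l ∈ bad f A h0 L t)).card ≤ k := by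
    refine le_trans (card_le_card ?_) hb.le
    intro l hl
    rw [mem_filter] at hl
    exact mem_inter.2 ⟨mem_of_mem_erase hl.1, hl.2⟩
  have hcard : (N.filter (fun l => l ∈ bad f A h0 L t)).card
      + (N.filter (fun l => l ∉ bad f A h0 L t)).card = N.card :=
    Finset.card_filter_add_card_filter_not _
  have s1 : -(((N.filter (fun l => l ∈ bad f A h0 L t)).card : ℝ) * c)
      ≤ ∑ l ∈ N.filter (fun l => l ∈ bad f A h0 L t), f (msg f (Adj A) h0 t l i) := by
    have := Finset.card_nsmul_le_sum (N.filter (fun l => l ∈ bad f A h0 L t))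
      (fun l => f (msg f (Adj A) h0 t l i)) (-c) (fun l _ => (abs_le.1 (hc _)).1)
    rw [nsmul_eq_mul] at this
    linarith
  have s2 : ((N.filter (fun l => l ∉ bad f A h0 L t)).card : ℝ) * c1
      ≤ ∑ l ∈ N.filter (fun l => l ∉ bad f A h0 L t), f (msg f (Adj A) h0 t l i) := by
    have := Finset.card_nsmul_le_sum (N.filter (fun l => l ∉ bad f A h0 L t))
      (fun l => f (msg f (Adj A) h0 t l i)) c1 (fun l hl => ?_)
    · rw [nsmul_eq_mul] at this
      exact this
    · rw [mem_filter, mem_bad] at hl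
      have hli : Adj A l i := (mem_nb.1 (mem_of_mem_erase hl.1)).symm
      have : L ≤ msg f (Adj A) h0 t l i := by
        by_contra hcon
        exact hl.2 ⟨i, hli, not_le.1 hcon⟩
      exact h1.trans (hf this)
  have e1 : ((N.filter (fun l => l ∈ bad f A h0 L t)).card : ℝ) ≤ k := by exact_mod_cast hb1
  have e2 : ((N.filter (fun l => l ∈ bad f A h0 L t)).card : ℝ)
      + ((N.filter (fun l => l ∉ bad f A h0 L t)).card : ℝ) = N.card := by exact_mod_cast hcard
  have e3 : (D : ℝ) ≤ N.card + 1 := by exact_mod_cast hdeg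
  rw [hsplit]
  nlinarith [mul_le_mul_of_nonneg_right e1 hc0, mul_le_mul_of_nonneg_right e1 h10,
    mul_le_mul_of_nonneg_right e3 h10]

/-- contraction of the bad set outside the closure -/
theorem contract {f : ℝ → ℝ} (hf : Monotone f) {c c1 L : ℝ} (hc : ∀ x, |f x| ≤ c)
    (h1 : c1 ≤ f L) (h10 : 0 ≤ c1) {D k m : ℕ}
    (hL : L ≤ ((D : ℝ) - 1 - (2 * k : ℕ)) * c1 - (2 * k : ℕ) * c)
    {A : Finset (Sym2 (Fin n))} (hE : Expd A m k) {h0 : Fin n → Fin n → ℝ} {t : ℕ}
    (ht : (bad f A h0 L t \ cl A D k).card ≤ m) :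
    10 * (bad f A h0 L (t + 1) \ cl A D k).card ≤ (bad f A h0 L t \ cl A D k).card := by
  refine le_trans (Nat.mul_le_mul_left 10 (card_le_card ?_)) (hE _ ht)
  intro i hi
  rw [mem_sdiff] at hi
  rw [mem_many]
  by_contra hcon
  rw [not_le] at hcon
  have hcl := closed_cl A D k
  have h2 : (nb A i ∩ cl A D k).card < k := by
    by_contra h
    exact hi.2 (hcl.2 i (not_lt.1 h))
  have hlow : i ∉ low A D := fun h => hi.2 (hcl.1 h)
  refine step hf hc h1 h10 hL hlow ?_ hi.1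
  have hsub : nb A i ∩ bad f A h0 L t
      ⊆ (nb A i ∩ (bad f A h0 L t \ cl A D k)) ∪ (nb A i ∩ cl A D k) := by
    intro l hl
    rw [mem_inter] at hl
    by_cases h : l ∈ cl A D k
    · exact mem_union_right _ (mem_inter.2 ⟨hl.1, h⟩)
    · exact mem_union_left _ (mem_inter.2 ⟨hl.1, mem_sdiff.2 ⟨hl.2, h⟩⟩)
  have := (card_le_card hsub).trans (card_union_le _ _)
  omega

theorem contract_iter {f : ℝ → ℝ} (hf : Monotone f) {c c1 L : ℝ} (hc : ∀ x, |f x| ≤ c)
    (h1 : c1 ≤ f L) (h10 : 0 ≤ c1) {D k m : ℕ}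
    (hL : L ≤ ((D : ℝ) - 1 - (2 * k : ℕ)) * c1 - (2 * k : ℕ) * c)
    {A : Finset (Sym2 (Fin n))} (hE : Expd A m k) {h0 : Fin n → Fin n → ℝ} {t : ℕ}
    (ht : (bad f A h0 L t \ cl A D k).card ≤ m) (q : ℕ) :
    10 ^ q * (bad f A h0 L (t + q) \ cl A D k).card ≤ (bad f A h0 L t \ cl A D k).card := by
  induction q with
  | zero => simp
  | succ q ih =>
    have hq : (bad f A h0 L (t + q) \ cl A D k).card ≤ m := by
      refine le_trans ?_ ht
      refine le_trans ?_ ih
      exact Nat.le_mul_of_pos_left _ (by positivity)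
    have := contract hf hc h1 h10 hL hE hq
    calc 10 ^ (q + 1) * (bad f A h0 L (t + (q + 1)) \ cl A D k).card
        = 10 ^ q * (10 * (bad f A h0 L (t + q + 1) \ cl A D k).card) := by
          rw [pow_succ, Nat.mul_assoc, ← Nat.add_assoc]
      _ ≤ 10 ^ q * (bad f A h0 L (t + q) \ cl A D k).card := Nat.mul_le_mul_left _ this
      _ ≤ _ := ih

/-- `i → j` is the last step of a nonbacktracking walk of `r + 1` steps -/
def AL (A : Finset (Sym2 (Fin n))) : ℕ → Fin n → Fin n → Prop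
  | 0 => fun _ _ => True
  | r + 1 => fun i j => ∃ k, k ≠ j ∧ Adj A k i ∧ AL A r k i

/-- `i → j` is the last step of a nonbacktracking walk of `r + 1` steps whose vertices before `j`
lie in the sets `X t`, `X (t - 1)`, ... -/
def TW (A : Finset (Sym2 (Fin n))) (X : ℕ → Finset (Fin n)) : ℕ → ℕ → Fin n → Fin n → Prop
  | 0 => fun t i _ => i ∈ X t
  | r + 1 => fun t i j => i ∈ X t ∧ ∃ k, k ≠ j ∧ Adj A k i ∧ TW A X r (t - 1) k i

/-- a negative message comes from a walk of bad vertices -/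
theorem tw_of_neg {f : ℝ → ℝ} (hf : ∀ x, f x < 0 → x < 0) {L : ℝ} (hL : 0 < L)
    {A : Finset (Sym2 (Fin n))} {h0 : Fin n → Fin n → ℝ} :
    ∀ (r t : ℕ) (i j : Fin n), r ≤ t → Adj A i j → msg f (Adj A) h0 t i j < 0 →
      TW A (bad f A h0 L) r t i j := by
  intro r
  induction r with
  | zero =>
    intro t i j _ hij h
    exact mem_bad.2 ⟨j, hij, h.trans hL⟩
  | succ r ih =>
    intro t i j hrt hij h
    obtain ⟨s, rfl⟩ : ∃ s, t = s + 1 := ⟨t - 1, by omega⟩
    refine ⟨mem_bad.2 ⟨j, hij, h.trans hL⟩, ?_⟩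
    rw [msg_succ] at h
    obtain ⟨k, hk, hk'⟩ := Finset.exists_lt_of_sum_lt (s := (nb A i).erase j)
      (f := fun k => f (msg f (Adj A) h0 s k i)) (g := fun _ => (0 : ℝ)) (by simpa using h)
    have hki : Adj A k i := (mem_nb.1 (mem_of_mem_erase hk)).symm
    refine ⟨k, ne_of_mem_erase hk, hki, ?_⟩
    exact ih s k i (by omega) hki (hf _ hk')

/-- an alive message which is not positive comes from a walk of bad vertices -/
theorem tw_of_nonpos {f : ℝ → ℝ} (hf : ∀ x, f x < 0 → x < 0) (hf' : ∀ x, f x ≤ 0 → x ≤ 0)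
    {L : ℝ} (hL : 0 < L) {A : Finset (Sym2 (Fin n))} {h0 : Fin n → Fin n → ℝ} :
    ∀ (r t : ℕ) (i j : Fin n), r ≤ t → Adj A i j → AL A r i j →
      msg f (Adj A) h0 t i j ≤ 0 → TW A (bad f A h0 L) r t i j := by
  intro r
  induction r with
  | zero =>
    intro t i j _ hij _ h
    exact mem_bad.2 ⟨j, hij, h.trans_lt hL⟩
  | succ r ih =>
    intro t i j hrt hij hal h
    obtain ⟨s, rfl⟩ : ∃ s, t = s + 1 := ⟨t - 1, by omega⟩
    refine ⟨mem_bad.2 ⟨j, hij, h.trans_lt hL⟩, ?_⟩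
    obtain ⟨k, hkj, hki, hk⟩ := hal
    have hkm : k ∈ (nb A i).erase j := mem_erase.2 ⟨hkj, mem_nb.2 hki.symm⟩
    by_cases hk0 : f (msg f (Adj A) h0 s k i) ≤ 0
    · exact ⟨k, hkj, hki, ih s k i (by omega) hki hk (hf' _ hk0)⟩
    · rw [msg_succ] at h
      have : ∃ l ∈ (nb A i).erase j, f (msg f (Adj A) h0 s l i) < 0 := by
        by_contra hcon
        push Not at hcon
        have h1 : f (msg f (Adj A) h0 s k i)
            ≤ ∑ l ∈ (nb A i).erase j, f (msg f (Adj A) h0 s l i) :=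
          Finset.single_le_sum (f := fun l => f (msg f (Adj A) h0 s l i)) hcon hkm
        exact hk0 (h1.trans h)
      obtain ⟨l, hl, hl'⟩ := this
      have hli : Adj A l i := (mem_nb.1 (mem_of_mem_erase hl)).symm
      exact ⟨l, ne_of_mem_erase hl, hli, tw_of_neg hf hL r s l i (by omega) hli (hf _ hl')⟩

/-- a dead message vanishes -/
theorem msg_dead {f : ℝ → ℝ} (hf : f 0 = 0) {A : Finset (Sym2 (Fin n))}
    {h0 : Fin n → Fin n → ℝ} :
    ∀ (r t : ℕ) (i j : Fin n), r ≤ t → ¬ AL A r i j → msg f (Adj A) h0 t i j = 0 := by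
  intro r
  induction r with
  | zero =>
    intro t i j _ h
    exact absurd trivial h
  | succ r ih =>
    intro t i j hrt h
    obtain ⟨s, rfl⟩ : ∃ s, t = s + 1 := ⟨t - 1, by omega⟩
    rw [msg_succ]
    refine Finset.sum_eq_zero fun k hk => ?_
    have hki : Adj A k i := (mem_nb.1 (mem_of_mem_erase hk)).symm
    have : ¬ AL A r k i := fun h' => h ⟨k, ne_of_mem_erase hk, hki, h'⟩
    rw [ih s k i (by omega) this, hf]

/-- `i` is alive at depth `r` -/
def AV (A : Finset (Sym2 (Fin n))) (r : ℕ) (i : Fin n) : Prop := ∃ k, Adj A k i ∧ AL A r k i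

theorem field_dead {f : ℝ → ℝ} (hf : f 0 = 0) {A : Finset (Sym2 (Fin n))}
    {h0 : Fin n → Fin n → ℝ} {r t : ℕ} {i : Fin n} (hrt : r ≤ t) (h : ¬ AV A r i) :
    field f (Adj A) h0 t i = 0 := by
  rw [field_eq]
  refine Finset.sum_eq_zero fun k hk => ?_
  have hki : Adj A k i := (mem_nb.1 hk).symm
  rw [msg_dead hf r t k i hrt (fun h' => h ⟨k, hki, h'⟩), hf]

theorem tw_of_field {f : ℝ → ℝ} (hf : ∀ x, f x < 0 → x < 0) (hf' : ∀ x, f x ≤ 0 → x ≤ 0)
    {L : ℝ} (hL : 0 < L) {A : Finset (Sym2 (Fin n))} {h0 : Fin n → Fin n → ℝ} {r t : ℕ}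
    {i : Fin n} (hrt : r ≤ t) (hal : AV A r i) (h : field f (Adj A) h0 t i ≤ 0) :
    ∃ k, Adj A k i ∧ TW A (bad f A h0 L) r t k i := by
  obtain ⟨k, hki, hk⟩ := hal
  by_cases hk0 : f (msg f (Adj A) h0 t k i) ≤ 0
  · exact ⟨k, hki, tw_of_nonpos hf hf' hL r t k i hrt hki hk (hf' _ hk0)⟩
  · rw [field_eq] at h
    have : ∃ l ∈ nb A i, f (msg f (Adj A) h0 t l i) < 0 := by
      by_contra hcon
      push Not at hcon
      have h1 : f (msg f (Adj A) h0 t k i) ≤ ∑ l ∈ nb A i, f (msg f (Adj A) h0 t l i) :=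
        Finset.single_le_sum (f := fun l => f (msg f (Adj A) h0 t l i)) hcon (mem_nb.2 hki.symm)
      exact hk0 (h1.trans h)
    obtain ⟨l, hl, hl'⟩ := this
    have hli : Adj A l i := (mem_nb.1 hl).symm
    exact ⟨l, hli, tw_of_neg hf hL r t l i hrt hli (hf _ hl')⟩

/-- neighbours of the vertices of `B` -/
def nbs (A : Finset (Sym2 (Fin n))) (B : Finset (Fin n)) : Finset (Fin n) :=
  univ.filter (fun i => ∃ v ∈ B, Adj A v i)

/-- `q`-fold neighbours -/
def nbq (A : Finset (Sym2 (Fin n))) : ℕ → Finset (Fin n) → Finset (Fin n)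
  | 0 => id
  | q + 1 => fun B => nbs A (nbq A q B)

/-- a walk of bad vertices is a walk in `Z` or meets a bad vertex outside `Z` -/
theorem tw_split {A : Finset (Sym2 (Fin n))} {X : ℕ → Finset (Fin n)} {Z : Finset (Fin n)} :
    ∀ (r t : ℕ) (i j : Fin n), TW A X r t i j → TW A (fun _ => Z) r 0 i j ∨
      ∃ q ≤ r, i ∈ nbq A q (X (t - q) \ Z) := by
  intro r
  induction r with
  | zero =>
    intro t i j h
    by_cases hZ : i ∈ Z
    · exact Or.inl hZ
    · exact Or.inr ⟨0, le_rfl, mem_sdiff.2 ⟨h, hZ⟩⟩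
  | succ r ih =>
    intro t i j h
    obtain ⟨hi, k, hkj, hki, hk⟩ := h
    by_cases hZ : i ∈ Z
    · rcases ih (t - 1) k i hk with h | ⟨q, hq, h⟩
      · refine Or.inl ⟨hZ, k, hkj, hki, ?_⟩
        simpa using h
      · refine Or.inr ⟨q + 1, by omega, ?_⟩
        show i ∈ nbs A (nbq A q (X (t - (q + 1)) \ Z))
        have e : t - (q + 1) = t - 1 - q := by omega
        rw [e]
        simp only [nbs, mem_filter, mem_univ, true_and]
        exact ⟨k, h, hki⟩
    · exact Or.inr ⟨0, Nat.zero_le _, mem_sdiff.2 ⟨by simpa using hi, hZ⟩⟩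

/-- sum of the degrees above `Δ` -/
def hd (A : Finset (Sym2 (Fin n))) (Δ : ℕ) : ℕ :=
  ∑ i ∈ univ.filter (fun i => Δ < (nb A i).card), (nb A i).card

lemma card_nbs_le (A : Finset (Sym2 (Fin n))) (Δ : ℕ) (B : Finset (Fin n)) :
    (nbs A B).card ≤ Δ * B.card + hd A Δ := by
  have h1 : nbs A B ⊆ B.biUnion (nb A) := by
    intro i hi
    simp only [nbs, mem_filter, mem_univ, true_and] at hi
    obtain ⟨v, hv, hvi⟩ := hi
    exact mem_biUnion.2 ⟨v, hv, mem_nb.2 hvi⟩
  have h2 : (nbs A B).card ≤ ∑ v ∈ B, (nb A v).card :=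
    (card_le_card h1).trans card_biUnion_le
  refine h2.trans ?_
  rw [← Finset.sum_filter_add_sum_filter_not B (fun v => Δ < (nb A v).card)]
  have h3 : ∑ v ∈ B.filter (fun v => Δ < (nb A v).card), (nb A v).card ≤ hd A Δ := by
    refine Finset.sum_le_sum_of_subset ?_
    intro v hv
    rw [mem_filter] at hv ⊢
    exact ⟨mem_univ _, hv.2⟩
  have h4 : ∑ v ∈ B.filter (fun v => ¬ Δ < (nb A v).card), (nb A v).card ≤ Δ * B.card := by
    calc _ ≤ ∑ v ∈ B.filter (fun v => ¬ Δ < (nb A v).card), Δ :=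
          Finset.sum_le_sum fun v hv => not_lt.1 (mem_filter.1 hv).2
      _ = (B.filter (fun v => ¬ Δ < (nb A v).card)).card * Δ := by
          rw [Finset.sum_const, smul_eq_mul]
      _ ≤ B.card * Δ := Nat.mul_le_mul_right _ (card_filter_le _ _)
      _ = Δ * B.card := Nat.mul_comm _ _
  omega

lemma card_nbq_le (A : Finset (Sym2 (Fin n))) {Δ : ℕ} (hΔ : 1 ≤ Δ) (B : Finset (Fin n)) :
    ∀ q : ℕ, (nbq A q B).card ≤ Δ ^ q * (B.card + q * hd A Δ) := by
  intro q
  induction q with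
  | zero => simp [nbq]
  | succ q ih =>
    have h := card_nbs_le A Δ (nbq A q B)
    have hp : 1 ≤ Δ ^ (q + 1) := Nat.one_le_pow _ _ hΔ
    calc (nbq A (q + 1) B).card ≤ Δ * (nbq A q B).card + hd A Δ := h
      _ ≤ Δ * (Δ ^ q * (B.card + q * hd A Δ)) + hd A Δ :=
          Nat.add_le_add_right (Nat.mul_le_mul_left _ ih) _
      _ ≤ Δ * (Δ ^ q * (B.card + q * hd A Δ)) + Δ ^ (q + 1) * hd A Δ :=
          Nat.add_le_add_left (Nat.le_mul_of_pos_left _ hp) _
      _ = Δ ^ (q + 1) * (B.card + (q + 1) * hd A Δ) := by ring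

end

end Pool.Agent.Helper42.BPX
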