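import Pool.Agent.Helper42.BPX.Det

/-!
# Persistence of the saturated state: deterministic part, assembly
-/

set_option autoImplicit false

namespace Pool.Agent.Helper42.BPX

open Finset Pool.Agent.Helper87.BP

noncomputable section

open Classical

variable {n : ℕ}

/-- ends of nonbacktracking walks of `r + 1` steps whose vertices before the last one lie in `Z` -/
def zw (A : Finset (Sym2 (Fin n))) (Z : Finset (Fin n)) (r : ℕ) : Finset (Fin n) :=
  univ.filter (fun i => ∃ k, Adj A k i ∧ TW A (fun _ => Z) r 0 k i)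

theorem count_nonpos {f : ℝ → ℝ} (hf : ∀ x, f x < 0 → x < 0) (hf' : ∀ x, f x ≤ 0 → x ≤ 0)
    {L : ℝ} (hL : 0 < L) {A : Finset (Sym2 (Fin n))} {h0 : Fin n → Fin n → ℝ} {r t m Δ : ℕ}
    (hrt : r ≤ t) {Z : Finset (Fin n)} (hΔ : 1 ≤ Δ)
    (hm : ∀ q ≤ r, (bad f A h0 L (t - q) \ Z).card ≤ m) :
    (univ.filter (fun i => AV A r i ∧ field f (Adj A) h0 t i ≤ 0)).card
      ≤ (zw A Z r).card + (r + 1) * (Δ ^ (r + 1) * (m + (r + 1) * hd A Δ)) := by
  have hsub : univ.filter (fun i => AV A r i ∧ field f (Adj A) h0 t i ≤ 0)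
      ⊆ zw A Z r ∪ (range (r + 1)).biUnion
        (fun q => nbq A (q + 1) (bad f A h0 L (t - q) \ Z)) := by
    intro i hi
    simp only [mem_filter, mem_univ, true_and] at hi
    obtain ⟨k, hki, hk⟩ := tw_of_field hf hf' hL hrt hi.1 hi.2
    rcases tw_split (Z := Z) r t k i hk with h | ⟨q, hq, h⟩
    · refine mem_union_left _ ?_
      simp only [zw, mem_filter, mem_univ, true_and]
      exact ⟨k, hki, h⟩
    · refine mem_union_right _ (mem_biUnion.2 ⟨q, mem_range.2 (by omega), ?_⟩)
      show i ∈ nbs A (nbq A q _)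
      simp only [nbs, mem_filter, mem_univ, true_and]
      exact ⟨k, h, hki⟩
  refine (card_le_card hsub).trans ((card_union_le _ _).trans (Nat.add_le_add_left ?_ _))
  refine card_biUnion_le.trans ?_
  calc ∑ q ∈ range (r + 1), (nbq A (q + 1) (bad f A h0 L (t - q) \ Z)).card
      ≤ ∑ _q ∈ range (r + 1), Δ ^ (r + 1) * (m + (r + 1) * hd A Δ) := by
        refine Finset.sum_le_sum fun q hq => ?_
        have hq' : q ≤ r := by have := mem_range.1 hq; omega
        refine (card_nbq_le A hΔ _ (q + 1)).trans ?_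
        refine Nat.mul_le_mul (Nat.pow_le_pow_right hΔ (by omega)) ?_
        refine Nat.add_le_add (hm q hq') (Nat.mul_le_mul_right _ (by omega))
    _ = _ := by rw [Finset.sum_const, card_range, smul_eq_mul]

/-- good fields give good messages in the next round -/
theorem bad_succ_of_field {f : ℝ → ℝ} {c L : ℝ} (hc : ∀ x, |f x| ≤ c)
    {A : Finset (Sym2 (Fin n))} {h0 : Fin n → Fin n → ℝ} {t : ℕ} :
    bad f A h0 L (t + 1) ⊆ univ.filter (fun i => field f (Adj A) h0 t i < L + c) := by
  intro i hi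
  rw [mem_bad] at hi
  obtain ⟨j, hij, h⟩ := hi
  simp only [mem_filter, mem_univ, true_and]
  rw [msg_succ] at h
  rw [field_eq, ← Finset.add_sum_erase _ _ (mem_nb.2 hij)]
  have := (abs_le.1 (hc (msg f (Adj A) h0 t j i))).2
  linarith

/-- negating the initial messages -/
theorem msg_neg {f : ℝ → ℝ} (hf : ∀ x, f (-x) = - f x) (A : Finset (Sym2 (Fin n)))
    (h0 : Fin n → Fin n → ℝ) : ∀ (t : ℕ) (i j : Fin n),
      msg f (Adj A) (fun i j => - h0 i j) t i j = - msg f (Adj A) h0 t i j := by
  intro t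
  induction t with
  | zero => intro i j; rfl
  | succ t ih =>
    intro i j
    rw [msg_succ, msg_succ, ← Finset.sum_neg_distrib]
    exact Finset.sum_congr rfl fun k _ => by rw [ih, hf]

theorem field_neg {f : ℝ → ℝ} (hf : ∀ x, f (-x) = - f x) (A : Finset (Sym2 (Fin n)))
    (h0 : Fin n → Fin n → ℝ) (t : ℕ) (i : Fin n) :
    field f (Adj A) (fun i j => - h0 i j) t i = - field f (Adj A) h0 t i := by
  rw [field_eq, field_eq, ← Finset.sum_neg_distrib]
  exact Finset.sum_congr rfl fun k _ => by rw [msg_neg hf, hf]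

/-- the overlap when most alive vertices are positive -/
theorem overlap_pos {f : ℝ → ℝ} (hf0 : f 0 = 0) {A : Finset (Sym2 (Fin n))}
    {h0 : Fin n → Fin n → ℝ} {r t : ℕ} (hrt : r ≤ t) (σ : Fin n → Bool) {co : Fin n → ℝ}
    (hco : ∀ i, |co i| ≤ 1) :
    |∑ i, est f (Adj A) h0 co t i * lab σ i|
      ≤ |∑ i ∈ univ.filter (fun i => AV A r i), lab σ i|
        + |∑ i ∈ univ.filter (fun i => ¬ AV A r i), co i * lab σ i|
        + 2 * (univ.filter (fun i => AV A r i ∧ field f (Adj A) h0 t i ≤ 0)).card := by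
  have hlab : ∀ i, |lab σ i| = 1 := by
    intro i
    unfold lab
    split_ifs <;> simp
  rw [← Finset.sum_filter_add_sum_filter_not univ (fun i => AV A r i)]
  have e2 : ∑ i ∈ univ.filter (fun i => ¬ AV A r i), est f (Adj A) h0 co t i * lab σ i
      = ∑ i ∈ univ.filter (fun i => ¬ AV A r i), co i * lab σ i := by
    refine Finset.sum_congr rfl fun i hi => ?_
    have hd := field_dead (h0 := h0) hf0 hrt (mem_filter.1 hi).2
    unfold est tieSign
    rw [hd]
    simp
  have e1 : |∑ i ∈ univ.filter (fun i => AV A r i), est f (Adj A) h0 co t i * lab σ i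
      - ∑ i ∈ univ.filter (fun i => AV A r i), lab σ i|
      ≤ 2 * (univ.filter (fun i => AV A r i ∧ field f (Adj A) h0 t i ≤ 0)).card := by
    rw [← Finset.sum_sub_distrib]
    have e3 : ∑ i ∈ univ.filter (fun i => AV A r i),
          (est f (Adj A) h0 co t i * lab σ i - lab σ i)
        = ∑ i ∈ univ.filter (fun i => AV A r i ∧ field f (Adj A) h0 t i ≤ 0),
          (est f (Adj A) h0 co t i * lab σ i - lab σ i) := by
      rw [← Finset.filter_filter]
      symm
      refine Finset.sum_subset (filter_subset _ _) fun i hi hi' => ?_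
      have hpos : 0 < field f (Adj A) h0 t i := by
        by_contra h
        exact hi' (mem_filter.2 ⟨hi, not_lt.1 h⟩)
      unfold est tieSign
      rw [if_pos hpos]
      ring
    rw [e3]
    refine (Finset.abs_sum_le_sum_abs _ _).trans ?_
    have : ∀ i ∈ univ.filter (fun i => AV A r i ∧ field f (Adj A) h0 t i ≤ 0),
        |est f (Adj A) h0 co t i * lab σ i - lab σ i| ≤ 2 := by
      intro i _
      have h1 : |est f (Adj A) h0 co t i| ≤ 1 := by
        unfold est tieSign
        split_ifs
        · simp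
        · simp
        · exact hco i
      calc |est f (Adj A) h0 co t i * lab σ i - lab σ i|
          = |est f (Adj A) h0 co t i - 1| * |lab σ i| := by rw [← abs_mul]; ring_nf
        _ = |est f (Adj A) h0 co t i - 1| := by rw [hlab, mul_one]
        _ ≤ 2 := by
          rw [abs_le] at h1 ⊢
          constructor <;> linarith [h1.1, h1.2]
    refine (Finset.sum_le_card_nsmul _ _ _ this).trans ?_
    rw [nsmul_eq_mul]
    linarith
  rw [e2]
  have h3 := abs_add_le (∑ i ∈ univ.filter (fun i => AV A r i), est f (Adj A) h0 co t i * lab σ i)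
    (∑ i ∈ univ.filter (fun i => ¬ AV A r i), co i * lab σ i)
  have h4 := abs_sub_abs_le_abs_sub
    (∑ i ∈ univ.filter (fun i => AV A r i), est f (Adj A) h0 co t i * lab σ i)
    (∑ i ∈ univ.filter (fun i => AV A r i), lab σ i)
  linarith

/-- the overlap when most alive vertices are negative -/
theorem overlap_neg {f : ℝ → ℝ} (hf : ∀ x, f (-x) = - f x) {A : Finset (Sym2 (Fin n))}
    {h0 : Fin n → Fin n → ℝ} {r t : ℕ} (hrt : r ≤ t) (σ : Fin n → Bool) {co : Fin n → ℝ}
    (hco : ∀ i, |co i| ≤ 1) :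
    |∑ i, est f (Adj A) h0 co t i * lab σ i|
      ≤ |∑ i ∈ univ.filter (fun i => AV A r i), lab σ i|
        + |∑ i ∈ univ.filter (fun i => ¬ AV A r i), co i * lab σ i|
        + 2 * (univ.filter (fun i => AV A r i ∧
            field f (Adj A) (fun i j => - h0 i j) t i ≤ 0)).card := by
  have hf0 : f 0 = 0 := by have := hf 0; simp at this; linarith
  have h := overlap_pos (f := f) (A := A) (h0 := fun i j => - h0 i j) hf0 hrt σ
    (co := fun i => - co i) (fun i => by rw [abs_neg]; exact hco i)
  have e1 : ∀ i, est f (Adj A) (fun i j => - h0 i j) (fun i => - co i) t i * lab σ i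
      = - (est f (Adj A) h0 co t i * lab σ i) := by
    intro i
    have : est f (Adj A) (fun i j => - h0 i j) (fun i => - co i) t i
        = - est f (Adj A) h0 co t i := by
      unfold est tieSign
      rw [field_neg hf]
      rcases lt_trichotomy (field f (Adj A) h0 t i) 0 with h | h | h
      · rw [if_pos (by linarith), if_neg (by linarith), if_pos h]; ring
      · rw [h]; simp
      · rw [if_neg (by linarith), if_pos (by linarith), if_pos h]
    rw [this]; ring
  rw [Finset.sum_congr rfl (fun i _ => e1 i), Finset.sum_neg_distrib, abs_neg] at h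
  have e2 : |∑ i ∈ univ.filter (fun i => ¬ AV A r i), -co i * lab σ i|
      = |∑ i ∈ univ.filter (fun i => ¬ AV A r i), co i * lab σ i| := by
    rw [← abs_neg, ← Finset.sum_neg_distrib]
    congr 1
    exact Finset.sum_congr rfl fun i _ => by ring
  rw [e2] at h
  exact h

/-- **Persistence** (deterministic): if most fields are at least `L + c` at time `s`, the overlap is
small at all times after `s + 1 + q + r`. -/
theorem persist {f : ℝ → ℝ} (hf : StrictMono f) (hodd : ∀ x, f (-x) = - f x) {c c1 L : ℝ}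
    (hL0 : 0 < L) (hc : ∀ x, |f x| ≤ c) (h1 : c1 ≤ f L) (h10 : 0 ≤ c1) {D k m : ℕ}
    (hL : L ≤ ((D : ℝ) - 1 - (2 * k : ℕ)) * c1 - (2 * k : ℕ) * c)
    {A : Finset (Sym2 (Fin n))} (hE : Expd A m k) {h0 : Fin n → Fin n → ℝ} {s : ℕ}
    (hs : (univ.filter (fun i => field f (Adj A) h0 s i < L + c)).card ≤ m ∨
      (univ.filter (fun i => - field f (Adj A) h0 s i < L + c)).card ≤ m)
    (σ : Fin n → Bool) {co : Fin n → ℝ} (hco : ∀ i, |co i| ≤ 1) {r q m' Δ : ℕ} (hΔ : 1 ≤ Δ)
    (hm' : m ≤ 10 ^ q * m') {t : ℕ} (ht : s + 1 + q + r ≤ t) :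
    |∑ i, est f (Adj A) h0 co t i * lab σ i|
      ≤ |∑ i ∈ univ.filter (fun i => AV A r i), lab σ i|
        + |∑ i ∈ univ.filter (fun i => ¬ AV A r i), co i * lab σ i|
        + 2 * ((zw A (cl A D k) r).card
          + (r + 1) * (Δ ^ (r + 1) * (m' + (r + 1) * hd A Δ)) : ℕ) := by
  have hf0 : f 0 = 0 := by have := hodd 0; simp at this; linarith
  have hf1 : ∀ x, f x < 0 → x < 0 := fun x h => by
    by_contra hx
    have := hf.monotone (not_lt.1 hx)
    rw [hf0] at this
    linarith
  have hf2 : ∀ x, f x ≤ 0 → x ≤ 0 := fun x h => by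
    by_contra hx
    have := hf (not_le.1 hx)
    rw [hf0] at this
    linarith
  have key : ∀ g0 : Fin n → Fin n → ℝ,
      (univ.filter (fun i => field f (Adj A) g0 s i < L + c)).card ≤ m →
      (univ.filter (fun i => AV A r i ∧ field f (Adj A) g0 t i ≤ 0)).card
        ≤ (zw A (cl A D k) r).card + (r + 1) * (Δ ^ (r + 1) * (m' + (r + 1) * hd A Δ)) := by
    intro g0 hg
    refine count_nonpos hf1 hf2 hL0 (by omega) hΔ fun q' hq' => ?_
    have hb : (bad f A g0 L (s + 1) \ cl A D k).card ≤ m :=
      (card_le_card (sdiff_subset.trans (bad_succ_of_field hc))).trans hg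
    obtain ⟨e, he⟩ : ∃ e, t - q' = s + 1 + (q + e) := ⟨t - q' - (s + 1 + q), by omega⟩
    have h2 := contract_iter hf.monotone hc h1 h10 hL hE hb (q + e)
    rw [he]
    have h3 : 10 ^ (q + e) * (bad f A g0 L (s + 1 + (q + e)) \ cl A D k).card
        ≤ 10 ^ (q + e) * m' := by
      refine h2.trans (hb.trans (hm'.trans ?_))
      refine Nat.mul_le_mul_right _ (Nat.pow_le_pow_right (by norm_num) (by omega))
    exact Nat.le_of_mul_le_mul_left h3 (by positivity)
  rcases hs with hs | hs
  · refine (overlap_pos (h0 := h0) hf0 (r := r) (t := t) (by omega) σ hco).trans ?_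
    have := key h0 hs
    have h5 : ((univ.filter (fun i => AV A r i ∧ field f (Adj A) h0 t i ≤ 0)).card : ℝ)
        ≤ ((zw A (cl A D k) r).card
          + (r + 1) * (Δ ^ (r + 1) * (m' + (r + 1) * hd A Δ)) : ℕ) := Nat.cast_le.2 this
    linarith
  · refine (overlap_neg (h0 := h0) hodd (r := r) (t := t) (by omega) σ hco).trans ?_
    have := key (fun i j => - h0 i j) (by
      simp only [field_neg hodd]
      exact hs)
    have h5 : ((univ.filter (fun i => AV A r i ∧
        field f (Adj A) (fun i j => - h0 i j) t i ≤ 0)).card : ℝ)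
        ≤ ((zw A (cl A D k) r).card
          + (r + 1) * (Δ ^ (r + 1) * (m' + (r + 1) * hd A Δ)) : ℕ) := Nat.cast_le.2 this
    linarith

/-- the pattern of a persistent saturated state, up to the sign -/
theorem est_pattern {f : ℝ → ℝ} (hf0 : f 0 = 0) {A : Finset (Sym2 (Fin n))}
    {h0 : Fin n → Fin n → ℝ} {r t : ℕ} (hrt : r ≤ t) (σ : Fin n → Bool) {co : Fin n → ℝ}
    (hco : ∀ i, |co i| ≤ 1) :
    |∑ i, est f (Adj A) h0 co t i * lab σ i - (∑ i ∈ univ.filter (fun i => AV A r i), lab σ i
        + ∑ i ∈ univ.filter (fun i => ¬ AV A r i), co i * lab σ i)|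
      ≤ 2 * (univ.filter (fun i => AV A r i ∧ field f (Adj A) h0 t i ≤ 0)).card := by
  have hlab : ∀ i, |lab σ i| = 1 := by
    intro i
    unfold lab
    split_ifs <;> simp
  rw [← Finset.sum_filter_add_sum_filter_not univ (fun i => AV A r i)]
  have e2 : ∑ i ∈ univ.filter (fun i => ¬ AV A r i), est f (Adj A) h0 co t i * lab σ i
      = ∑ i ∈ univ.filter (fun i => ¬ AV A r i), co i * lab σ i := by
    refine Finset.sum_congr rfl fun i hi => ?_
    have hd := field_dead (h0 := h0) hf0 hrt (mem_filter.1 hi).2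
    unfold est tieSign
    rw [hd]
    simp
  rw [e2, add_sub_add_right_eq_sub, ← Finset.sum_sub_distrib]
  have e3 : ∑ i ∈ univ.filter (fun i => AV A r i),
        (est f (Adj A) h0 co t i * lab σ i - lab σ i)
      = ∑ i ∈ univ.filter (fun i => AV A r i ∧ field f (Adj A) h0 t i ≤ 0),
        (est f (Adj A) h0 co t i * lab σ i - lab σ i) := by
    rw [← Finset.filter_filter]
    symm
    refine Finset.sum_subset (filter_subset _ _) fun i hi hi' => ?_
    have hpos : 0 < field f (Adj A) h0 t i := by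
      by_contra h
      exact hi' (mem_filter.2 ⟨hi, not_lt.1 h⟩)
    unfold est tieSign
    rw [if_pos hpos]
    ring
  rw [e3]
  refine (Finset.abs_sum_le_sum_abs _ _).trans ?_
  have : ∀ i ∈ univ.filter (fun i => AV A r i ∧ field f (Adj A) h0 t i ≤ 0),
      |est f (Adj A) h0 co t i * lab σ i - lab σ i| ≤ 2 := by
    intro i _
    have h1 : |est f (Adj A) h0 co t i| ≤ 1 := by
      unfold est tieSign
      split_ifs
      · simp
      · simp
      · exact hco i
    calc |est f (Adj A) h0 co t i * lab σ i - lab σ i|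
        = |est f (Adj A) h0 co t i - 1| * |lab σ i| := by rw [← abs_mul]; ring_nf
      _ = |est f (Adj A) h0 co t i - 1| := by rw [hlab, mul_one]
      _ ≤ 2 := by
        rw [abs_le] at h1 ⊢
        constructor <;> linarith [h1.1, h1.2]
  refine (Finset.sum_le_card_nsmul _ _ _ this).trans ?_
  rw [nsmul_eq_mul]
  linarith

/-- **Persistence**, comparison of two late times: if most fields are at least `L + c` (or at most
`-(L + c)`) at time `s`, the overlaps at all times after `s + 1 + q + r` are nearly the same. -/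
theorem persist_diff {f : ℝ → ℝ} (hf : StrictMono f) (hodd : ∀ x, f (-x) = - f x) {c c1 L : ℝ}
    (hL0 : 0 < L) (hc : ∀ x, |f x| ≤ c) (h1 : c1 ≤ f L) (h10 : 0 ≤ c1) {D k m : ℕ}
    (hL : L ≤ ((D : ℝ) - 1 - (2 * k : ℕ)) * c1 - (2 * k : ℕ) * c)
    {A : Finset (Sym2 (Fin n))} (hE : Expd A m k) {h0 : Fin n → Fin n → ℝ} {s : ℕ}
    (hs : (univ.filter (fun i => field f (Adj A) h0 s i < L + c)).card ≤ m ∨
      (univ.filter (fun i => - field f (Adj A) h0 s i < L + c)).card ≤ m)
    (σ : Fin n → Bool) {co : Fin n → ℝ} (hco : ∀ i, |co i| ≤ 1) {r q m' Δ : ℕ} (hΔ : 1 ≤ Δ)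
    (hm' : m ≤ 10 ^ q * m') {t t' : ℕ} (ht : s + 1 + q + r ≤ t) (ht' : s + 1 + q + r ≤ t') :
    |∑ i, est f (Adj A) h0 co t i * lab σ i - ∑ i, est f (Adj A) h0 co t' i * lab σ i|
      ≤ 4 * ((zw A (cl A D k) r).card
          + (r + 1) * (Δ ^ (r + 1) * (m' + (r + 1) * hd A Δ)) : ℕ) := by
  have hf0 : f 0 = 0 := by have := hodd 0; simp at this; linarith
  have hf1 : ∀ x, f x < 0 → x < 0 := fun x h => by
    by_contra hx
    have := hf.monotone (not_lt.1 hx)
    rw [hf0] at this
    linarith
  have hf2 : ∀ x, f x ≤ 0 → x ≤ 0 := fun x h => by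
    by_contra hx
    have := hf (not_le.1 hx)
    rw [hf0] at this
    linarith
  have key : ∀ g0 : Fin n → Fin n → ℝ, ∀ u, s + 1 + q + r ≤ u →
      (univ.filter (fun i => field f (Adj A) g0 s i < L + c)).card ≤ m →
      ((univ.filter (fun i => AV A r i ∧ field f (Adj A) g0 u i ≤ 0)).card : ℝ)
        ≤ ((zw A (cl A D k) r).card + (r + 1) * (Δ ^ (r + 1) * (m' + (r + 1) * hd A Δ)) : ℕ) := by
    intro g0 u hu hg
    refine Nat.cast_le.2 (count_nonpos hf1 hf2 hL0 (by omega) hΔ fun q' hq' => ?_)
    have hb : (bad f A g0 L (s + 1) \ cl A D k).card ≤ m :=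
      (card_le_card (sdiff_subset.trans (bad_succ_of_field hc))).trans hg
    obtain ⟨e, he⟩ : ∃ e, u - q' = s + 1 + (q + e) := ⟨u - q' - (s + 1 + q), by omega⟩
    have h2 := contract_iter hf.monotone hc h1 h10 hL hE hb (q + e)
    rw [he]
    have h3 : 10 ^ (q + e) * (bad f A g0 L (s + 1 + (q + e)) \ cl A D k).card
        ≤ 10 ^ (q + e) * m' := by
      refine h2.trans (hb.trans (hm'.trans ?_))
      refine Nat.mul_le_mul_right _ (Nat.pow_le_pow_right (by norm_num) (by omega))
    exact Nat.le_of_mul_le_mul_left h3 (by positivity)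
  have flip : ∀ u, ∑ i, est f (Adj A) (fun i j => - h0 i j) (fun i => - co i) u i * lab σ i
      = - ∑ i, est f (Adj A) h0 co u i * lab σ i := by
    intro u
    rw [← Finset.sum_neg_distrib]
    refine Finset.sum_congr rfl fun i _ => ?_
    have : est f (Adj A) (fun i j => - h0 i j) (fun i => - co i) u i
        = - est f (Adj A) h0 co u i := by
      unfold est tieSign
      rw [field_neg hodd]
      rcases lt_trichotomy (field f (Adj A) h0 u i) 0 with h | h | h
      · rw [if_pos (by linarith), if_neg (by linarith), if_pos h]; ring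
      · rw [h]; simp
      · rw [if_neg (by linarith), if_pos (by linarith), if_pos h]
    rw [this]; ring
  rcases hs with hs | hs
  · have a1 := est_pattern (h0 := h0) hf0 (r := r) (t := t) (by omega) σ hco (A := A)
    have a2 := est_pattern (h0 := h0) hf0 (r := r) (t := t') (by omega) σ hco (A := A)
    have b1 := key h0 t ht hs
    have b2 := key h0 t' ht' hs
    rw [abs_le] at a1 a2 ⊢
    constructor <;> linarith [a1.1, a1.2, a2.1, a2.2]
  · have hs' : (univ.filter (fun i => field f (Adj A) (fun i j => - h0 i j) s i < L + c)).card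
        ≤ m := by
      simp only [field_neg hodd]
      exact hs
    have hco' : ∀ i, |(fun i => - co i) i| ≤ 1 := fun i => by simpa using hco i
    have a1 := est_pattern (h0 := fun i j => - h0 i j) hf0 (r := r) (t := t) (by omega) σ hco'
      (A := A)
    have a2 := est_pattern (h0 := fun i j => - h0 i j) hf0 (r := r) (t := t') (by omega) σ hco'
      (A := A)
    have b1 := key _ t ht hs'
    have b2 := key _ t' ht' hs'
    rw [flip] at a1 a2
    rw [abs_le] at a1 a2 ⊢
    constructor <;> linarith [a1.1, a1.2, a2.1, a2.2]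

end

end Pool.Agent.Helper42.BPX
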