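import Mathlib

/-!
# Random subsets with independent elements (finite expectations)
-/

set_option autoImplicit false

namespace Pool.Agent.Helper42.BPX

open Finset

noncomputable section

variable {ι : Type*} [DecidableEq ι]

/-- weight of the subset `A` of `S` when each `x ∈ S` is taken independently with probability
`p x` -/
def wt (p : ι → ℝ) (S A : Finset ι) : ℝ := (∏ x ∈ A, p x) * ∏ x ∈ S \ A, (1 - p x)

/-- expectation of `F A`, where `A` is the random subset of `S` -/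
def EE (p : ι → ℝ) (S : Finset ι) (F : Finset ι → ℝ) : ℝ := ∑ A ∈ S.powerset, wt p S A * F A

open Classical in
/-- indicator of a proposition -/
def ind (P : Prop) : ℝ := if P then 1 else 0

lemma ind_of {P : Prop} (h : P) : ind P = 1 := by simp [ind, h]

lemma ind_not {P : Prop} (h : ¬ P) : ind P = 0 := by simp [ind, h]

lemma ind_nonneg (P : Prop) : 0 ≤ ind P := by
  by_cases h : P
  · simp [ind_of h]
  · simp [ind_not h]

lemma ind_le_one (P : Prop) : ind P ≤ 1 := by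
  by_cases h : P
  · simp [ind_of h]
  · simp [ind_not h]

lemma ind_mono {P Q : Prop} (h : P → Q) : ind P ≤ ind Q := by
  by_cases hP : P
  · rw [ind_of hP, ind_of (h hP)]
  · rw [ind_not hP]; exact ind_nonneg Q

lemma ind_congr {P Q : Prop} (h : P ↔ Q) : ind P = ind Q := by
  rw [propext h]

lemma ind_and (P Q : Prop) : ind (P ∧ Q) = ind P * ind Q := by
  by_cases hP : P <;> by_cases hQ : Q <;> simp [ind, hP, hQ]

lemma ind_compl (P : Prop) : ind (¬ P) = 1 - ind P := by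
  by_cases hP : P <;> simp [ind, hP]

lemma ind_or_le (P Q : Prop) : ind (P ∨ Q) ≤ ind P + ind Q := by
  by_cases hP : P <;> by_cases hQ : Q <;> simp [ind, hP, hQ]

/-- probability of the event `E` for the random subset of `S` -/
def Pr (p : ι → ℝ) (S : Finset ι) (E : Finset ι → Prop) : ℝ := EE p S (fun A => ind (E A))

variable {p : ι → ℝ} {S T : Finset ι}

lemma wt_nonneg (h0 : ∀ x ∈ S, 0 ≤ p x) (h1 : ∀ x ∈ S, p x ≤ 1) {A : Finset ι} (hA : A ⊆ S) :
    0 ≤ wt p S A := by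
  unfold wt
  refine mul_nonneg (prod_nonneg fun x hx => h0 x (hA hx)) (prod_nonneg fun x hx => ?_)
  have := h1 x (mem_sdiff.1 hx).1
  linarith

lemma EE_const (p : ι → ℝ) (S : Finset ι) (c : ℝ) : EE p S (fun _ => c) = c := by
  unfold EE wt
  rw [← Finset.sum_mul, ← Finset.prod_add]
  simp

lemma EE_add (p : ι → ℝ) (S : Finset ι) (F G : Finset ι → ℝ) :
    EE p S (fun A => F A + G A) = EE p S F + EE p S G := by
  unfold EE
  rw [← Finset.sum_add_distrib]
  exact Finset.sum_congr rfl fun A _ => by ring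

lemma EE_sub (p : ι → ℝ) (S : Finset ι) (F G : Finset ι → ℝ) :
    EE p S (fun A => F A - G A) = EE p S F - EE p S G := by
  unfold EE
  rw [← Finset.sum_sub_distrib]
  exact Finset.sum_congr rfl fun A _ => by ring

lemma EE_mul (p : ι → ℝ) (S : Finset ι) (c : ℝ) (F : Finset ι → ℝ) :
    EE p S (fun A => c * F A) = c * EE p S F := by
  unfold EE
  rw [Finset.mul_sum]
  exact Finset.sum_congr rfl fun A _ => by ring

lemma EE_mul_right (p : ι → ℝ) (S : Finset ι) (c : ℝ) (F : Finset ι → ℝ) :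
    EE p S (fun A => F A * c) = EE p S F * c := by
  unfold EE
  rw [Finset.sum_mul]
  exact Finset.sum_congr rfl fun A _ => by ring

lemma EE_neg (p : ι → ℝ) (S : Finset ι) (F : Finset ι → ℝ) :
    EE p S (fun A => - F A) = - EE p S F := by
  unfold EE
  rw [← Finset.sum_neg_distrib]
  exact Finset.sum_congr rfl fun A _ => by ring

lemma EE_sum {κ : Type*} (p : ι → ℝ) (S : Finset ι) (K : Finset κ) (F : κ → Finset ι → ℝ) :
    EE p S (fun A => ∑ k ∈ K, F k A) = ∑ k ∈ K, EE p S (F k) := by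
  unfold EE
  rw [Finset.sum_comm]
  exact Finset.sum_congr rfl fun A _ => by rw [Finset.mul_sum]

lemma EE_congr {F G : Finset ι → ℝ} (h : ∀ A ⊆ S, F A = G A) : EE p S F = EE p S G := by
  unfold EE
  exact Finset.sum_congr rfl fun A hA => by rw [h A (mem_powerset.1 hA)]

/-- the expectation depends on the probabilities of elements of `S` only -/
lemma EE_congr_p {q : ι → ℝ} (h : ∀ x ∈ S, p x = q x) (F : Finset ι → ℝ) :
    EE p S F = EE q S F := by
  unfold EE wt
  refine Finset.sum_congr rfl fun A hA => ?_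
  have e1 : ∏ x ∈ A, p x = ∏ x ∈ A, q x :=
    Finset.prod_congr rfl (fun x hx => h x (mem_powerset.1 hA hx))
  have e2 : ∏ x ∈ S \ A, (1 - p x) = ∏ x ∈ S \ A, (1 - q x) :=
    Finset.prod_congr rfl (fun x hx => by rw [h x (mem_sdiff.1 hx).1])
  rw [e1, e2]

lemma EE_mono (h0 : ∀ x ∈ S, 0 ≤ p x) (h1 : ∀ x ∈ S, p x ≤ 1) {F G : Finset ι → ℝ}
    (h : ∀ A ⊆ S, F A ≤ G A) : EE p S F ≤ EE p S G := by
  unfold EE
  exact Finset.sum_le_sum fun A hA =>
    mul_le_mul_of_nonneg_left (h A (mem_powerset.1 hA)) (wt_nonneg h0 h1 (mem_powerset.1 hA))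

lemma EE_nonneg (h0 : ∀ x ∈ S, 0 ≤ p x) (h1 : ∀ x ∈ S, p x ≤ 1) {F : Finset ι → ℝ}
    (h : ∀ A ⊆ S, 0 ≤ F A) : 0 ≤ EE p S F := by
  unfold EE
  exact Finset.sum_nonneg fun A hA =>
    mul_nonneg (wt_nonneg h0 h1 (mem_powerset.1 hA)) (h A (mem_powerset.1 hA))

lemma EE_le_const (h0 : ∀ x ∈ S, 0 ≤ p x) (h1 : ∀ x ∈ S, p x ≤ 1) {F : Finset ι → ℝ} {c : ℝ}
    (h : ∀ A ⊆ S, F A ≤ c) : EE p S F ≤ c := by
  have := EE_mono h0 h1 (F := F) (G := fun _ => c) h
  rwa [EE_const] at this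

lemma const_le_EE (h0 : ∀ x ∈ S, 0 ≤ p x) (h1 : ∀ x ∈ S, p x ≤ 1) {F : Finset ι → ℝ} {c : ℝ}
    (h : ∀ A ⊆ S, c ≤ F A) : c ≤ EE p S F := by
  have := EE_mono h0 h1 (F := fun _ => c) (G := F) h
  rwa [EE_const] at this

lemma abs_EE_le (h0 : ∀ x ∈ S, 0 ≤ p x) (h1 : ∀ x ∈ S, p x ≤ 1) (F : Finset ι → ℝ) :
    |EE p S F| ≤ EE p S (fun A => |F A|) := by
  rw [abs_le]
  constructor
  · rw [← EE_neg]
    exact EE_mono h0 h1 fun A _ => neg_abs_le _
  · exact EE_mono h0 h1 fun A _ => le_abs_self _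

/-- Cauchy-Schwarz -/
lemma EE_sq_le (h0 : ∀ x ∈ S, 0 ≤ p x) (h1 : ∀ x ∈ S, p x ≤ 1) (F : Finset ι → ℝ) :
    (EE p S F) ^ 2 ≤ EE p S (fun A => F A ^ 2) := by
  have h : 0 ≤ EE p S (fun A => (F A - EE p S F) ^ 2) := EE_nonneg h0 h1 fun A _ => sq_nonneg _
  have e : EE p S (fun A => (F A - EE p S F) ^ 2)
      = EE p S (fun A => F A ^ 2) - (EE p S F) ^ 2 := by
    have : (fun A => (F A - EE p S F) ^ 2)
        = fun A => (F A ^ 2 - (2 * EE p S F) * F A) + (EE p S F) ^ 2 := by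
      funext A; ring
    rw [this, EE_add, EE_sub, EE_mul, EE_const]
    ring
  linarith [e ▸ h]

/-- Fubini for the union of two disjoint sets of coordinates -/
lemma EE_union (hST : Disjoint S T) (F : Finset ι → ℝ) :
    EE p (S ∪ T) F = EE p S (fun A => EE p T (fun B => F (A ∪ B))) := by
  unfold EE
  have key : ∑ A ∈ S.powerset, wt p S A * ∑ B ∈ T.powerset, wt p T B * F (A ∪ B)
      = ∑ x ∈ S.powerset ×ˢ T.powerset, wt p S x.1 * (wt p T x.2 * F (x.1 ∪ x.2)) := by
    rw [Finset.sum_product]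
    exact Finset.sum_congr rfl fun A _ => by rw [Finset.mul_sum]
  rw [key]
  symm
  refine Finset.sum_bij' (fun x _ => x.1 ∪ x.2) (fun A _ => (A ∩ S, A ∩ T)) ?_ ?_ ?_ ?_ ?_
  · intro x hx
    rw [mem_product, mem_powerset, mem_powerset] at hx
    rw [mem_powerset]
    exact union_subset_union hx.1 hx.2
  · intro A hA
    rw [mem_product, mem_powerset, mem_powerset]
    exact ⟨inter_subset_right, inter_subset_right⟩
  · intro x hx
    rw [mem_product, mem_powerset, mem_powerset] at hx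
    refine Prod.ext ?_ ?_
    · ext y
      simp only [mem_inter, mem_union]
      constructor
      · rintro ⟨h | h, hy⟩
        · exact h
        · exact absurd (hx.2 h) (disjoint_left.1 hST hy)
      · intro h
        exact ⟨Or.inl h, hx.1 h⟩
    · ext y
      simp only [mem_inter, mem_union]
      constructor
      · rintro ⟨h | h, hy⟩
        · exact absurd hy (disjoint_left.1 hST (hx.1 h))
        · exact h
      · intro h
        exact ⟨Or.inr h, hx.2 h⟩
  · intro A hA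
    rw [mem_powerset] at hA
    show A ∩ S ∪ A ∩ T = A
    rw [← inter_union_distrib_left]
    exact inter_eq_left.2 hA
  · intro x hx
    rw [mem_product, mem_powerset, mem_powerset] at hx
    have hd : Disjoint x.1 x.2 := disjoint_of_subset_left hx.1 (disjoint_of_subset_right hx.2 hST)
    have e1 : (S ∪ T) \ (x.1 ∪ x.2) = (S \ x.1) ∪ (T \ x.2) := by
      ext y
      simp only [mem_sdiff, mem_union]
      constructor
      · rintro ⟨h | h, h'⟩
        · exact Or.inl ⟨h, fun h'' => h' (Or.inl h'')⟩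
        · exact Or.inr ⟨h, fun h'' => h' (Or.inr h'')⟩
      · rintro (⟨h, h'⟩ | ⟨h, h'⟩)
        · refine ⟨Or.inl h, ?_⟩
          rintro (h'' | h'')
          · exact h' h''
          · exact disjoint_left.1 hST h (hx.2 h'')
        · refine ⟨Or.inr h, ?_⟩
          rintro (h'' | h'')
          · exact disjoint_left.1 hST (hx.1 h'') h
          · exact h' h''
    have e2 : Disjoint (S \ x.1) (T \ x.2) :=
      disjoint_of_subset_left sdiff_subset (disjoint_of_subset_right sdiff_subset hST)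
    show wt p S x.1 * (wt p T x.2 * F (x.1 ∪ x.2)) = wt p (S ∪ T) (x.1 ∪ x.2) * F (x.1 ∪ x.2)
    unfold wt
    rw [e1, prod_union hd, prod_union e2]
    ring

/-- splitting off a subset of the coordinates -/
lemma EE_split (hT : T ⊆ S) (F : Finset ι → ℝ) :
    EE p S F = EE p T (fun A => EE p (S \ T) (fun B => F (A ∪ B))) := by
  conv_lhs => rw [← union_sdiff_of_subset hT]
  exact EE_union disjoint_sdiff F

/-- a function of the coordinates in `T` only -/
lemma EE_restrict (hT : T ⊆ S) {F : Finset ι → ℝ} (hF : ∀ A ⊆ S, F A = F (A ∩ T)) :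
    EE p S F = EE p T F := by
  rw [EE_split hT]
  refine EE_congr fun A hA => ?_
  rw [EE_congr (G := fun _ => F A), EE_const]
  intro B hB
  rw [hF (A ∪ B) (union_subset (hA.trans hT) (hB.trans sdiff_subset))]
  congr 1
  ext y
  simp only [mem_inter, mem_union]
  constructor
  · rintro ⟨h | h, hy⟩
    · exact h
    · exact absurd hy (mem_sdiff.1 (hB h)).2
  · intro h
    exact ⟨Or.inl h, hA h⟩

/-- independence of functions of disjoint sets of coordinates -/
lemma EE_indep {T₁ T₂ : Finset ι} (h₁ : T₁ ⊆ S) (h₂ : T₂ ⊆ S) (hd : Disjoint T₁ T₂)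
    {F G : Finset ι → ℝ} (hF : ∀ A ⊆ S, F A = F (A ∩ T₁)) (hG : ∀ A ⊆ S, G A = G (A ∩ T₂)) :
    EE p S (fun A => F A * G A) = EE p S F * EE p S G := by
  have e : EE p S (fun A => F A * G A) = EE p (T₁ ∪ T₂) (fun A => F A * G A) := by
    refine EE_restrict (union_subset h₁ h₂) fun A hA => ?_
    rw [hF A hA, hG A hA, hF (A ∩ (T₁ ∪ T₂)) (inter_subset_left.trans hA),
      hG (A ∩ (T₁ ∪ T₂)) (inter_subset_left.trans hA)]
    congr 2
    · ext y; simp only [mem_inter, mem_union]; tauto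
    · ext y; simp only [mem_inter, mem_union]; tauto
  rw [e, EE_union hd, EE_restrict h₁ hF, EE_restrict h₂ hG, ← EE_mul_right]
  refine EE_congr fun A hA => ?_
  rw [← EE_mul]
  refine EE_congr fun B hB => ?_
  have hAS : A ⊆ S := hA.trans h₁
  have hBS : B ⊆ S := hB.trans h₂
  have e1 : (A ∪ B) ∩ T₁ = A := by
    ext y
    simp only [mem_inter, mem_union]
    constructor
    · rintro ⟨h | h, hy⟩
      · exact h
      · exact absurd (hB h) (disjoint_left.1 hd hy)
    · intro h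
      exact ⟨Or.inl h, hA h⟩
  have e2 : (A ∪ B) ∩ T₂ = B := by
    ext y
    simp only [mem_inter, mem_union]
    constructor
    · rintro ⟨h | h, hy⟩
      · exact absurd hy (disjoint_left.1 hd (hA h))
      · exact h
    · intro h
      exact ⟨Or.inr h, hB h⟩
  rw [hF (A ∪ B) (union_subset hAS hBS), hG (A ∪ B) (union_subset hAS hBS), e1, e2]

/-! ## Probabilities -/

lemma Pr_nonneg (h0 : ∀ x ∈ S, 0 ≤ p x) (h1 : ∀ x ∈ S, p x ≤ 1) (E : Finset ι → Prop) :
    0 ≤ Pr p S E := EE_nonneg h0 h1 fun A _ => ind_nonneg _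

lemma Pr_le_one (h0 : ∀ x ∈ S, 0 ≤ p x) (h1 : ∀ x ∈ S, p x ≤ 1) (E : Finset ι → Prop) :
    Pr p S E ≤ 1 := EE_le_const h0 h1 fun A _ => ind_le_one _

lemma Pr_mono (h0 : ∀ x ∈ S, 0 ≤ p x) (h1 : ∀ x ∈ S, p x ≤ 1) {E E' : Finset ι → Prop}
    (h : ∀ A ⊆ S, E A → E' A) : Pr p S E ≤ Pr p S E' :=
  EE_mono h0 h1 fun A hA => ind_mono (h A hA)

lemma Pr_congr {E E' : Finset ι → Prop} (h : ∀ A ⊆ S, (E A ↔ E' A)) : Pr p S E = Pr p S E' :=
  EE_congr fun A hA => ind_congr (h A hA)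

lemma Pr_true (p : ι → ℝ) (S : Finset ι) : Pr p S (fun _ => True) = 1 := by
  unfold Pr
  rw [EE_congr (G := fun _ => 1) (fun A _ => ind_of trivial)]
  exact EE_const p S 1

lemma Pr_false (p : ι → ℝ) (S : Finset ι) : Pr p S (fun _ => False) = 0 := by
  unfold Pr
  rw [EE_congr (G := fun _ => 0) (fun A _ => ind_not not_false)]
  exact EE_const p S 0

lemma Pr_compl (E : Finset ι → Prop) : Pr p S (fun A => ¬ E A) = 1 - Pr p S E := by
  unfold Pr
  have h1 : EE p S (fun _ => (1 : ℝ)) = 1 := EE_const p S 1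
  rw [EE_congr (fun A _ => ind_compl (E A)), EE_sub, h1]

/-- union bound -/
lemma Pr_exists_le {κ : Type*} (h0 : ∀ x ∈ S, 0 ≤ p x) (h1 : ∀ x ∈ S, p x ≤ 1) (K : Finset κ)
    (E : κ → Finset ι → Prop) : Pr p S (fun A => ∃ k ∈ K, E k A) ≤ ∑ k ∈ K, Pr p S (E k) := by
  unfold Pr
  rw [← EE_sum]
  refine EE_mono h0 h1 fun A _ => ?_
  have hn : ∀ k ∈ K, (0 : ℝ) ≤ ind (E k A) := fun k _ => ind_nonneg _
  by_cases h : ∃ k ∈ K, E k A
  · rw [ind_of h]
    obtain ⟨k, hk, hE⟩ := h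
    calc (1 : ℝ) = ind (E k A) := (ind_of hE).symm
      _ ≤ _ := Finset.single_le_sum hn hk
  · rw [ind_not h]
    exact Finset.sum_nonneg hn

lemma Pr_or_le (h0 : ∀ x ∈ S, 0 ≤ p x) (h1 : ∀ x ∈ S, p x ≤ 1) (E E' : Finset ι → Prop) :
    Pr p S (fun A => E A ∨ E' A) ≤ Pr p S E + Pr p S E' := by
  unfold Pr
  rw [← EE_add]
  exact EE_mono h0 h1 fun A _ => ind_or_le _ _

/-- Markov -/
lemma Pr_ge_le (h0 : ∀ x ∈ S, 0 ≤ p x) (h1 : ∀ x ∈ S, p x ≤ 1) {F : Finset ι → ℝ}
    (hF : ∀ A ⊆ S, 0 ≤ F A) {c : ℝ} (hc : 0 < c) :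
    Pr p S (fun A => c ≤ F A) ≤ EE p S F / c := by
  rw [le_div_iff₀ hc]
  unfold Pr
  rw [← EE_mul_right]
  refine EE_mono h0 h1 fun A hA => ?_
  by_cases h : c ≤ F A
  · rw [ind_of h, one_mul]; exact h
  · rw [ind_not h, zero_mul]; exact hF A hA

/-- an event that depends on the coordinates in `T` only -/
lemma Pr_restrict (hT : T ⊆ S) {E : Finset ι → Prop} (hE : ∀ A ⊆ S, (E A ↔ E (A ∩ T))) :
    Pr p S E = Pr p T E := EE_restrict hT fun A hA => ind_congr (hE A hA)

/-- all elements of `B` are present -/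
lemma Pr_subset {B : Finset ι} (hB : B ⊆ S) : Pr p S (fun A => B ⊆ A) = ∏ x ∈ B, p x := by
  have e : Pr p S (fun A => B ⊆ A) = Pr p B (fun A => B ⊆ A) := by
    refine Pr_restrict hB fun A _ => ?_
    rw [subset_inter_iff]; simp
  rw [e]
  unfold Pr EE
  rw [Finset.sum_eq_single B]
  · show wt p B B * ind (B ⊆ B) = _
    rw [ind_of (Finset.Subset.refl B)]
    simp [wt]
  · intro A hA hne
    have : ¬ B ⊆ A := fun h => hne (subset_antisymm (mem_powerset.1 hA) h)
    show wt p B A * ind (B ⊆ A) = 0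
    rw [ind_not this, mul_zero]
  · intro h
    exact absurd (mem_powerset_self B) h

lemma Pr_subset_le (h0 : ∀ x ∈ S, 0 ≤ p x) {q : ℝ} (hq : ∀ x ∈ S, p x ≤ q) {B : Finset ι}
    (hB : B ⊆ S) : Pr p S (fun A => B ⊆ A) ≤ q ^ B.card := by
  rw [Pr_subset hB, ← Finset.prod_const]
  exact Finset.prod_le_prod (fun x hx => h0 x (hB hx)) (fun x hx => hq x (hB hx))

/-- independence of events depending on disjoint sets of coordinates -/
lemma Pr_indep {T₁ T₂ : Finset ι} (h₁ : T₁ ⊆ S) (h₂ : T₂ ⊆ S) (hd : Disjoint T₁ T₂)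
    {E E' : Finset ι → Prop} (hE : ∀ A ⊆ S, (E A ↔ E (A ∩ T₁)))
    (hE' : ∀ A ⊆ S, (E' A ↔ E' (A ∩ T₂))) :
    Pr p S (fun A => E A ∧ E' A) = Pr p S E * Pr p S E' := by
  unfold Pr
  rw [← EE_indep h₁ h₂ hd (fun A hA => ind_congr (hE A hA)) (fun A hA => ind_congr (hE' A hA))]
  exact EE_congr fun A _ => ind_and _ _

/-- independence of finitely many events depending on disjoint sets of coordinates -/
lemma Pr_indep_all {κ : Type*} [DecidableEq κ] (K : Finset κ) {U : κ → Finset ι}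
    (hU : ∀ k ∈ K, U k ⊆ S) (hd : ∀ k ∈ K, ∀ l ∈ K, k ≠ l → Disjoint (U k) (U l))
    {E : κ → Finset ι → Prop} (hE : ∀ k ∈ K, ∀ A ⊆ S, (E k A ↔ E k (A ∩ U k))) :
    Pr p S (fun A => ∀ k ∈ K, E k A) = ∏ k ∈ K, Pr p S (E k) := by
  induction K using Finset.induction_on with
  | empty => simp [Pr_true]
  | insert k K hk ih =>
    rw [Finset.prod_insert hk, ← ih (fun l hl => hU l (mem_insert_of_mem hl))
      (fun l hl m hm => hd l (mem_insert_of_mem hl) m (mem_insert_of_mem hm))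
      (fun l hl => hE l (mem_insert_of_mem hl))]
    have hd' : Disjoint (U k) (K.biUnion U) := by
      rw [Finset.disjoint_biUnion_right]
      intro l hl
      exact hd k (mem_insert_self _ _) l (mem_insert_of_mem hl) (fun e => hk (e ▸ hl))
    have hE2 : ∀ A ⊆ S, ((∀ l ∈ K, E l A) ↔ (∀ l ∈ K, E l (A ∩ K.biUnion U))) := by
      intro A hA
      refine forall₂_congr fun l hl => ?_
      have hl' : l ∈ insert k K := mem_insert_of_mem hl
      rw [hE l hl' A hA, hE l hl' (A ∩ K.biUnion U) (inter_subset_left.trans hA)]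
      have : A ∩ K.biUnion U ∩ U l = A ∩ U l := by
        ext y
        simp only [mem_inter, mem_biUnion]
        constructor
        · rintro ⟨⟨h, _⟩, h'⟩
          exact ⟨h, h'⟩
        · rintro ⟨h, h'⟩
          exact ⟨⟨h, l, hl, h'⟩, h'⟩
      rw [this]
    rw [← Pr_indep (hU k (mem_insert_self _ _))
      (Finset.biUnion_subset.2 fun l hl => hU l (mem_insert_of_mem hl)) hd'
      (hE k (mem_insert_self _ _)) hE2]
    exact Pr_congr fun A _ => by simp only [Finset.forall_mem_insert]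

end

end Pool.Agent.Helper42.BPX
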