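import Pool.Agent.Helper42.BPX.PB
import Pool.Agent.Helper87.BP.Indep

/-!
# More on random subsets, and the link with product measures
-/

set_option autoImplicit false

namespace Pool.Agent.Helper42.BPX

open Finset Pool.Agent.Helper87.BP MeasureTheory

noncomputable section

section general

variable {ι : Type*} [DecidableEq ι] {p : ι → ℝ} {S T : Finset ι}

/-- the indicator of one element and a function that does not depend on it -/
lemma EE_ind_mul {e : ι} (he : e ∈ S) {F : Finset ι → ℝ}
    (hF : ∀ A ⊆ S, F (insert e A) = F (A.erase e)) :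
    EE p S (fun A => ind (e ∈ A) * F A) = p e * EE p S F := by
  have hF' : ∀ A ⊆ S, F A = F (A ∩ S.erase e) := by
    intro A hA
    have e1 : A ∩ S.erase e = A.erase e := by
      ext x
      simp only [mem_inter, mem_erase]
      constructor
      · rintro ⟨h, h', _⟩
        exact ⟨h', h⟩
      · rintro ⟨h', h⟩
        exact ⟨h, h', hA h⟩
    rw [e1]
    by_cases h : e ∈ A
    · have := hF A hA
      rwa [insert_eq_of_mem h] at this
    · rw [erase_eq_of_notMem h]
  rw [EE_indep (F := fun A => ind (e ∈ A)) (G := F) (singleton_subset_iff.2 he)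
    (erase_subset e S) (by simp) (fun A _ => by simp) hF']
  congr 1
  have h1 := Pr_subset (p := p) (singleton_subset_iff.2 he)
  rw [Finset.prod_singleton] at h1
  rw [← h1]
  unfold Pr
  exact EE_congr fun A _ => by simp

/-- resampling the coordinates in `B` -/
lemma EE_resample (B : Finset ι) (F : Finset ι → ℝ) :
    EE p S F = EE p S (fun A => EE p S (fun A' => F ((A \ B) ∪ (A' ∩ B)))) := by
  have hT : S \ B ⊆ S := sdiff_subset
  have hB : S ∩ B ⊆ S := inter_subset_left
  have hS : S \ (S \ B) = S ∩ B := by ext x; simp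
  rw [EE_split hT F]
  symm
  rw [EE_restrict (F := fun A => EE p S (fun A' => F ((A \ B) ∪ (A' ∩ B)))) hT]
  · refine EE_congr fun A hA => ?_
    have hAB : A \ B = A := by
      ext x
      simp only [mem_sdiff]
      exact ⟨fun h => h.1, fun h => ⟨h, (mem_sdiff.1 (hA h)).2⟩⟩
    rw [hAB, hS, EE_restrict (F := fun A' => F (A ∪ (A' ∩ B))) hB]
    · refine EE_congr fun A' hA' => ?_
      have : A' ∩ B = A' := inter_eq_left.2 (hA'.trans inter_subset_right)
      rw [this]
    · intro A' hA'S
      congr 2
      ext x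
      simp only [mem_inter]
      constructor
      · rintro ⟨h, h'⟩
        exact ⟨⟨h, hA'S h, h'⟩, h'⟩
      · rintro ⟨⟨h, _, _⟩, h'⟩
        exact ⟨h, h'⟩
  · intro A hA
    refine EE_congr fun A' _ => ?_
    congr 2
    ext x
    simp only [mem_inter, mem_sdiff]
    constructor
    · rintro ⟨h, h'⟩
      exact ⟨⟨h, hA h, h'⟩, h'⟩
    · rintro ⟨⟨h, _, _⟩, h'⟩
      exact ⟨h, h'⟩

/-- changing the probabilities of elements which do not matter -/
lemma EE_change {q : ι → ℝ} {B : Finset ι} (hpq : ∀ x ∈ S, x ∉ B → p x = q x)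
    {F : Finset ι → ℝ} (hF : ∀ A ⊆ S, F A = F (A \ B)) : EE p S F = EE q S F := by
  have hT : S \ B ⊆ S := sdiff_subset
  have h : ∀ A ⊆ S, F A = F (A ∩ (S \ B)) := by
    intro A hA
    rw [hF A hA]
    congr 1
    ext x
    simp only [mem_inter, mem_sdiff]
    exact ⟨fun h => ⟨h.1, hA h.1, h.2⟩, fun h => ⟨h.1, h.2.2⟩⟩
  rw [EE_restrict hT h, EE_restrict hT h]
  exact EE_congr_p (fun x hx => hpq x (mem_sdiff.1 hx).1 (mem_sdiff.1 hx).2) F

end general

section link

variable {κ : Type*} [Fintype κ] [DecidableEq κ]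

open Classical in
/-- the elements of `S` whose uniform variable is below `p` -/
def pres (p : κ → ℝ) (S : Finset κ) (ω : κ → unitInterval) : Finset κ :=
  S.filter (fun x => (ω x : ℝ) < p x)

lemma pres_subset (p : κ → ℝ) (S : Finset κ) (ω : κ → unitInterval) : pres p S ω ⊆ S :=
  filter_subset _ _

lemma vol_lt {t : ℝ} (h0 : 0 ≤ t) (h1 : t ≤ 1) :
    (volume : Measure unitInterval).real {x | (x : ℝ) < t} = t := by
  have : {x : unitInterval | (x : ℝ) < t} = Set.Iio (⟨t, h0, h1⟩ : unitInterval) := by
    ext x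
    exact Iff.rfl
  rw [this, Measure.real, unitInterval.volume_Iio]
  simp [h0]

lemma vol_ge {t : ℝ} (h0 : 0 ≤ t) (h1 : t ≤ 1) :
    (volume : Measure unitInterval).real {x | ¬ (x : ℝ) < t} = 1 - t := by
  have hm : MeasurableSet {x : unitInterval | (x : ℝ) < t} :=
    measurableSet_lt measurable_subtype_coe measurable_const
  have := measureReal_compl (μ := (volume : Measure unitInterval)) hm
  rw [vol_lt h0 h1] at this
  rw [show {x : unitInterval | ¬ (x : ℝ) < t} = {x : unitInterval | (x : ℝ) < t}ᶜ from rfl, this]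
  simp

lemma vol_pres {p : κ → ℝ} {S A : Finset κ} (h0 : ∀ x ∈ S, 0 ≤ p x) (h1 : ∀ x ∈ S, p x ≤ 1)
    (hA : A ⊆ S) :
    (volume : Measure (κ → unitInterval)).real {ω | pres p S ω = A} = wt p S A := by
  classical
  have e : {ω : κ → unitInterval | pres p S ω = A}
      = Set.pi Set.univ (fun x => if x ∈ A then {y : unitInterval | (y : ℝ) < p x}
        else if x ∈ S then {y : unitInterval | ¬ (y : ℝ) < p x} else Set.univ) := by
    ext ω
    simp only [Set.mem_ofPred_eq, Set.mem_pi, Set.mem_univ, true_implies]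
    constructor
    · intro h x
      by_cases hx : x ∈ A
      · rw [if_pos hx]
        have : x ∈ pres p S ω := h ▸ hx
        exact (mem_filter.1 this).2
      · rw [if_neg hx]
        by_cases hxS : x ∈ S
        · rw [if_pos hxS]
          intro hlt
          exact hx (h ▸ mem_filter.2 ⟨hxS, hlt⟩)
        · rw [if_neg hxS]
          trivial
    · intro h
      ext x
      constructor
      · intro hx
        have hx' := mem_filter.1 hx
        by_contra hxA
        have := h x
        rw [if_neg hxA, if_pos hx'.1] at this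
        exact this hx'.2
      · intro hx
        have := h x
        rw [if_pos hx] at this
        exact mem_filter.2 ⟨hA hx, this⟩
  rw [e, Measure.real, volume_pi_pi, ENNReal.toReal_prod]
  have e2 : ∀ x : κ, ((volume : Measure unitInterval) (if x ∈ A then
      {y : unitInterval | (y : ℝ) < p x}
        else if x ∈ S then {y : unitInterval | ¬ (y : ℝ) < p x} else Set.univ)).toReal
      = if x ∈ A then p x else if x ∈ S then 1 - p x else 1 := by
    intro x
    by_cases hx : x ∈ A
    · rw [if_pos hx, if_pos hx]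
      exact vol_lt (h0 x (hA hx)) (h1 x (hA hx))
    · rw [if_neg hx, if_neg hx]
      by_cases hxS : x ∈ S
      · rw [if_pos hxS, if_pos hxS]
        exact vol_ge (h0 x hxS) (h1 x hxS)
      · rw [if_neg hxS, if_neg hxS]
        simp
  rw [Finset.prod_congr rfl (fun x _ => e2 x)]
  unfold wt
  have hsplit : (univ : Finset κ) = A ∪ ((S \ A) ∪ Sᶜ) := by
    ext x
    simp only [mem_univ, mem_union, mem_sdiff, mem_compl, true_iff]
    by_cases hx : x ∈ A
    · exact Or.inl hx
    · by_cases hxS : x ∈ S
      · exact Or.inr (Or.inl ⟨hxS, hx⟩)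
      · exact Or.inr (Or.inr hxS)
  rw [hsplit, prod_union, prod_union]
  · rw [Finset.prod_congr rfl (g := fun x => p x) (fun x hx => if_pos hx)]
    congr 1
    rw [Finset.prod_congr rfl (g := fun x => 1 - p x) (fun x hx => by
        rw [if_neg (mem_sdiff.1 hx).2, if_pos (mem_sdiff.1 hx).1]),
      Finset.prod_congr (s₁ := Sᶜ) rfl (g := fun _ => (1 : ℝ)) (fun x hx => by
        have hxS : x ∉ S := mem_compl.1 hx
        rw [if_neg (fun h => hxS (hA h)), if_neg hxS])]
    simp
  · rw [disjoint_left]
    intro x hx hx'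
    exact (mem_compl.1 hx') (mem_sdiff.1 hx).1
  · rw [disjoint_left]
    intro x hx hx'
    rcases mem_union.1 hx' with h | h
    · exact (mem_sdiff.1 h).2 hx
    · exact (mem_compl.1 h) (hA hx)

/-- the law of the present elements, jointly with the other coordinates -/
theorem vol_event {p : κ → ℝ} {S : Finset κ} (h0 : ∀ x ∈ S, 0 ≤ p x) (h1 : ∀ x ∈ S, p x ≤ 1)
    {E : Finset κ → Set (κ → unitInterval)} (hm : ∀ A ⊆ S, MeasurableSet (E A))
    (hE : ∀ A ⊆ S, DependsOn (fun ω => ω ∈ E A) ((Sᶜ : Finset κ) : Set κ)) :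
    (volume : Measure (κ → unitInterval)).real {ω | ω ∈ E (pres p S ω)}
      = EE p S (fun A => (volume : Measure (κ → unitInterval)).real (E A)) := by
  classical
  have hmp : ∀ A, MeasurableSet {ω : κ → unitInterval | pres p S ω = A} := by
    intro A
    have : {ω : κ → unitInterval | pres p S ω = A}
        = ⋂ x : κ, {ω | (x ∈ pres p S ω ↔ x ∈ A)} := by
      ext ω
      simp only [Set.mem_ofPred_eq, Set.mem_iInter]
      exact ⟨fun h x => by rw [h], fun h => Finset.ext h⟩
    rw [this]
    refine MeasurableSet.iInter fun x => ?_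
    have h2 : {ω : κ → unitInterval | (x ∈ pres p S ω ↔ x ∈ A)}
        = {ω | ((x ∈ S ∧ (ω x : ℝ) < p x) ↔ x ∈ A)} := by
      ext ω
      simp [pres]
    rw [h2]
    have hlt : MeasurableSet {ω : κ → unitInterval | (ω x : ℝ) < p x} :=
      measurableSet_lt (measurable_subtype_coe.comp (measurable_pi_apply x)) measurable_const
    by_cases hxS : x ∈ S <;> by_cases hxA : x ∈ A
    · simpa [hxS, hxA] using hlt
    · have := hlt.compl
      simpa [hxS, hxA, Set.compl_ofPred] using this
    · simp [hxS, hxA]
    · simp [hxS, hxA]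
  have hdp : ∀ A, DependsOn (fun ω : κ → unitInterval => ω ∈ {ω | pres p S ω = A})
      (S : Set κ) := by
    intro A ω ω' h
    simp only [Set.mem_ofPred_eq]
    have : pres p S ω = pres p S ω' := by
      unfold pres
      refine filter_congr fun x hx => ?_
      rw [h x (by exact_mod_cast hx)]
    rw [this]
  have hU : {ω : κ → unitInterval | ω ∈ E (pres p S ω)}
      = ⋃ A ∈ S.powerset, ({ω | pres p S ω = A} ∩ E A) := by
    ext ω
    simp only [Set.mem_ofPred_eq, Set.mem_iUnion, Set.mem_inter_iff, exists_prop]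
    constructor
    · intro h
      exact ⟨pres p S ω, mem_powerset.2 (pres_subset p S ω), rfl, h⟩
    · rintro ⟨A, _, rfl, h⟩
      exact h
  rw [hU, measureReal_biUnion_finset]
  · unfold EE
    refine Finset.sum_congr rfl fun A hA => ?_
    rw [mem_powerset] at hA
    rw [indep_real (A := S) (B := Sᶜ) disjoint_compl_right (hmp A) (hm A hA) (hdp A) (hE A hA),
      vol_pres h0 h1 hA]
  · intro A _ B _ hAB
    rw [Function.onFun, Set.disjoint_left]
    rintro ω ⟨h, _⟩ ⟨h', _⟩
    exact hAB (h.symm.trans h')
  · intro A hA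
    exact (hmp A).inter (hm A (mem_powerset.1 hA))

end link

end

end Pool.Agent.Helper42.BPX
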