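import Pool.Agent.Helper42.BPX.Lim
import Pool.Agent.Helper91.BP.Expd

/-!
# Good graphs
-/

set_option autoImplicit false

namespace Pool.Agent.Helper42.BPX

open Finset

noncomputable section

open Classical

variable {n : ℕ}

/-- a function of small mean is rarely large -/
lemma Pr_gt_le {p : Sym2 (Fin n) → ℝ} (h0 : ∀ e, 0 ≤ p e) (h1 : ∀ e, p e ≤ 1) (hn : 0 < n)
    {F : Finset (Sym2 (Fin n)) → ℝ} (hF : ∀ A, 0 ≤ F A) {ε ε' δ : ℝ} (hε : 0 < ε)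
    (h : EE p (prs n) F ≤ ε' * n) (h' : ε' ≤ ε * δ) :
    Pr p (prs n) (fun A => ¬ F A ≤ ε * n) ≤ δ := by
  have hn' : (0 : ℝ) < n := by exact_mod_cast hn
  have h2 : Pr p (prs n) (fun A => ¬ F A ≤ ε * n) ≤ Pr p (prs n) (fun A => ε * n ≤ F A) :=
    Pr_mono (fun e _ => h0 e) (fun e _ => h1 e) fun A _ h => (not_le.1 h).le
  refine h2.trans ((Pr_ge_le (fun e _ => h0 e) (fun e _ => h1 e) (fun A _ => hF A)
    (by positivity)).trans ?_)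
  rw [div_le_iff₀ (by positivity)]
  calc EE p (prs n) F ≤ ε' * n := h
    _ ≤ ε * δ * n := mul_le_mul_of_nonneg_right h' hn'.le
    _ = δ * (ε * n) := by ring

/-- with high probability the graph is good -/
theorem good_whp : ∃ d0 : ℝ, ∀ d : ℝ, d0 ≤ d → ∀ ε1 δ : ℝ, 0 < ε1 → 0 < δ →
    ∃ r0 : ℕ, ∀ r : ℕ, r0 ≤ r → ∀ ε2 : ℝ, 0 < ε2 → ∃ Δ0 : ℕ, ∀ Δ : ℕ, Δ0 ≤ Δ →
      ∃ N : ℕ, ∀ n : ℕ, N ≤ n → ∀ p : Sym2 (Fin n) → ℝ, PP n (1.01 * d) (0.99 * d) p →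
        Pr p (prs n) (fun A => ¬ (Expd A (n / 500) ⌈d / 40⌉₊ ∧
          ((zw A (cl A ⌈d / 2⌉₊ ⌈d / 40⌉₊) r).card : ℝ) ≤ ε1 * n ∧
          (hd A Δ : ℝ) ≤ ε2 * n)) ≤ δ := by
  obtain ⟨d1, hd1, hz⟩ := zw_small Pool.Agent.Helper91.BP.hExpd
  obtain ⟨k0, hk0⟩ := Pool.Agent.Helper91.BP.hExpd
  refine ⟨max d1 (40 * (k0 + 1)), fun d hdd ε1 δ hε1 hδ => ?_⟩
  have hdd1 : d1 ≤ d := (le_max_left _ _).trans hdd
  have hdd2 : 40 * ((k0 : ℝ) + 1) ≤ d := (le_max_right _ _).trans hdd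
  have hd0 : 1000000 ≤ d := hd1.trans hdd1
  set K := ⌈d / 40⌉₊ with hK
  have hK1 : d / 40 ≤ K := Nat.le_ceil _
  have hK2 : (K : ℝ) < d / 40 + 1 := Nat.ceil_lt_add_one (by linarith)
  have hKpos : 1 ≤ K := by
    have : (1 : ℝ) ≤ K := by linarith
    exact_mod_cast this
  obtain ⟨k, hk⟩ : ∃ k, K = k + 1 := ⟨K - 1, by omega⟩
  have hD : ((⌈d / 2⌉₊ : ℕ) : ℝ) ≤ d / 2 + 1 := (Nat.ceil_lt_add_one (by linarith)).le
  obtain ⟨r0, hr0⟩ := hz d ⌈d / 2⌉₊ k hdd1 hD (by rw [hk] at hK1; push_cast at hK1; exact hK1)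
    (ε1 * (δ / 3)) (by positivity)
  refine ⟨r0, fun r hr ε2 hε2 => ?_⟩
  obtain ⟨N1, hN1⟩ := hr0 r hr
  obtain ⟨Δ0, hΔ0⟩ := exists_pow_lt_of_lt_one
    (show (0 : ℝ) < ε2 * (δ / 3) / Real.exp (3 * (1.01 * d)) by positivity)
    (show (1 / 2 : ℝ) < 1 by norm_num)
  refine ⟨Δ0, fun Δ hΔ => ?_⟩
  have hkk : k0 ≤ K := by
    have : (k0 : ℝ) ≤ K := by linarith
    exact_mod_cast this
  obtain ⟨N2, hN2⟩ := hk0 (1.01 * d) K hkk (by linarith) (by linarith) (δ / 3) (by positivity)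
  refine ⟨N1 + N2 + 1, fun n hn p hp => ?_⟩
  have hn0 : 0 < n := by omega
  have h0 : ∀ e ∈ prs n, 0 ≤ p e := fun e _ => hp.nn e
  have h1 : ∀ e ∈ prs n, p e ≤ 1 := fun e _ => hp.le1 e
  have e1 := hN2 n (by omega) p hp.nn hp.le1 hp.up
  have e2 : Pr p (prs n) (fun A => ¬ ((zw A (cl A ⌈d / 2⌉₊ K) r).card : ℝ) ≤ ε1 * n) ≤ δ / 3 := by
    refine Pr_gt_le hp.nn hp.le1 hn0 (F := fun A => ((zw A (cl A ⌈d / 2⌉₊ K) r).card : ℝ))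
      (fun A => by positivity) hε1 ?_ le_rfl
    rw [hk]
    exact hN1 n (by omega) p hp
  have e3 : Pr p (prs n) (fun A => ¬ (hd A Δ : ℝ) ≤ ε2 * n) ≤ δ / 3 := by
    refine Pr_gt_le hp.nn hp.le1 hn0 (F := fun A => (hd A Δ : ℝ))
      (fun A => by positivity) hε2 ((EE_hd hp hn0 Δ).trans ?_) le_rfl
    rw [mul_comm (ε2 * (δ / 3))]
    refine mul_le_mul_of_nonneg_left ?_ (by positivity)
    have h4 : (1 / 2 : ℝ) ^ Δ ≤ ε2 * (δ / 3) / Real.exp (3 * (1.01 * d)) :=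
      (pow_le_pow_of_le_one (by norm_num) (by norm_num) hΔ).trans hΔ0.le
    have h5 : Real.exp (3 * (1.01 * d)) / 2 ^ Δ = Real.exp (3 * (1.01 * d)) * (1 / 2) ^ Δ := by
      rw [one_div, inv_pow]; rfl
    rw [h5]
    calc Real.exp (3 * (1.01 * d)) * (1 / 2) ^ Δ
        ≤ Real.exp (3 * (1.01 * d)) * (ε2 * (δ / 3) / Real.exp (3 * (1.01 * d))) :=
          mul_le_mul_of_nonneg_left h4 (Real.exp_pos _).le
      _ = ε2 * (δ / 3) := by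
          have := (Real.exp_pos (3 * (1.01 * d))).ne'
          field_simp
  have hstep : ∀ A ⊆ prs n, ¬ (Expd A (n / 500) K ∧
          ((zw A (cl A ⌈d / 2⌉₊ K) r).card : ℝ) ≤ ε1 * n ∧ (hd A Δ : ℝ) ≤ ε2 * n) →
      (¬ Expd A (n / 500) K ∨ (¬ ((zw A (cl A ⌈d / 2⌉₊ K) r).card : ℝ) ≤ ε1 * n ∨
        ¬ (hd A Δ : ℝ) ≤ ε2 * n)) := by
    intro A _ h
    tauto
  refine (Pr_mono h0 h1 hstep).trans ((Pr_or_le h0 h1 _ _).trans ?_)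
  have := Pr_or_le h0 h1 (fun A => ¬ ((zw A (cl A ⌈d / 2⌉₊ K) r).card : ℝ) ≤ ε1 * n)
    (fun A => ¬ (hd A Δ : ℝ) ≤ ε2 * n)
  linarith

end

end Pool.Agent.Helper42.BPX
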