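import Pool.Agent.Helper42.BPX.Alive
import Pool.Agent.Helper60.BP.StAsm

/-!
# Law of large numbers for alive vertices, final form
-/

set_option autoImplicit false

namespace Pool.Agent.Helper42.BPX

open Finset MeasureTheory Pool.Agent.Helper87.BP Pool.Agent.Helper60.BP

noncomputable section

open Classical

variable {n : ℕ}

lemma pe_eq (a b : ℝ) (σ : Fin n → Bool) :
    Pool.Agent.Helper72.BPA.pe a b σ = Pool.Agent.Helper60.BP.pe n a b σ := by
  funext e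
  induction e with | _ i j => rfl

lemma st_eq (x v : ℝ) : Pool.Agent.Helper72.BPA.st x v = zf x v := by
  unfold Pool.Agent.Helper72.BPA.st zf ind
  split_ifs <;> rfl

lemma Zw_eq (f : ℝ → ℝ) (A : Finset (Sym2 (Fin n))) (h0 : Fin n → Fin n → ℝ) (σ : Fin n → Bool)
    (t : ℕ) (v : ℝ) :
    Pool.Agent.Helper72.BPA.Zw σ univ (fun i => f (field f (Adj A) h0 t i)) v
      = Zt f (Adj A) h0 σ t v := by
  unfold Pool.Agent.Helper72.BPA.Zw Zt
  simp only [st_eq]

/-- part A in the notation of `AS` -/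
theorem partA_AS (hA : Pool.Agent.Helper72.BPA.S_partA) {a b m c θ : ℝ} {f : ℝ → ℝ}
    (h0 : Fin n → Fin n → ℝ) (hG : Pool.Agent.Helper72.BPA.GG n a b m)
    (hF : Pool.Agent.Helper72.BPA.FF c θ f) (h1 : 2 ≤ θ * m) (h2 : θ * m ≤ θ * (a - b) ^ 2 / 2)
    (t : ℕ) :
    avgE n a b (fun σ A => AS f (Adj A) h0 σ t)
      ≤ c / n * (16 + 2 * θ * (a - b) ^ 2 * m) * (t + 1) * (θ * (a - b) ^ 2 / 2) ^ (t + 1) := by
  have h := hA n a b m c θ f h0 hG hF h1 h2 t
  unfold Pool.Agent.Helper72.BPA.avg at h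
  unfold avgE AS
  simp only [pe_eq, Zw_eq] at h
  exact h

/-- conditions on `f` -/
lemma ff_of_fp {f : ℝ → ℝ} {θ L : ℝ} (hf : FP f θ L) :
    Pool.Agent.Helper72.BPA.FF L θ f := by
  refine ⟨hf.θpos.le.trans hf.Lge, hf.θpos.le, fun x => (hf.bdd x).le, hf.mono.monotone,
    fun x y => ?_⟩
  rcases le_total x y with h | h
  · rw [abs_sub_comm, abs_of_nonneg (sub_nonneg.2 (hf.mono.monotone h)), abs_sub_comm x y,
      abs_of_nonneg (sub_nonneg.2 h)]
    exact hf.lip x y h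
  · rw [abs_of_nonneg (sub_nonneg.2 (hf.mono.monotone h)), abs_of_nonneg (sub_nonneg.2 h)]
    exact hf.lip y x h

/-- The alive vertices are balanced. -/
theorem st_LLN (hf : StF) (hA : Pool.Agent.Helper72.BPA.S_partA) : ∀ a b : ℝ, 0 < b → b < a →
    (a - b) / (a + b) ≤ 1 / 100 → 2 * (a + b) < (a - b) ^ 2 → ∀ (r : ℕ) (ε δ : ℝ), 0 < ε →
    0 < δ → ∃ N : ℕ, ∀ n : ℕ, N ≤ n → avgE n a b (fun σ A =>
      ind (ε * n < |∑ i ∈ univ.filter (fun i => AV A r i), lab σ i|)) ≤ δ := by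
  intro a b hb hba hr hks r ε δ hε hδ
  have hab : 0 < a + b := by linarith
  set θ := (a - b) / (a + b) with hθ
  have hθ0 : 0 < θ := div_pos (by linarith) hab
  have hfp := hf θ hθ0 hr
  set f := fBP θ with hfdef
  set L := Real.artanh θ with hL
  have hf0 : f 0 = 0 := by have := hfp.odd 0; simp at this; linarith
  have hpos : ∀ x, 0 < x → 0 < f x := fun x hx => by rw [← hf0]; exact hfp.mono hx
  set C0 : ℝ := L * (16 + 2 * θ * (a - b) ^ 2 * a) * (r + 1) * (θ * (a - b) ^ 2 / 2) ^ (r + 1)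
    with hC0
  set g := gseq f (r + 2) with hg
  have hgpos : 0 < g := gseq_pos hpos _
  obtain ⟨N0, hN0⟩ := exists_nat_gt a
  obtain ⟨N1, hN1⟩ := exists_nat_gt (C0 / (g * ε ^ 2) / δ)
  refine ⟨N0 + N1 + 1, fun n hn => ?_⟩
  have hn0 : 0 < n := by omega
  have hn' : (0 : ℝ) < n := by exact_mod_cast hn0
  have han : a ≤ n := by
    have : (N0 : ℝ) ≤ n := by exact_mod_cast (by omega : N0 ≤ n)
    linarith
  have hG : Pool.Agent.Helper72.BPA.GG n a b a :=
    ⟨hn0, by linarith, hb.le, le_rfl, hba.le, han⟩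
  have h1 : 2 ≤ θ * a := by
    have h3 : 2 ≤ θ * (a - b) := by
      rw [hθ, div_mul_eq_mul_div, le_div_iff₀ hab]
      nlinarith
    have h4 : θ * (a - b) ≤ θ * a := mul_le_mul_of_nonneg_left (by linarith) hθ0.le
    linarith
  have h2 : θ * a ≤ θ * (a - b) ^ 2 / 2 := by
    rw [mul_div_assoc]
    refine mul_le_mul_of_nonneg_left ?_ hθ0.le
    linarith
  have h3 := partA_AS hA (n := n) (fun _ _ => 1) hG (ff_of_fp hfp) h1 h2 r
  have h4 : L / n * (16 + 2 * θ * (a - b) ^ 2 * a) * (r + 1) * (θ * (a - b) ^ 2 / 2) ^ (r + 1)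
      = C0 / n := by rw [hC0]; ring
  rw [h4] at h3
  have hp0 : ∀ (σ : Fin n → Bool) e, 0 ≤ Pool.Agent.Helper60.BP.pe n a b σ e := by
    intro σ e
    rw [← pe_eq]
    exact Pool.Agent.Helper72.BPA.pe_nonneg hG σ e
  have hp1 : ∀ (σ : Fin n → Bool) e, Pool.Agent.Helper60.BP.pe n a b σ e ≤ 1 := by
    intro σ e
    rw [← pe_eq]
    exact Pool.Agent.Helper72.BPA.pe_le_one hG σ e
  have h5 := alive_lln hfp.mono.monotone hf0 hpos (fun x => (hfp.bdd x).le) hn0 hp0 hp1 hε h3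
  have h6 : avgE n a b (fun σ A =>
      ind (ε * n < |∑ i ∈ univ.filter (fun i => AV A r i), lab σ i|))
      ≤ (∑ σ : Fin n → Bool, Pr (Pool.Agent.Helper60.BP.pe n a b σ) (prs n)
      (fun A => ε * n ≤ |∑ i ∈ univ.filter (fun i => AV A r i), lab σ i|)) / 2 ^ n := by
    unfold avgE
    refine div_le_div_of_nonneg_right (Finset.sum_le_sum fun σ _ => ?_) (by positivity)
    exact EE_mono (fun e _ => hp0 σ e) (fun e _ => hp1 σ e) fun A _ => ind_mono fun h => h.le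
  refine h6.trans (h5.trans ?_)
  rw [div_div, mul_comm (n : ℝ), ← div_div, div_le_iff₀ hn']
  have h7 : (N1 : ℝ) ≤ n := by exact_mod_cast (by omega : N1 ≤ n)
  rw [div_lt_iff₀ hδ] at hN1
  calc C0 / (g * ε ^ 2) ≤ N1 * δ := hN1.le
    _ ≤ n * δ := mul_le_mul_of_nonneg_right h7 hδ.le
    _ = δ * n := mul_comm _ _

end

end Pool.Agent.Helper42.BPX
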