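import Pool.Agent.Helper42.BPX.PB

/-!
# Probability inputs for the persistence of the saturated state
-/

set_option autoImplicit false

namespace Pool.Agent.Helper42.BPX

open Finset

noncomputable section

open Classical

/-- expansion of small sets: no set `B` of at most `n / 500` vertices has more than `#B / 10`
vertices with at least `k` neighbours in `B`, when the mean degree is at most `41 k`. -/
def StExpd : Prop := ∃ k0 : ℕ, ∀ (a : ℝ) (k : ℕ), k0 ≤ k → 0 ≤ a → a ≤ 41 * k → ∀ δ : ℝ, 0 < δ →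
  ∃ N : ℕ, ∀ n : ℕ, N ≤ n → ∀ p : Sym2 (Fin n) → ℝ, (∀ e, 0 ≤ p e) → (∀ e, p e ≤ 1) →
    (∀ e, p e ≤ a / n) → Pr p (prs n) (fun A => ¬ Expd A (n / 500) k) ≤ δ

end

end Pool.Agent.Helper42.BPX
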