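import Pool.Agent.Helper42.BPX.Low
import Pool.Agent.Helper42.BPX.StC

/-!
# Limit statements for the closure
-/

set_option autoImplicit false

namespace Pool.Agent.Helper42.BPX

open Finset

noncomputable section

open Classical

/-- few vertices of low degree outside a bounded set -/
theorem lowout_small {d : ℝ} (hd : 1000000 ≤ d) {D : ℕ} (hD : (D : ℝ) ≤ d / 2 + 1) (g : ℕ)
    {δ : ℝ} (hδ : 0 < δ) : ∃ N : ℕ, ∀ n : ℕ, N ≤ n → ∀ p : Sym2 (Fin n) → ℝ,
      PP n (1.01 * d) (0.99 * d) p → ∀ Γ : Finset (Fin n), Γ.card ≤ g →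
        Pr p (prs n) (fun A => n / 600 ≤ (lowout A Γ D).card) ≤ δ := by
  obtain ⟨L, hL⟩ := exists_pow_lt_of_lt_one (show (0 : ℝ) < δ / 2 ^ 600 by positivity)
    (show (1 / 2 : ℝ) < 1 by norm_num)
  refine ⟨600 * L + 1000 * g + 1, fun n hn p hp Γ hΓ => ?_⟩
  set l := n / 600 with hl
  have hn0 : 0 < n := by omega
  have h1 := Pr_lowout hp Γ D l (ρ := Real.exp (1 - d / 10)) (fun U hU => by
    refine num_low (by linarith) hn0 hD ?_
    have h2 : 99 * n ≤ 100 * U.card := by omega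
    have h3 : (99 : ℝ) * n ≤ 100 * U.card := by exact_mod_cast h2
    linarith)
  refine h1.trans ?_
  have h4 : n ≤ 600 * (l + 1) := by omega
  have h5 : (2 : ℝ) ^ n ≤ (2 ^ 600) * (2 ^ 600) ^ l := by
    rw [← pow_succ', ← pow_mul]
    exact pow_le_pow_right₀ (by norm_num) h4
  have h6 : (2 : ℝ) ^ 600 * Real.exp (1 - d / 10) ≤ 1 / 2 := by
    have h7 : (2 : ℝ) ^ 600 ≤ Real.exp 600 := by
      have h8 : (2 : ℝ) ≤ Real.exp 1 := by have := Real.exp_one_gt_d9; linarith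
      calc (2 : ℝ) ^ 600 ≤ (Real.exp 1) ^ 600 := pow_le_pow_left₀ (by norm_num) h8 _
        _ = Real.exp 600 := by rw [← Real.exp_nat_mul]; norm_num
    have h9 : Real.exp (1 - d / 10) ≤ Real.exp (-602) := Real.exp_le_exp.2 (by linarith)
    calc (2 : ℝ) ^ 600 * Real.exp (1 - d / 10) ≤ Real.exp 600 * Real.exp (-602) :=
          mul_le_mul h7 h9 (Real.exp_pos _).le (Real.exp_pos _).le
      _ = Real.exp (-2) := by rw [← Real.exp_add]; norm_num
      _ ≤ 1 / 2 := by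
          rw [Real.exp_neg, one_div]
          refine inv_anti₀ (by norm_num) ?_
          have := Real.add_one_le_exp (2 : ℝ)
          linarith
  have hL2 : L ≤ l := by omega
  calc (2 : ℝ) ^ n * Real.exp (1 - d / 10) ^ l
      ≤ ((2 ^ 600) * (2 ^ 600) ^ l) * Real.exp (1 - d / 10) ^ l :=
        mul_le_mul_of_nonneg_right h5 (by positivity)
    _ = 2 ^ 600 * (2 ^ 600 * Real.exp (1 - d / 10)) ^ l := by rw [mul_pow]; ring
    _ ≤ 2 ^ 600 * (1 / 2) ^ l := by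
        refine mul_le_mul_of_nonneg_left (pow_le_pow_left₀ (by positivity) h6 _) (by positivity)
    _ ≤ 2 ^ 600 * (1 / 2) ^ L := by
        refine mul_le_mul_of_nonneg_left ?_ (by positivity)
        exact pow_le_pow_of_le_one (by norm_num) (by norm_num) hL2
    _ ≤ 2 ^ 600 * (δ / 2 ^ 600) := mul_le_mul_of_nonneg_left hL.le (by positivity)
    _ = δ := by
        have : (2 : ℝ) ^ 600 ≠ 0 := by positivity
        field_simp

/-- the ends of walks of length `r` in the closure are few -/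
theorem zw_small (hE : StExpd) : ∃ d0 : ℝ, 1000000 ≤ d0 ∧ ∀ (d : ℝ) (D k : ℕ), d0 ≤ d →
    (D : ℝ) ≤ d / 2 + 1 → d / 40 ≤ (k : ℝ) + 1 → ∀ ε : ℝ, 0 < ε →
      ∃ r0 : ℕ, ∀ r : ℕ, r0 ≤ r → ∃ N : ℕ, ∀ n : ℕ, N ≤ n → ∀ p : Sym2 (Fin n) → ℝ,
        PP n (1.01 * d) (0.99 * d) p →
          EE p (prs n) (fun A => ((zw A (cl A D (k + 1)) r).card : ℝ)) ≤ ε * n := by
  obtain ⟨k0, hk0⟩ := hE
  refine ⟨max 1000000 (40 * (k0 + 1)), le_max_left _ _, fun d D k hd hD hk ε hε => ?_⟩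
  have hd1 : 1000000 ≤ d := (le_max_left _ _).trans hd
  have hd2 : 40 * ((k0 : ℝ) + 1) ≤ d := (le_max_right _ _).trans hd
  have hkk : k0 ≤ k := by
    have : (k0 : ℝ) + 1 ≤ k + 1 := by linarith
    have : (k0 : ℝ) ≤ k := by linarith
    exact_mod_cast this
  have hk1 : 1 ≤ k := by
    have : (1 : ℝ) ≤ k := by linarith
    exact_mod_cast this
  have ha41 : 1.01 * d ≤ 41 * k := by linarith
  have hexp := hk0 (1.01 * d) k hkk (by linarith) ha41
  set a : ℝ := 1.01 * d with ha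
  have hapos : 0 < a := by rw [ha]; linarith
  set q : ℝ := Real.exp (1 - d / 10) + Real.exp (2 - 3 * d / 200) with hq
  have hq0 : 0 ≤ q := by positivity
  have haq : a * q ≤ 1 / 2 := num_q hd1
  obtain ⟨r0, hr0⟩ := exists_pow_lt_of_lt_one (show (0 : ℝ) < ε / 4 by positivity)
    (show (1 / 2 : ℝ) < 1 by norm_num)
  refine ⟨r0, fun r hr => ?_⟩
  have hpow : (a * q) ^ (r + 1) ≤ ε / 4 := by
    calc (a * q) ^ (r + 1) ≤ (1 / 2) ^ (r + 1) := pow_le_pow_left₀ (by positivity) haq _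
      _ ≤ (1 / 2) ^ r0 := pow_le_pow_of_le_one (by norm_num) (by norm_num) (by omega)
      _ ≤ ε / 4 := hr0.le
  set δ : ℝ := ε / (8 * a ^ (r + 1)) with hδ
  have hδ0 : 0 < δ := by positivity
  obtain ⟨N1, hN1⟩ := hexp δ hδ0
  obtain ⟨N2, hN2⟩ := lowout_small hd1 hD (r + 2) hδ0
  set C1 : ℝ := a ^ (r + 1) * ((r + 2) ^ 2 * a ^ 2 + (r + 2) ^ 2 * a) with hC1
  set C2 : ℝ := ∑ q ∈ range r, ((q : ℝ) + 2) * a ^ (q + 2) with hC2
  have hC10 : 0 ≤ C1 := by positivity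
  have hC20 : 0 ≤ C2 := Finset.sum_nonneg fun _ _ => by positivity
  obtain ⟨N3, hN3⟩ := exists_nat_gt ((C1 + C2) * (4 / ε))
  refine ⟨N1 + N2 + N3 + 100 * (r + 2) + 10000, fun n hn p hp => ?_⟩
  have hn0 : 0 < n := by omega
  have hn' : (0 : ℝ) < n := by exact_mod_cast hn0
  have hQ : ∀ w : Fin (r + 2) → Fin n, Function.Injective w →
      Pr p (prs n) (fun A => PathIn D k w A) ≤ (a / n) ^ (r + 1) *
        ((((r : ℝ) + 2) ^ 2 * a ^ 2 / n + (((r : ℝ) + 2) ^ 2 * a / n + (δ + δ))) +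
          q ^ (r + 1)) := by
    intro w hw
    rw [mul_add]
    refine Pr_pathIn hp hw (m := n / 500) (l := n / 600) (y := n / 500) hk1 (by omega) (by omega)
      (hN1 n (by omega) p hp.nn hp.le1 hp.up) (hN2 n (by omega) p hp _ (card_pathV_le w)) ?_
    intro Y hY hYc v hv
    refine Pr_BJ_le (by linarith) hp hD hk ?_ hY hYc hv
    have := card_pathV_le w
    omega
  refine (EE_zw hp hn0 hQ (by positivity)).trans ?_
  have e1 : (n : ℝ) * (a ^ (r + 1) *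
        ((((r : ℝ) + 2) ^ 2 * a ^ 2 / n + (((r : ℝ) + 2) ^ 2 * a / n + (δ + δ))) +
          q ^ (r + 1))) = C1 + n * (a ^ (r + 1) * (δ + δ)) + n * (a * q) ^ (r + 1) := by
    have e0 : (n : ℝ) * (a ^ (r + 1) * (((r : ℝ) + 2) ^ 2 * a ^ 2 / n))
        = a ^ (r + 1) * (((r : ℝ) + 2) ^ 2 * a ^ 2) := by field_simp
    have e0' : (n : ℝ) * (a ^ (r + 1) * (((r : ℝ) + 2) ^ 2 * a / n))
        = a ^ (r + 1) * (((r : ℝ) + 2) ^ 2 * a) := by field_simp
    rw [hC1, mul_pow a q (r + 1)]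
    linear_combination e0 + e0'
  have e2 : a ^ (r + 1) * (δ + δ) = ε / 4 := by
    rw [hδ]
    have : a ^ (r + 1) ≠ 0 := by positivity
    field_simp
    ring
  have e3 : C1 + C2 ≤ ε / 4 * n := by
    have h1 : (N3 : ℝ) ≤ n := by exact_mod_cast (show N3 ≤ n by omega)
    have h2 : (C1 + C2) * (4 / ε) ≤ n := (hN3.trans_le h1).le
    calc C1 + C2 = (C1 + C2) * (4 / ε) * (ε / 4) := by field_simp
      _ ≤ n * (ε / 4) := mul_le_mul_of_nonneg_right h2 (by positivity)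
      _ = ε / 4 * n := by ring
  rw [e1, e2]
  have e4 : (n : ℝ) * (a * q) ^ (r + 1) ≤ n * (ε / 4) := mul_le_mul_of_nonneg_left hpow hn'.le
  change C1 + n * (ε / 4) + n * (a * q) ^ (r + 1) + C2 ≤ ε * n
  nlinarith

end

end Pool.Agent.Helper42.BPX
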