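import Pool.Agent.Helper42.BPX.Zw
import Mathlib.Analysis.SpecialFunctions.Log.Basic
import Mathlib.Analysis.Complex.ExponentialBounds

/-!
# Few vertices of low degree, and short walks in the closure
-/

set_option autoImplicit false

namespace Pool.Agent.Helper42.BPX

open Finset

noncomputable section

open Classical

variable {n : ℕ}

/-- all vertices of a set have few neighbours outside -/
theorem Pr_low_all {a b : ℝ} {p : Sym2 (Fin n) → ℝ} (hp : PP n a b p) {Q U : Finset (Fin n)}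
    (hQU : Disjoint Q U) (D : ℕ) {ρ : ℝ}
    (hρ : Real.exp (-((1 - 1 / 2) * (b / n) * U.card)) / (1 / 2) ^ D ≤ ρ) :
    Pr p (prs n) (fun A => ∀ v ∈ Q, (nb A v ∩ U).card < D) ≤ ρ ^ Q.card := by
  have hv : ∀ v ∈ Q, v ∉ U := fun v h h' => (Finset.disjoint_left.1 hQU) h h'
  rw [Pr_indep_all (p := p) (S := prs n) Q (U := fun v => star v U)
    (fun v h => star_subset (hv v h)) ?_ (E := fun v A => (nb A v ∩ U).card < D) ?_]
  · rw [← Finset.prod_const]
    refine Finset.prod_le_prod (fun v _ => Pr_nonneg (fun e _ => hp.nn e)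
      (fun e _ => hp.le1 e) _) fun v h => ?_
    exact (Pr_deg_lt hp (hv v h) (by norm_num) (by norm_num) D).trans hρ
  · intro v h w h' hne
    rw [Finset.disjoint_left]
    intro e he he'
    obtain ⟨x, hx, rfl⟩ := mem_star.1 he
    obtain ⟨y, hy, hxy⟩ := mem_star.1 he'
    rw [Sym2.eq_iff] at hxy
    rcases hxy with ⟨h1, _⟩ | ⟨h1, _⟩
    · exact hne h1.symm
    · exact hv w h' (h1 ▸ hx)
  · intro v h A _
    rw [card_nb_inter (hv v h), card_nb_inter (hv v h), inter_assoc, inter_self]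

/-- few vertices of low degree outside `Γ` -/
theorem Pr_lowout {a b : ℝ} {p : Sym2 (Fin n) → ℝ} (hp : PP n a b p) (Γ : Finset (Fin n))
    (D l : ℕ) {ρ : ℝ}
    (hρ : ∀ U : Finset (Fin n), n - Γ.card - l ≤ U.card →
      Real.exp (-((1 - 1 / 2) * (b / n) * U.card)) / (1 / 2) ^ D ≤ ρ) :
    Pr p (prs n) (fun A => l ≤ (lowout A Γ D).card) ≤ 2 ^ n * ρ ^ l := by
  have h0 : ∀ e ∈ prs n, 0 ≤ p e := fun e _ => hp.nn e
  have h1 : ∀ e ∈ prs n, p e ≤ 1 := fun e _ => hp.le1 e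
  set K := (univ.powersetCard l).filter (fun Q : Finset (Fin n) => Disjoint Q Γ) with hK
  have hstep : ∀ A ⊆ prs n, l ≤ (lowout A Γ D).card →
      ∃ Q ∈ K, ∀ v ∈ Q, (nb A v ∩ (univ \ (Γ ∪ Q))).card < D := by
    intro A _ h
    obtain ⟨Q, hQ, hQc⟩ := exists_subset_card_eq h
    refine ⟨Q, mem_filter.2 ⟨mem_powersetCard.2 ⟨subset_univ _, hQc⟩, ?_⟩, fun v hv => ?_⟩
    · rw [Finset.disjoint_left]
      intro v hv
      exact (mem_filter.1 (hQ hv)).2.1
    · refine lt_of_le_of_lt (card_le_card ?_) (mem_filter.1 (hQ hv)).2.2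
      intro x hx
      simp only [mem_inter, mem_sdiff, mem_univ, mem_union, true_and, not_or] at hx ⊢
      exact ⟨hx.1, hx.2.1⟩
  refine (Pr_mono h0 h1 hstep).trans ?_
  refine (Pr_exists_le h0 h1 K _).trans ?_
  have hterm : ∀ Q ∈ K, Pr p (prs n) (fun A => ∀ v ∈ Q, (nb A v ∩ (univ \ (Γ ∪ Q))).card < D)
      ≤ ρ ^ l := by
    intro Q hQ
    have hQ' := mem_filter.1 hQ
    have hc := (mem_powersetCard.1 hQ'.1).2
    rw [← hc]
    refine Pr_low_all hp ?_ D (hρ _ ?_)
    · rw [Finset.disjoint_left]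
      intro v hv h
      exact (mem_sdiff.1 h).2 (mem_union_right _ hv)
    · rw [card_sdiff_of_subset (subset_univ _), card_univ, Fintype.card_fin]
      have := card_union_le Γ Q
      omega
  refine (Finset.sum_le_sum hterm).trans ?_
  rw [Finset.sum_const, nsmul_eq_mul]
  have hρ0 : 0 ≤ ρ := by
    refine le_trans ?_ (hρ univ (by simp; omega))
    positivity
  refine mul_le_mul_of_nonneg_right ?_ (by positivity)
  have hc : K.card ≤ 2 ^ n := by
    refine (card_le_card (filter_subset _ _)).trans ?_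
    rw [card_powersetCard, card_univ, Fintype.card_fin]
    exact Nat.choose_le_two_pow n l
  exact_mod_cast hc

/-- numbers: low degree -/
lemma num_low {d : ℝ} (hd : 1 ≤ d) {D n : ℕ} (hn : 0 < n) (hD : (D : ℝ) ≤ d / 2 + 1) {u : ℝ}
    (hu : 0.99 * n ≤ u) :
    Real.exp (-((1 - 1 / 2) * (0.99 * d / n) * u)) / (1 / 2) ^ D ≤ Real.exp (1 - d / 10) := by
  have hn' : (0 : ℝ) < n := by exact_mod_cast hn
  have h2 : ((1 : ℝ) / 2) ^ D = Real.exp (-(Real.log 2 * D)) := by
    rw [Real.exp_neg, Real.exp_mul, Real.exp_log (by norm_num), one_div, inv_pow,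
      Real.rpow_natCast]
  rw [h2, ← Real.exp_sub]
  apply Real.exp_le_exp.2
  have h3 := Real.log_two_lt_d9
  have h4 : Real.log 2 * D ≤ 0.6931471808 * (d / 2 + 1) :=
    mul_le_mul h3.le hD (by positivity) (by norm_num)
  have h5 : (1 - 1 / 2) * (0.99 * d / n) * u ≥ (1 - 1 / 2) * (0.99 * d / n) * (0.99 * n) :=
    mul_le_mul_of_nonneg_left hu (by positivity)
  have h6 : (1 - 1 / 2) * (0.99 * d / n) * (0.99 * n) = 0.49005 * d := by
    field_simp; norm_num
  rw [h6] at h5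
  linarith

/-- numbers: many neighbours in a small set -/
lemma num_high {d : ℝ} (hd : 1 ≤ d) {k n : ℕ} (hn : 0 < n) (hk : d / 40 ≤ (k : ℝ) + 1) {u : ℝ}
    (hu : u ≤ n / 500) :
    Real.exp ((1.01 * d / n) * u) / 2 ^ (k - 1) ≤ Real.exp (2 - 3 * d / 200) := by
  have hn' : (0 : ℝ) < n := by exact_mod_cast hn
  have h2 : (2 : ℝ) ^ (k - 1) = Real.exp (Real.log 2 * ((k - 1 : ℕ) : ℝ)) := by
    rw [Real.exp_mul, Real.exp_log (by norm_num), Real.rpow_natCast]
  rw [h2, ← Real.exp_sub]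
  apply Real.exp_le_exp.2
  have h3 := Real.log_two_lt_d9
  have h3' := Real.log_two_gt_d9
  have hk1 : (k : ℝ) - 1 ≤ ((k - 1 : ℕ) : ℝ) := by
    have : k ≤ (k - 1) + 1 := by omega
    have : (k : ℝ) ≤ ((k - 1 : ℕ) : ℝ) + 1 := by exact_mod_cast this
    linarith
  have h4 : Real.log 2 * ((k - 1 : ℕ) : ℝ) ≥ Real.log 2 * (d / 40 - 2) :=
    mul_le_mul_of_nonneg_left (by linarith) (by linarith)
  have h5 : (1.01 * d / n) * u ≤ (1.01 * d / n) * (n / 500) :=
    mul_le_mul_of_nonneg_left hu (by positivity)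
  have h6 : (1.01 * d / n) * (n / 500) = 0.00202 * d := by
    field_simp; norm_num
  rw [h6] at h5
  have h7 : Real.log 2 * (d / 40) ≥ 0.6931471803 * (d / 40) :=
    mul_le_mul_of_nonneg_right h3'.le (by positivity)
  nlinarith

/-- numbers: the product of the mean degree and the probability of a bad vertex -/
lemma num_q {d : ℝ} (hd : 1000000 ≤ d) :
    1.01 * d * (Real.exp (1 - d / 10) + Real.exp (2 - 3 * d / 200)) ≤ 1 / 2 := by
  have h1 : Real.exp (1 - d / 10) ≤ Real.exp (2 - 3 * d / 200) := Real.exp_le_exp.2 (by linarith)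
  have h2 : Real.exp (2 - 3 * d / 200) ≤ 1 / (d * 100) := by
    have h3 : d * 100 ≤ Real.exp (3 * d / 200 - 2) := by
      have h4 := Real.quadratic_le_exp_of_nonneg (x := 3 * d / 200 - 2) (by linarith)
      nlinarith
    rw [show 2 - 3 * d / 200 = -(3 * d / 200 - 2) by ring, Real.exp_neg, one_div]
    exact inv_anti₀ (by linarith) h3
  have h5 : 1.01 * d * (Real.exp (1 - d / 10) + Real.exp (2 - 3 * d / 200))
      ≤ 1.01 * d * (1 / (d * 100) + 1 / (d * 100)) :=
    mul_le_mul_of_nonneg_left (by linarith) (by linarith)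
  refine h5.trans ?_
  have : 0 < d := by linarith
  field_simp
  norm_num

/-- the probability that a vertex of a path is bad -/
lemma Pr_BJ_le {d : ℝ} (hd : 1 ≤ d) {p : Sym2 (Fin n) → ℝ} (hp : PP n (1.01 * d) (0.99 * d) p)
    {D k : ℕ} (hD : (D : ℝ) ≤ d / 2 + 1) (hk : d / 40 ≤ (k : ℝ) + 1) {Γ Y : Finset (Fin n)}
    (hΓ : 100 * Γ.card ≤ n) (hY : Disjoint Y Γ) (hYc : Y.card ≤ n / 500) {v : Fin n}
    (hv : v ∈ Γ) :
    Pr p (prs n) (fun A => BJ D k Γ Y A v)
      ≤ Real.exp (1 - d / 10) + Real.exp (2 - 3 * d / 200) := by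
  have h0 : ∀ e ∈ prs n, 0 ≤ p e := fun e _ => hp.nn e
  have h1 : ∀ e ∈ prs n, p e ≤ 1 := fun e _ => hp.le1 e
  have hn : 0 < n := lt_of_le_of_lt (Nat.zero_le _) v.2
  refine (Pr_or_le h0 h1 _ _).trans (add_le_add ?_ ?_)
  · refine (Pr_deg_lt hp (v := v) (U := univ \ Γ) (by simp [hv]) (u := 1 / 2) (by norm_num)
      (by norm_num) D).trans (num_low hd hn hD ?_)
    rw [card_sdiff_of_subset (subset_univ _), card_univ, Fintype.card_fin]
    have h3 : Γ.card ≤ n := by omega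
    rw [Nat.cast_sub h3]
    have h4 : (100 : ℝ) * Γ.card ≤ n := by exact_mod_cast hΓ
    linarith
  · have h3 : ∀ A ⊆ prs n, k ≤ (nb A v ∩ Y).card + 1 → k - 1 ≤ (nb A v ∩ Y).card :=
      fun A _ h => by omega
    refine (Pr_mono h0 h1 h3).trans ?_
    refine (Pr_deg_ge hp (v := v) (U := Y) (fun h => (Finset.disjoint_left.1 hY) h hv)
      (k - 1)).trans (num_high hd hn hk ?_)
    have h4 : (Y.card : ℝ) ≤ ((n / 500 : ℕ) : ℝ) := by exact_mod_cast hYc
    exact h4.trans (by have := @Nat.cast_div_le ℝ _ _ _ n 500; simpa using this)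

end

end Pool.Agent.Helper42.BPX
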