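import Pool.Agent.Helper42.BPX.Det2

/-!
# Degrees in random graphs with independent edges
-/

set_option autoImplicit false

namespace Pool.Agent.Helper42.BPX

open Finset Pool.Agent.Helper87.BP

noncomputable section

open Classical

variable {n : ℕ}

/-- pairs of distinct vertices -/
def prs (n : ℕ) : Finset (Sym2 (Fin n)) := univ.filter (fun e => ¬ e.IsDiag)

lemma mem_prs {i j : Fin n} : s(i, j) ∈ prs n ↔ i ≠ j := by simp [prs]

/-- edge probabilities between `b / n` and `a / n` -/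
structure PP (n : ℕ) (a b : ℝ) (p : Sym2 (Fin n) → ℝ) : Prop where
  nn : ∀ e, 0 ≤ p e
  le1 : ∀ e, p e ≤ 1
  up : ∀ e, p e ≤ a / n
  lo : ∀ e, b / n ≤ p e

/-- pairs from `v` to `U` -/
def star (v : Fin n) (U : Finset (Fin n)) : Finset (Sym2 (Fin n)) := U.image (fun x => s(v, x))

lemma mem_star {v : Fin n} {U : Finset (Fin n)} {e : Sym2 (Fin n)} :
    e ∈ star v U ↔ ∃ x ∈ U, s(v, x) = e := by simp [star]

lemma star_inj (v : Fin n) : Function.Injective (fun x : Fin n => s(v, x)) := by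
  intro x y h
  simp only [Sym2.eq_iff] at h
  rcases h with ⟨_, h⟩ | ⟨h1, h2⟩
  · exact h
  · rw [h2, h1]

lemma card_star (v : Fin n) (U : Finset (Fin n)) : (star v U).card = U.card :=
  card_image_of_injective _ (star_inj v)

lemma star_subset {v : Fin n} {U : Finset (Fin n)} (hv : v ∉ U) : star v U ⊆ prs n := by
  intro e he
  obtain ⟨x, hx, rfl⟩ := mem_star.1 he
  exact mem_prs.2 (fun h => hv (h ▸ hx))

lemma card_nb_inter {A : Finset (Sym2 (Fin n))} {v : Fin n} {U : Finset (Fin n)} (hv : v ∉ U) :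
    (nb A v ∩ U).card = (A ∩ star v U).card := by
  have : A ∩ star v U = (nb A v ∩ U).image (fun x => s(v, x)) := by
    ext e
    simp only [mem_inter, mem_image, mem_star, mem_nb]
    constructor
    · rintro ⟨h, x, hx, rfl⟩
      exact ⟨x, ⟨⟨fun h' => hv (h' ▸ hx), h⟩, hx⟩, rfl⟩
    · rintro ⟨x, ⟨h, hx⟩, rfl⟩
      exact ⟨h.2, x, hx, rfl⟩
  rw [this, card_image_of_injective _ (star_inj v)]

section general

variable {ι : Type*} [DecidableEq ι]

lemma EE_pow_self (p : ι → ℝ) (T : Finset ι) (u : ℝ) :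
    EE p T (fun A => u ^ A.card) = ∏ x ∈ T, (1 + (u - 1) * p x) := by
  have : ∀ x ∈ T, 1 + (u - 1) * p x = p x * u + (1 - p x) := fun x _ => by ring
  rw [Finset.prod_congr rfl this, Finset.prod_add]
  unfold EE wt
  refine Finset.sum_congr rfl fun A _ => ?_
  rw [Finset.prod_mul_distrib, Finset.prod_const]
  ring

lemma EE_pow (p : ι → ℝ) {S T : Finset ι} (hT : T ⊆ S) (u : ℝ) :
    EE p S (fun A => u ^ (A ∩ T).card) = ∏ x ∈ T, (1 + (u - 1) * p x) := by
  rw [EE_restrict (F := fun A => u ^ (A ∩ T).card) hT (fun A _ => by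
    rw [inter_assoc, inter_self]), ← EE_pow_self]
  refine EE_congr fun A hA => ?_
  rw [inter_eq_left.2 hA]

end general

/-- generating function of the number of neighbours of `v` in `U` -/
lemma EE_deg (p : Sym2 (Fin n) → ℝ) {v : Fin n} {U : Finset (Fin n)} (hv : v ∉ U) (u : ℝ) :
    EE p (prs n) (fun A => u ^ (nb A v ∩ U).card) = ∏ e ∈ star v U, (1 + (u - 1) * p e) := by
  rw [← EE_pow p (star_subset hv)]
  exact EE_congr fun A _ => by rw [card_nb_inter hv]

lemma EE_deg_le {a b : ℝ} {p : Sym2 (Fin n) → ℝ} (hp : PP n a b p) {v : Fin n}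
    {U : Finset (Fin n)} (hv : v ∉ U) {u : ℝ} (hu : 1 ≤ u) :
    EE p (prs n) (fun A => u ^ (nb A v ∩ U).card)
      ≤ Real.exp ((u - 1) * (a / n) * U.card) := by
  rw [EE_deg p hv]
  calc ∏ e ∈ star v U, (1 + (u - 1) * p e)
      ≤ ∏ _e ∈ star v U, Real.exp ((u - 1) * (a / n)) := by
        refine Finset.prod_le_prod (fun e _ => ?_) (fun e _ => ?_)
        · have := mul_nonneg (sub_nonneg.2 hu) (hp.nn e); linarith
        · have h1 := Real.add_one_le_exp ((u - 1) * p e)
          have h2 : (u - 1) * p e ≤ (u - 1) * (a / n) :=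
            mul_le_mul_of_nonneg_left (hp.up e) (sub_nonneg.2 hu)
          have h3 := Real.exp_le_exp.2 h2
          linarith
    _ = _ := by
        rw [Finset.prod_const, card_star, ← Real.exp_nat_mul]
        congr 1; ring

lemma EE_deg_le' {a b : ℝ} {p : Sym2 (Fin n) → ℝ} (hp : PP n a b p) {v : Fin n}
    {U : Finset (Fin n)} (hv : v ∉ U) {u : ℝ} (hu0 : 0 ≤ u) (hu : u ≤ 1) :
    EE p (prs n) (fun A => u ^ (nb A v ∩ U).card)
      ≤ Real.exp (-((1 - u) * (b / n) * U.card)) := by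
  rw [EE_deg p hv]
  calc ∏ e ∈ star v U, (1 + (u - 1) * p e)
      ≤ ∏ _e ∈ star v U, Real.exp (-((1 - u) * (b / n))) := by
        refine Finset.prod_le_prod (fun e _ => ?_) (fun e _ => ?_)
        · have h1 : (1 - u) * p e ≤ 1 * 1 :=
            mul_le_mul (by linarith) (hp.le1 e) (hp.nn e) zero_le_one
          linarith
        · have h1 := Real.add_one_le_exp ((u - 1) * p e)
          have h2 : (1 - u) * (b / n) ≤ (1 - u) * p e :=
            mul_le_mul_of_nonneg_left (hp.lo e) (sub_nonneg.2 hu)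
          have h3 : Real.exp ((u - 1) * p e) ≤ Real.exp (-((1 - u) * (b / n))) :=
            Real.exp_le_exp.2 (by linarith)
          linarith
    _ = _ := by
        rw [Finset.prod_const, card_star, ← Real.exp_nat_mul]
        congr 1; ring

/-- few edges at a vertex: upper bound for the lower tail -/
lemma Pr_deg_lt {a b : ℝ} {p : Sym2 (Fin n) → ℝ} (hp : PP n a b p) {v : Fin n}
    {U : Finset (Fin n)} (hv : v ∉ U) {u : ℝ} (hu0 : 0 < u) (hu : u ≤ 1) (D : ℕ) :
    Pr p (prs n) (fun A => (nb A v ∩ U).card < D)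
      ≤ Real.exp (-((1 - u) * (b / n) * U.card)) / u ^ D := by
  have h1 : ∀ A ⊆ prs n, (nb A v ∩ U).card < D → u ^ D ≤ u ^ (nb A v ∩ U).card := fun A _ h =>
    pow_le_pow_of_le_one hu0.le hu h.le
  refine (Pr_mono (fun e _ => hp.nn e) (fun e _ => hp.le1 e) h1).trans ?_
  refine (Pr_ge_le (fun e _ => hp.nn e) (fun e _ => hp.le1 e)
    (F := fun A => u ^ (nb A v ∩ U).card) (fun A _ => by positivity) (by positivity)).trans ?_
  exact div_le_div_of_nonneg_right (EE_deg_le' hp hv hu0.le hu) (by positivity)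

/-- many edges at a vertex -/
lemma Pr_deg_ge {a b : ℝ} {p : Sym2 (Fin n) → ℝ} (hp : PP n a b p) {v : Fin n}
    {U : Finset (Fin n)} (hv : v ∉ U) (k : ℕ) :
    Pr p (prs n) (fun A => k ≤ (nb A v ∩ U).card)
      ≤ Real.exp ((a / n) * U.card) / 2 ^ k := by
  have h1 : ∀ A ⊆ prs n, k ≤ (nb A v ∩ U).card → (2 : ℝ) ^ k ≤ 2 ^ (nb A v ∩ U).card :=
    fun A _ h => pow_le_pow_right₀ (by norm_num) h
  refine (Pr_mono (fun e _ => hp.nn e) (fun e _ => hp.le1 e) h1).trans ?_
  refine (Pr_ge_le (fun e _ => hp.nn e) (fun e _ => hp.le1 e)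
    (F := fun A => (2 : ℝ) ^ (nb A v ∩ U).card) (fun A _ => by positivity)
    (by positivity)).trans ?_
  refine div_le_div_of_nonneg_right ((EE_deg_le hp hv (by norm_num)).trans ?_) (by positivity)
  rw [show (2 : ℝ) - 1 = 1 by norm_num, one_mul]

/-- the sum of the large degrees -/
theorem EE_hd {a b : ℝ} {p : Sym2 (Fin n) → ℝ} (hp : PP n a b p) (hn : 0 < n) (Δ : ℕ) :
    EE p (prs n) (fun A => (hd A Δ : ℝ)) ≤ n * (Real.exp (3 * a) / 2 ^ Δ) := by
  have ha : 0 ≤ a := by
    have h1 := (hp.nn s(⟨0, hn⟩, ⟨0, hn⟩)).trans (hp.up s(⟨0, hn⟩, ⟨0, hn⟩))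
    have h2 : (0 : ℝ) < n := by exact_mod_cast hn
    by_contra h
    exact absurd h1 (not_le.2 (div_neg_of_neg_of_pos (not_le.1 h) h2))
  have h1 : ∀ A ⊆ prs n, (hd A Δ : ℝ)
      ≤ ∑ i : Fin n, (1 / 2 ^ Δ) * (4 : ℝ) ^ (nb A i ∩ univ.erase i).card := by
    intro A _
    unfold hd
    push_cast
    refine (Finset.sum_le_sum_of_subset_of_nonneg (filter_subset _ _)
      (fun i _ _ => ?_)).trans' (Finset.sum_le_sum (g := fun i =>
        (1 / 2 ^ Δ) * (4 : ℝ) ^ (nb A i ∩ univ.erase i).card) fun i hi => ?_)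
    · positivity
    · have e : nb A i ∩ univ.erase i = nb A i := by
        rw [inter_eq_left]
        intro j hj
        exact mem_erase.2 ⟨(mem_nb.1 hj).1.symm, mem_univ _⟩
      rw [e]
      set g := (nb A i).card with hg
      have hlt : Δ < g := (mem_filter.1 hi).2
      have h2 : (g : ℝ) ≤ 2 ^ g := by exact_mod_cast Nat.lt_two_pow_self.le
      have h3 : (2 : ℝ) ^ Δ ≤ 2 ^ g := pow_le_pow_right₀ (by norm_num) hlt.le
      rw [div_mul_eq_mul_div, one_mul, le_div_iff₀ (by positivity)]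
      calc (g : ℝ) * 2 ^ Δ ≤ 2 ^ g * 2 ^ g := mul_le_mul h2 h3 (by positivity) (by positivity)
        _ = 4 ^ g := by rw [← mul_pow]; norm_num
  refine (EE_mono (fun e _ => hp.nn e) (fun e _ => hp.le1 e) h1).trans ?_
  rw [EE_sum]
  have h4 : ∀ i ∈ (univ : Finset (Fin n)),
      EE p (prs n) (fun A => (1 / 2 ^ Δ) * (4 : ℝ) ^ (nb A i ∩ univ.erase i).card)
        ≤ Real.exp (3 * a) / 2 ^ Δ := by
    intro i _
    rw [EE_mul]
    have h5 := EE_deg_le hp (v := i) (U := univ.erase i) (notMem_erase _ _) (u := 4)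
      (by norm_num)
    have h6 : (4 - 1 : ℝ) * (a / n) * (univ.erase i : Finset (Fin n)).card ≤ 3 * a := by
      have h7 : ((univ.erase i : Finset (Fin n)).card : ℝ) ≤ n := by
        have := card_erase_le (s := (univ : Finset (Fin n))) (a := i)
        rw [card_univ, Fintype.card_fin] at this
        exact_mod_cast this
      have h8 : (0 : ℝ) < n := by exact_mod_cast hn
      calc (4 - 1 : ℝ) * (a / n) * (univ.erase i : Finset (Fin n)).card
          ≤ (4 - 1 : ℝ) * (a / n) * n := mul_le_mul_of_nonneg_left h7 (by positivity)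
        _ = 3 * a := by field_simp; ring
    have h9 := h5.trans (Real.exp_le_exp.2 h6)
    rw [div_mul_eq_mul_div, one_mul]
    exact div_le_div_of_nonneg_right h9 (by positivity)
  refine (Finset.sum_le_sum h4).trans ?_
  rw [Finset.sum_const, card_univ, Fintype.card_fin, nsmul_eq_mul]

end

end Pool.Agent.Helper42.BPX
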