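import Pool.Agent.Helper42.BPX.Clo

/-!
# Self-avoiding paths in the closure of the vertices of low degree
-/

set_option autoImplicit false

namespace Pool.Agent.Helper42.BPX

open Finset

noncomputable section

open Classical

variable {n r : ℕ}

/-- edges of a path -/
def pathE (w : Fin (r + 2) → Fin n) : Finset (Sym2 (Fin n)) :=
  univ.image (fun j : Fin (r + 1) => s(w j.castSucc, w j.succ))

/-- vertices of a path -/
def pathV (w : Fin (r + 2) → Fin n) : Finset (Fin n) := univ.image w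

lemma mem_pathV (w : Fin (r + 2) → Fin n) (j : Fin (r + 2)) : w j ∈ pathV w := by simp [pathV]

lemma card_pathV_le (w : Fin (r + 2) → Fin n) : (pathV w).card ≤ r + 2 := by
  have := card_image_le (s := (univ : Finset (Fin (r + 2)))) (f := w)
  rwa [card_univ, Fintype.card_fin] at this

lemma card_pathE {w : Fin (r + 2) → Fin n} (hw : Function.Injective w) :
    (pathE w).card = r + 1 := by
  unfold pathE
  rw [card_image_of_injective, card_univ, Fintype.card_fin]
  intro i j h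
  simp only [Sym2.eq_iff] at h
  rcases h with ⟨h, _⟩ | ⟨h1, h2⟩
  · exact Fin.castSucc_injective _ (hw h)
  · have e1 := hw h1
    have e2 := hw h2
    have f1 := congrArg Fin.val e1
    have f2 := congrArg Fin.val e2
    simp only [Fin.val_castSucc, Fin.val_succ] at f1 f2
    omega

lemma pathE_subset {w : Fin (r + 2) → Fin n} (hw : Function.Injective w) : pathE w ⊆ prs n := by
  intro e he
  simp only [pathE, mem_image, mem_univ, true_and] at he
  obtain ⟨j, rfl⟩ := he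
  refine mem_prs.2 fun h => ?_
  have := congrArg Fin.val (hw h)
  simp at this

/-- pairs inside `Γ` -/
def inp (Γ : Finset (Fin n)) : Finset (Sym2 (Fin n)) := (prs n).filter (fun e => ∀ x ∈ e, x ∈ Γ)

lemma mem_inp {Γ : Finset (Fin n)} {i j : Fin n} :
    s(i, j) ∈ inp Γ ↔ i ≠ j ∧ i ∈ Γ ∧ j ∈ Γ := by
  simp only [inp, mem_filter, mem_prs, Sym2.mem_iff]
  constructor
  · rintro ⟨h, h'⟩
    exact ⟨h, h' i (Or.inl rfl), h' j (Or.inr rfl)⟩
  · rintro ⟨h, h1, h2⟩
    refine ⟨h, ?_⟩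
    rintro x (rfl | rfl)
    · exact h1
    · exact h2

lemma pathE_inp {w : Fin (r + 2) → Fin n} (hw : Function.Injective w) :
    pathE w ⊆ inp (pathV w) := by
  intro e he
  have h1 := pathE_subset hw he
  simp only [pathE, mem_image, mem_univ, true_and] at he
  obtain ⟨j, rfl⟩ := he
  exact mem_inp.2 ⟨mem_prs.1 h1, mem_pathV _ _, mem_pathV _ _⟩

lemma card_inp_le (Γ : Finset (Fin n)) : (inp Γ).card ≤ Γ.card ^ 2 := by
  have h : inp Γ ⊆ (Γ ×ˢ Γ).image (fun x => s(x.1, x.2)) := by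
    intro e
    induction e using Sym2.ind with
    | _ i j =>
      intro he
      have := mem_inp.1 he
      exact mem_image.2 ⟨(i, j), mem_product.2 ⟨this.2.1, this.2.2⟩, rfl⟩
  refine (card_le_card h).trans (card_image_le.trans ?_)
  rw [card_product, pow_two]

lemma outp_subset (Γ : Finset (Fin n)) : outp Γ ⊆ prs n := filter_subset _ _

lemma inp_subset (Γ : Finset (Fin n)) : inp Γ ⊆ prs n := filter_subset _ _

lemma inp_disj_outp (Γ : Finset (Fin n)) : Disjoint (inp Γ) (outp Γ) := by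
  rw [disjoint_left]
  intro e
  induction e using Sym2.ind with
  | _ i j =>
    intro h h'
    exact (mem_outp.1 h').2.1 (mem_inp.1 h).2.1

lemma star_disj_inp {Γ U : Finset (Fin n)} (v : Fin n) (hU : Disjoint U Γ) :
    Disjoint (star v U) (inp Γ) := by
  rw [disjoint_left]
  intro e he he'
  obtain ⟨x, hx, rfl⟩ := mem_star.1 he
  exact disjoint_left.1 hU hx (mem_inp.1 he').2.2

lemma star_disj_outp {Γ U : Finset (Fin n)} {v : Fin n} (hv : v ∈ Γ) :
    Disjoint (star v U) (outp Γ) := by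
  rw [disjoint_left]
  intro e he he'
  obtain ⟨x, _, rfl⟩ := mem_star.1 he
  exact (mem_outp.1 he').2.1 hv

lemma star_disj_star {U : Finset (Fin n)} {v v' : Fin n} (hne : v ≠ v') (hv : v ∉ U) :
    Disjoint (star v U) (star v' U) := by
  rw [disjoint_left]
  intro e he he'
  obtain ⟨x, hx, rfl⟩ := mem_star.1 he
  obtain ⟨y, hy, h⟩ := mem_star.1 he'
  rw [Sym2.eq_iff] at h
  rcases h with ⟨h, _⟩ | ⟨_, h⟩
  · exact hne h.symm
  · exact hv (h ▸ hy)

/-- the events at the vertices of the path, for a fixed set `Y` outside -/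
def BJ (D k : ℕ) (Γ Y : Finset (Fin n)) (A : Finset (Sym2 (Fin n))) (v : Fin n) : Prop :=
  (nb A v ∩ (univ \ Γ)).card < D ∨ k ≤ (nb A v ∩ Y).card + 1

lemma nb_inter_star {A T : Finset (Sym2 (Fin n))} {v : Fin n} {U : Finset (Fin n)}
    (hT : star v U ⊆ T) : nb (A ∩ T) v ∩ U = nb A v ∩ U := by
  ext x
  simp only [mem_inter, mem_nb, Adj]
  constructor
  · rintro ⟨⟨h, h', _⟩, hx⟩
    exact ⟨⟨h, h'⟩, hx⟩
  · rintro ⟨⟨h, h'⟩, hx⟩
    exact ⟨⟨h, h', hT (mem_star.2 ⟨x, hx, rfl⟩)⟩, hx⟩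

lemma star_mono (v : Fin n) {U U' : Finset (Fin n)} (h : U ⊆ U') : star v U ⊆ star v U' :=
  image_subset_image h

lemma BJ_inter {D k : ℕ} {Γ Y : Finset (Fin n)} {A T : Finset (Sym2 (Fin n))} {v : Fin n}
    (hT : star v (univ \ Γ) ⊆ T) (hY : Disjoint Y Γ) : BJ D k Γ Y (A ∩ T) v ↔ BJ D k Γ Y A v := by
  unfold BJ
  have hY' : Y ⊆ univ \ Γ := fun x hx => mem_sdiff.2 ⟨mem_univ _, disjoint_left.1 hY hx⟩
  rw [nb_inter_star hT, nb_inter_star ((star_mono v hY').trans hT)]

/-- probability of the events at the vertices of a path, for a fixed set outside -/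
theorem Pr_path_BJ {a b : ℝ} {p : Sym2 (Fin n) → ℝ} (hp : PP n a b p)
    {w : Fin (r + 2) → Fin n} (hw : Function.Injective w) {D k : ℕ} {Y : Finset (Fin n)}
    (hY : Disjoint Y (pathV w)) {q : ℝ}
    (hq : ∀ v ∈ pathV w, Pr p (prs n) (fun A => BJ D k (pathV w) Y A v) ≤ q) :
    Pr p (prs n) (fun A => pathE w ⊆ A ∧ ∀ j : Fin (r + 1), BJ D k (pathV w) Y A (w j.succ))
      ≤ (a / n) ^ (r + 1) * q ^ (r + 1) := by
  set Γ := pathV w with hΓ
  set U := (univ \ Γ : Finset (Fin n)) with hU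
  have hUΓ : Disjoint U Γ := by
    rw [disjoint_left]
    intro x hx
    exact (mem_sdiff.1 hx).2
  have hvU : ∀ v ∈ Γ, v ∉ U := fun v hv h => (mem_sdiff.1 h).2 hv
  have h0 : ∀ e ∈ prs n, 0 ≤ p e := fun e _ => hp.nn e
  have h1 : ∀ e ∈ prs n, p e ≤ 1 := fun e _ => hp.le1 e
  have hsub : ∀ j : Fin (r + 1), star (w j.succ) U ⊆ prs n := fun j =>
    star_subset (hvU _ (mem_pathV w _))
  have hall : Pr p (prs n) (fun A => ∀ j : Fin (r + 1), BJ D k Γ Y A (w j.succ))
      = ∏ j : Fin (r + 1), Pr p (prs n) (fun A => BJ D k Γ Y A (w j.succ)) := by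
    have := Pr_indep_all (p := p) (S := prs n) (univ : Finset (Fin (r + 1)))
      (U := fun j => star (w j.succ) U) (E := fun j A => BJ D k Γ Y A (w j.succ))
      (fun j _ => hsub j) (fun i _ j _ hij => star_disj_star
        (fun h => hij (Fin.succ_injective _ (hw h))) (hvU _ (mem_pathV w _)))
      (fun j _ A _ => (BJ_inter Subset.rfl hY).symm)
    simpa using this
  have hind : Pr p (prs n) (fun A => pathE w ⊆ A ∧ ∀ j : Fin (r + 1), BJ D k Γ Y A (w j.succ))
      = Pr p (prs n) (fun A => pathE w ⊆ A)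
        * Pr p (prs n) (fun A => ∀ j : Fin (r + 1), BJ D k Γ Y A (w j.succ)) := by
    refine Pr_indep (T₁ := pathE w)
      (T₂ := (univ : Finset (Fin (r + 1))).biUnion (fun j => star (w j.succ) U))
      (pathE_subset hw) (biUnion_subset.2 fun j _ => hsub j) ?_ ?_ ?_
    · rw [disjoint_biUnion_right]
      intro j _
      exact (star_disj_inp _ hUΓ).symm.mono_left (pathE_inp hw)
    · intro A _
      rw [subset_inter_iff]
      simp
    · intro A _
      refine forall_congr' fun j => (BJ_inter ?_ hY).symm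
      exact subset_biUnion_of_mem (fun j => star (w j.succ) U) (mem_univ j)
  rw [hind, hall]
  refine mul_le_mul ?_ ?_ (Finset.prod_nonneg fun j _ => Pr_nonneg h0 h1 _) ?_
  · have := Pr_subset_le (p := p) (S := prs n) h0 (fun e _ => hp.up e) (pathE_subset hw)
    rwa [card_pathE hw] at this
  · calc ∏ j : Fin (r + 1), Pr p (prs n) (fun A => BJ D k Γ Y A (w j.succ))
        ≤ ∏ _j : Fin (r + 1), q := Finset.prod_le_prod (fun j _ => Pr_nonneg h0 h1 _)
          (fun j _ => hq _ (mem_pathV w _))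
      _ = q ^ (r + 1) := by rw [prod_const, card_univ, Fintype.card_fin]
  · refine pow_nonneg ?_ _
    exact (hp.nn s(w 0, w 0)).trans (hp.up s(w 0, w 0))

/-- something unlikely happens outside the path -/
def BadOut (D k m l : ℕ) (w : Fin (r + 2) → Fin n) (A : Finset (Sym2 (Fin n))) : Prop :=
  (∃ u, u ∉ pathV w ∧ 2 ≤ (nb A u ∩ pathV w).card) ∨ (∃ e ∈ inp (pathV w), e ∉ pathE w ∧ e ∈ A) ∨
    ¬ Expd (A ∩ outp (pathV w)) m k ∨ l ≤ (lowout A (pathV w) D).card

/-- a self-avoiding path in the closure -/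
def PathIn (D k : ℕ) (w : Fin (r + 2) → Fin n) (A : Finset (Sym2 (Fin n))) : Prop :=
  pathE w ⊆ A ∧ ∀ j : Fin (r + 1), w j.succ ∈ cl A D (k + 1)

lemma nb_path_le {w : Fin (r + 2) → Fin n} (hw : Function.Injective w)
    {A : Finset (Sym2 (Fin n))} (hc : ∀ e ∈ inp (pathV w), e ∉ pathE w → e ∉ A)
    (j : Fin (r + 2)) : (nb A (w j) ∩ pathV w).card ≤ 2 := by
  have h : nb A (w j) ∩ pathV w ⊆ (univ.filter (fun i : Fin (r + 2) =>
      (i : ℕ) + 1 = j ∨ (i : ℕ) = j + 1)).image w := by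
    intro x hx
    rw [mem_inter, mem_nb] at hx
    obtain ⟨⟨hne, hA⟩, hxV⟩ := hx
    have he : s(w j, x) ∈ pathE w := by
      by_contra h
      exact hc _ (mem_inp.2 ⟨hne, mem_pathV w j, hxV⟩) h hA
    simp only [pathE, mem_image, mem_univ, true_and] at he
    obtain ⟨i, hi⟩ := he
    rw [Sym2.eq_iff] at hi
    rcases hi with ⟨h1, h2⟩ | ⟨h1, h2⟩
    · refine mem_image.2 ⟨i.succ, mem_filter.2 ⟨mem_univ _, Or.inr ?_⟩, h2⟩
      have := congrArg Fin.val (hw h1)
      simp at this ⊢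
      omega
    · refine mem_image.2 ⟨i.castSucc, mem_filter.2 ⟨mem_univ _, Or.inl ?_⟩, h1⟩
      have := congrArg Fin.val (hw h2)
      simp at this ⊢
      omega
  refine (card_le_card h).trans (card_image_le.trans ?_)
  by_contra hcon
  push Not at hcon
  obtain ⟨x, hx, y, hy, z, hz, hxy, hxz, hyz⟩ := Finset.two_lt_card.1 hcon
  simp only [mem_filter, mem_univ, true_and] at hx hy hz
  have e1 : (x : ℕ) ≠ y := fun h => hxy (Fin.ext h)
  have e2 : (x : ℕ) ≠ z := fun h => hxz (Fin.ext h)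
  have e3 : (y : ℕ) ≠ z := fun h => hyz (Fin.ext h)
  omega

/-- splitting the event -/
theorem pathIn_imp {w : Fin (r + 2) → Fin n} (hw : Function.Injective w) {D k m l : ℕ}
    {A : Finset (Sym2 (Fin n))} (h : PathIn D k w A) :
    (pathE w ⊆ A ∧ BadOut D k m l w A) ∨
      ((Expd (A ∩ outp (pathV w)) m k ∧ (lowout A (pathV w) D).card < l) ∧ pathE w ⊆ A ∧
        ∀ j : Fin (r + 1), BJ D k (pathV w) (cloout A (pathV w) D k) A (w j.succ)) := by
  by_cases hb : BadOut D k m l w A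
  · exact Or.inl ⟨h.1, hb⟩
  · right
    unfold BadOut at hb
    push Not at hb
    obtain ⟨hb1, hb2, hb3, hb4⟩ := hb
    refine ⟨⟨hb3, hb4⟩, h.1, fun j => ?_⟩
    have h1 : ∀ u, u ∉ pathV w → (nb A u ∩ pathV w).card ≤ 1 := fun u hu => by
      have := hb1 u hu; omega
    have h2 := nb_path_le hw hb2 j.succ
    rcases mem_cl_out h1 (h.2 j) h2 with h3 | h3
    · left
      have : nb A (w j.succ) ∩ (univ \ pathV w) = nb A (w j.succ) \ pathV w := by
        ext x; simp
      rw [this]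
      exact h3
    · right
      omega

/-- the event outside the path does not depend on the edges of the path -/
theorem Pr_path_badOut {a b : ℝ} {p : Sym2 (Fin n) → ℝ} (hp : PP n a b p)
    {w : Fin (r + 2) → Fin n} (hw : Function.Injective w) {D k m l : ℕ} {δ₁ δ₂ : ℝ}
    (h₁ : Pr p (prs n) (fun A => ¬ Expd A m k) ≤ δ₁)
    (h₂ : Pr p (prs n) (fun A => l ≤ (lowout A (pathV w) D).card) ≤ δ₂) :
    Pr p (prs n) (fun A => pathE w ⊆ A ∧ BadOut D k m l w A)
      ≤ (a / n) ^ (r + 1) * ((r + 2) ^ 2 * a ^ 2 / n + ((r + 2) ^ 2 * a / n + (δ₁ + δ₂))) := by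
  have h0 : ∀ e ∈ prs n, 0 ≤ p e := fun e _ => hp.nn e
  have h1 : ∀ e ∈ prs n, p e ≤ 1 := fun e _ => hp.le1 e
  set Γ := pathV w with hΓ
  have hn : (0 : ℝ) < n := by
    have : 0 < n := (w 0).pos
    exact_mod_cast this
  have han : 0 ≤ a / n := (hp.nn s(w 0, w 0)).trans (hp.up s(w 0, w 0))
  have ha : 0 ≤ a := by
    by_contra h
    exact absurd han (not_le.2 (div_neg_of_neg_of_pos (not_le.1 h) hn))
  have hind : Pr p (prs n) (fun A => pathE w ⊆ A ∧ BadOut D k m l w A)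
      = Pr p (prs n) (fun A => pathE w ⊆ A) * Pr p (prs n) (fun A => BadOut D k m l w A) := by
    refine Pr_indep (T₁ := pathE w) (T₂ := prs n \ pathE w) (pathE_subset hw) sdiff_subset
      disjoint_sdiff (fun A _ => by rw [subset_inter_iff]; simp) (fun A hA => ?_)
    have hout : A ∩ (prs n \ pathE w) ∩ outp Γ = A ∩ outp Γ := by
      ext e
      simp only [mem_inter, mem_sdiff]
      constructor
      · rintro ⟨⟨h, _⟩, h'⟩
        exact ⟨h, h'⟩
      · rintro ⟨h, h'⟩
        refine ⟨⟨h, hA h, fun he => ?_⟩, h'⟩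
        exact disjoint_left.1 (inp_disj_outp Γ) (pathE_inp hw he) h'
    have hlow : lowout (A ∩ (prs n \ pathE w)) Γ D = lowout A Γ D := by
      rw [← lowout_inter, hout, lowout_inter]
    have hmid : ∀ u, u ∉ Γ → nb (A ∩ (prs n \ pathE w)) u ∩ Γ = nb A u ∩ Γ := by
      intro u hu
      refine nb_inter_star ?_
      intro e he
      refine mem_sdiff.2 ⟨star_subset hu he, fun h => ?_⟩
      obtain ⟨x, hx, rfl⟩ := mem_star.1 he
      exact hu (mem_inp.1 (pathE_inp hw h)).2.1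
    unfold BadOut
    rw [← hΓ, hout, hlow]
    refine or_congr ?_ (or_congr ?_ Iff.rfl)
    · refine exists_congr fun u => and_congr_right fun hu => ?_
      rw [hmid u hu]
    · refine exists_congr fun e => and_congr_right fun he => and_congr_right fun he' => ?_
      simp only [mem_inter, mem_sdiff]
      exact ⟨fun h => ⟨h, hA h, he'⟩, fun h => h.1⟩
  rw [hind]
  have hpath := Pr_subset_le (p := p) (S := prs n) h0 (fun e _ => hp.up e) (pathE_subset hw)
  rw [card_pathE hw] at hpath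
  refine mul_le_mul hpath ?_ (Pr_nonneg h0 h1 _) (pow_nonneg han _)
  have hcardΓ : (Γ.card : ℝ) ≤ r + 2 := by exact_mod_cast card_pathV_le w
  have hcardΓ2 : (Γ.card : ℝ) ^ 2 ≤ (r + 2) ^ 2 := by
    exact pow_le_pow_left₀ (by positivity) hcardΓ 2
  -- first event
  have e1 : Pr p (prs n) (fun A => ∃ u, u ∉ Γ ∧ 2 ≤ (nb A u ∩ Γ).card)
      ≤ (r + 2) ^ 2 * a ^ 2 / n := by
    have hsub : ∀ A ⊆ prs n, (∃ u, u ∉ Γ ∧ 2 ≤ (nb A u ∩ Γ).card) →
        ∃ x ∈ (univ \ Γ : Finset (Fin n)) ×ˢ Γ.offDiag,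
          ({s(x.1, x.2.1), s(x.1, x.2.2)} : Finset (Sym2 (Fin n))) ⊆ A := by
      rintro A _ ⟨u, hu, h2⟩
      obtain ⟨x, hx, y, hy, hxy⟩ := Finset.one_lt_card.1 (show 1 < (nb A u ∩ Γ).card by omega)
      rw [mem_inter, mem_nb] at hx hy
      refine ⟨(u, (x, y)), mem_product.2 ⟨mem_sdiff.2 ⟨mem_univ _, hu⟩,
        mem_offDiag.2 ⟨hx.2, hy.2, hxy⟩⟩, ?_⟩
      intro e he
      rw [mem_insert, mem_singleton] at he
      rcases he with rfl | rfl
      · exact hx.1.2
      · exact hy.1.2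
    refine (Pr_mono h0 h1 hsub).trans ((Pr_exists_le h0 h1 _ _).trans ?_)
    have hterm : ∀ x ∈ (univ \ Γ : Finset (Fin n)) ×ˢ Γ.offDiag,
        Pr p (prs n) (fun A => ({s(x.1, x.2.1), s(x.1, x.2.2)} : Finset (Sym2 (Fin n))) ⊆ A)
          ≤ (a / n) ^ 2 := by
      rintro ⟨u, x, y⟩ hx
      rw [mem_product, mem_sdiff, mem_offDiag] at hx
      obtain ⟨⟨_, hu⟩, hx1, hy1, hxy⟩ := hx
      dsimp only at hu hx1 hy1 hxy ⊢
      have hsub2 : ({s(u, x), s(u, y)} : Finset (Sym2 (Fin n))) ⊆ prs n := by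
        intro e he
        rw [mem_insert, mem_singleton] at he
        rcases he with rfl | rfl
        · exact mem_prs.2 (fun h => hu (h ▸ hx1))
        · exact mem_prs.2 (fun h => hu (h ▸ hy1))
      have := Pr_subset_le (p := p) (S := prs n) h0 (fun e _ => hp.up e) hsub2
      rwa [card_pair (fun h => hxy (star_inj u h))] at this
    refine (Finset.sum_le_sum hterm).trans ?_
    rw [Finset.sum_const, nsmul_eq_mul, card_product]
    have c1 : (((univ \ Γ : Finset (Fin n)).card : ℝ)) ≤ n := by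
      have := card_le_univ (univ \ Γ : Finset (Fin n))
      rw [Fintype.card_fin] at this
      exact_mod_cast this
    have c2 : ((Γ.offDiag.card : ℝ)) ≤ (r + 2) ^ 2 := by
      refine le_trans ?_ hcardΓ2
      have : Γ.offDiag.card ≤ Γ.card ^ 2 := by
        rw [offDiag_card, pow_two]
        exact Nat.sub_le _ _
      exact_mod_cast this
    push_cast
    calc ((univ \ Γ : Finset (Fin n)).card : ℝ) * (Γ.offDiag.card : ℝ) * (a / n) ^ 2
        ≤ n * (r + 2) ^ 2 * (a / n) ^ 2 := by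
          refine mul_le_mul_of_nonneg_right (mul_le_mul c1 c2 (by positivity) (by positivity))
            (by positivity)
      _ = (r + 2) ^ 2 * a ^ 2 / n := by field_simp
  -- second event
  have e2 : Pr p (prs n) (fun A => ∃ e ∈ inp Γ, e ∉ pathE w ∧ e ∈ A) ≤ (r + 2) ^ 2 * a / n := by
    have hsub : ∀ A ⊆ prs n, (∃ e ∈ inp Γ, e ∉ pathE w ∧ e ∈ A) → ∃ e ∈ inp Γ,
        ({e} : Finset (Sym2 (Fin n))) ⊆ A := by
      rintro A _ ⟨e, he, _, heA⟩
      exact ⟨e, he, singleton_subset_iff.2 heA⟩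
    refine (Pr_mono h0 h1 hsub).trans ((Pr_exists_le h0 h1 _ _).trans ?_)
    have hterm : ∀ e ∈ inp Γ, Pr p (prs n) (fun A => ({e} : Finset (Sym2 (Fin n))) ⊆ A)
        ≤ a / n := by
      intro e he
      have := Pr_subset_le (p := p) (S := prs n) h0 (fun e _ => hp.up e)
        (singleton_subset_iff.2 (inp_subset Γ he))
      simpa using this
    refine (Finset.sum_le_sum hterm).trans ?_
    rw [Finset.sum_const, nsmul_eq_mul]
    have c1 : ((inp Γ).card : ℝ) ≤ (r + 2) ^ 2 := by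
      refine le_trans ?_ hcardΓ2
      exact_mod_cast card_inp_le Γ
    calc ((inp Γ).card : ℝ) * (a / n) ≤ (r + 2) ^ 2 * (a / n) :=
          mul_le_mul_of_nonneg_right c1 han
      _ = _ := by ring
  have e3 : Pr p (prs n) (fun A => ¬ Expd (A ∩ outp Γ) m k) ≤ δ₁ := by
    refine (Pr_mono h0 h1 fun A _ h hE => h ?_).trans h₁
    exact hE.mono inter_subset_left le_rfl le_rfl
  refine (Pr_or_le h0 h1 _ _).trans (add_le_add e1 ?_)
  refine (Pr_or_le h0 h1 _ _).trans (add_le_add e2 ?_)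
  exact (Pr_or_le h0 h1 _ _).trans (add_le_add e3 h₂)

/-- probability that a given path lies in the closure -/
theorem Pr_pathIn {a b : ℝ} {p : Sym2 (Fin n) → ℝ} (hp : PP n a b p)
    {w : Fin (r + 2) → Fin n} (hw : Function.Injective w) {D k m l y : ℕ} {δ₁ δ₂ q : ℝ}
    (hk : 1 ≤ k) (hl : 10 * l ≤ 9 * m) (hly : 10 * l ≤ 9 * y)
    (h₁ : Pr p (prs n) (fun A => ¬ Expd A m k) ≤ δ₁)
    (h₂ : Pr p (prs n) (fun A => l ≤ (lowout A (pathV w) D).card) ≤ δ₂)
    (hq : ∀ Y : Finset (Fin n), Disjoint Y (pathV w) → Y.card ≤ y → ∀ v ∈ pathV w,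
      Pr p (prs n) (fun A => BJ D k (pathV w) Y A v) ≤ q) :
    Pr p (prs n) (fun A => PathIn D k w A)
      ≤ (a / n) ^ (r + 1) * ((r + 2) ^ 2 * a ^ 2 / n + ((r + 2) ^ 2 * a / n + (δ₁ + δ₂)))
        + (a / n) ^ (r + 1) * q ^ (r + 1) := by
  have h0 : ∀ e ∈ prs n, 0 ≤ p e := fun e _ => hp.nn e
  have h1 : ∀ e ∈ prs n, p e ≤ 1 := fun e _ => hp.le1 e
  have han : 0 ≤ a / n := (hp.nn s(w 0, w 0)).trans (hp.up s(w 0, w 0))
  refine (Pr_mono h0 h1 fun A _ h => pathIn_imp hw (m := m) (l := l) h).trans ?_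
  refine (Pr_or_le h0 h1 _ _).trans (add_le_add (Pr_path_badOut hp hw h₁ h₂) ?_)
  set Γ := pathV w with hΓ
  -- condition on the graph outside
  have hq0 : 0 ≤ q := by
    have := hq ∅ (by simp) (by simp) (w 0) (mem_pathV w 0)
    exact (Pr_nonneg h0 h1 _).trans this
  unfold Pr
  rw [EE_split (outp_subset Γ)]
  refine EE_le_const (fun e _ => hp.nn e) (fun e _ => hp.le1 e) fun A1 hA1 => ?_
  set S2 := prs n \ outp Γ with hS2
  -- the closure outside is determined by `A1`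
  have hout : ∀ A2 ⊆ S2, (A1 ∪ A2) ∩ outp Γ = A1 ∩ outp Γ := by
    intro A2 hA2
    ext e
    simp only [mem_inter, mem_union]
    constructor
    · rintro ⟨h | h, h'⟩
      · exact ⟨h, h'⟩
      · exact absurd h' (mem_sdiff.1 (hA2 h)).2
    · rintro ⟨h, h'⟩
      exact ⟨Or.inl h, h'⟩
  have hcl : ∀ A2 ⊆ S2, cloout (A1 ∪ A2) Γ D k = cloout A1 Γ D k := by
    intro A2 hA2
    rw [← cloout_inter, hout A2 hA2, cloout_inter]
  have hlo : ∀ A2 ⊆ S2, lowout (A1 ∪ A2) Γ D = lowout A1 Γ D := by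
    intro A2 hA2
    rw [← lowout_inter, hout A2 hA2, lowout_inter]
  by_cases hgood : Expd (A1 ∩ outp Γ) m k ∧ (lowout A1 Γ D).card < l
  swap
  · rw [EE_congr (G := fun _ => 0), EE_const]
    · positivity
    · intro A2 hA2
      refine ind_not fun h => hgood ?_
      have h' := h.1
      rw [hout A2 hA2, hlo A2 hA2] at h'
      exact h'
  set Y := cloout A1 Γ D k with hY
  have hYd : Disjoint Y Γ := cloout_disj hk
  have hYc : Y.card ≤ y := by
    have h3 : 9 * Y.card ≤ 10 * (lowout A1 Γ D).card :=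
      card_clo hgood.1 (by have := hgood.2; omega)
    have := hgood.2
    omega
  have key := Pr_path_BJ hp hw (D := D) (k := k) (Y := Y) hYd (q := q)
    (fun v hv => hq Y hYd hYc v hv)
  have hstar : ∀ j : Fin (r + 1), star (w j.succ) (univ \ Γ) ⊆ S2 := by
    intro j e he
    refine mem_sdiff.2 ⟨star_subset (fun h => (mem_sdiff.1 h).2 (mem_pathV w _)) he, fun h => ?_⟩
    exact disjoint_left.1 (star_disj_outp (mem_pathV w j.succ)) he h
  have hpS2 : pathE w ⊆ S2 := by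
    intro e he
    exact mem_sdiff.2 ⟨pathE_subset hw he,
      fun h => disjoint_left.1 (inp_disj_outp Γ) (pathE_inp hw he) h⟩
  have hres : Pr p (prs n) (fun A => pathE w ⊆ A ∧
        ∀ j : Fin (r + 1), BJ D k Γ Y A (w j.succ))
      = Pr p S2 (fun A => pathE w ⊆ A ∧ ∀ j : Fin (r + 1), BJ D k Γ Y A (w j.succ)) := by
    refine Pr_restrict sdiff_subset fun A _ => ?_
    rw [subset_inter_iff]
    constructor
    · rintro ⟨h, h'⟩
      exact ⟨⟨h, hpS2⟩, fun j => (BJ_inter (hstar j) hYd).2 (h' j)⟩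
    · rintro ⟨h, h'⟩
      exact ⟨h.1, fun j => (BJ_inter (hstar j) hYd).1 (h' j)⟩
  rw [hres] at key
  refine le_trans ?_ key
  unfold Pr
  refine EE_mono (fun e _ => hp.nn e) (fun e _ => hp.le1 e) fun A2 hA2 => ind_mono fun h => ?_
  obtain ⟨_, hpath, hBJ⟩ := h
  refine ⟨fun e he => ?_, fun j => ?_⟩
  · rcases mem_union.1 (hpath he) with h | h
    · exact absurd (hA1 h) (mem_sdiff.1 (hpS2 he)).2
    · exact h
  · have h4 := hBJ j
    rw [hcl A2 hA2] at h4
    have h5 : (A1 ∪ A2) ∩ S2 = A2 := by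
      ext e
      simp only [mem_inter, mem_union]
      constructor
      · rintro ⟨h | h, h'⟩
        · exact absurd (hA1 h) (mem_sdiff.1 h').2
        · exact h
      · intro h
        exact ⟨Or.inr h, hA2 h⟩
    have h6 := (BJ_inter (A := A1 ∪ A2) (hstar j) hYd (D := D) (k := k)).2 h4
    rwa [h5] at h6

end

end Pool.Agent.Helper42.BPX
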