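import Pool.Agent.Helper42.BPX.Path

/-!
# The expected number of ends of walks in the closure
-/

set_option autoImplicit false

namespace Pool.Agent.Helper42.BPX

open Finset

noncomputable section

open Classical

variable {n : ℕ}

/-- extraction of a walk -/
theorem walk_of_TW {A : Finset (Sym2 (Fin n))} {Z : Finset (Fin n)} :
    ∀ (r t : ℕ) (k i : Fin n), Adj A k i → TW A (fun _ => Z) r t k i →
      ∃ w : ℕ → Fin n, w 0 = i ∧ w 1 = k ∧ (∀ j ≤ r, Adj A (w (j + 1)) (w j)) ∧
        (∀ j < r, w (j + 2) ≠ w j) ∧ ∀ j ≤ r, w (j + 1) ∈ Z := by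
  intro r
  induction r with
  | zero =>
    intro t k i hki h
    refine ⟨fun j => if j = 0 then i else k, by simp, by simp, ?_, by simp, ?_⟩
    · intro j hj
      obtain rfl : j = 0 := by omega
      simpa using hki
    · intro j hj
      obtain rfl : j = 0 := by omega
      have h' : k ∈ Z := h
      simpa using h'
  | succ r ih =>
    intro t k i hki h
    obtain ⟨hkZ, l, hli, hlk, h⟩ := h
    obtain ⟨w, hw0, hw1, hwa, hwn, hwZ⟩ := ih _ l k hlk h
    refine ⟨fun j => if j = 0 then i else w (j - 1), by simp, by simpa using hw0, ?_, ?_, ?_⟩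
    · intro j hj
      rcases j with _ | j
      · simpa [hw0] using hki
      · simpa using hwa j (by omega)
    · intro j hj
      rcases j with _ | j
      · simpa [hw1] using hli
      · simpa using hwn j (by omega)
    · intro j hj
      rcases j with _ | j
      · simpa [hw0] using hkZ
      · simpa using hwZ j (by omega)

/-- a path with a chord from its last vertex -/
def ChordIn {r : ℕ} (w : Fin (r + 2) → Fin n) (l : Fin (r + 2)) (A : Finset (Sym2 (Fin n))) :
    Prop := Function.Injective w ∧ s(w (Fin.last _), w l) ∈ prs n ∧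
      s(w (Fin.last _), w l) ∉ pathE w ∧ insert s(w (Fin.last _), w l) (pathE w) ⊆ A

/-- a walk which is not self-avoiding contains a path with a chord -/
theorem chord_of_walk {A : Finset (Sym2 (Fin n))} {r : ℕ} {w : ℕ → Fin n}
    (ha : ∀ j ≤ r, Adj A (w (j + 1)) (w j)) (hn : ∀ j < r, w (j + 2) ≠ w j)
    (hinj : ¬ Function.Injective (fun j : Fin (r + 2) => w j)) :
    ∃ q < r, ∃ l : Fin (q + 2), ChordIn (fun j : Fin (q + 2) => w j) l A := by
  have hex : ∃ m, m ≤ r + 1 ∧ ∃ l < m, w l = w m := by
    by_contra hcon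
    push Not at hcon
    refine hinj fun i j hij => ?_
    by_contra hne
    have hne' : (i : ℕ) ≠ j := fun h => hne (Fin.ext h)
    rcases lt_or_gt_of_ne hne' with h | h
    · exact hcon j (by have := j.2; omega) i h hij
    · exact hcon i (by have := i.2; omega) j h hij.symm
  obtain ⟨hm, l, hlm, hwl⟩ := Nat.find_spec hex
  set m := Nat.find hex with hmdef
  have hmin : ∀ m' < m, ∀ l' < m', w l' ≠ w m' := by
    intro m' hm' l' hl' h
    exact Nat.find_min hex hm' ⟨by omega, l', hl', h⟩
  have hl1 : l + 1 ≠ m := by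
    intro h
    have := (ha l (by omega)).1
    rw [h] at this
    exact this hwl.symm
  have hl2 : l + 2 ≠ m := by
    intro h
    have := hn l (by omega)
    rw [h] at this
    exact this hwl.symm
  obtain ⟨q, hq⟩ : ∃ q, m = q + 2 := ⟨m - 2, by omega⟩
  have hinj' : Function.Injective (fun j : Fin (q + 2) => w j) := by
    intro i j hij
    by_contra hne
    have hne' : (i : ℕ) ≠ j := fun h => hne (Fin.ext h)
    rcases lt_or_gt_of_ne hne' with h | h
    · exact hmin j (by have := j.2; omega) i h hij
    · exact hmin i (by have := i.2; omega) j h hij.symm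
  have hadj : Adj A (w m) (w (m - 1)) := by
    have := ha (m - 1) (by omega)
    rwa [show m - 1 + 1 = m by omega] at this
  have hlast : (fun j : Fin (q + 2) => w j) (Fin.last _) = w (m - 1) := by
    show w ((Fin.last (q + 1) : Fin (q + 2)) : ℕ) = w (m - 1)
    rw [Fin.val_last]
    congr 1
    omega
  refine ⟨q, by omega, ⟨l, by omega⟩, hinj', ?_, ?_, ?_⟩
  · rw [hlast]
    show s(w (m - 1), w l) ∈ prs n
    rw [hwl]
    exact mem_prs.2 hadj.1.symm
  · rw [hlast]
    show s(w (m - 1), w l) ∉ pathE (fun j : Fin (q + 2) => w j)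
    intro h
    simp only [pathE, mem_image, mem_univ, true_and] at h
    obtain ⟨j, hj⟩ := h
    rw [Sym2.eq_iff] at hj
    have hjlt := j.2
    simp only [Fin.val_castSucc, Fin.val_succ] at hj
    rcases hj with ⟨h1, h2⟩ | ⟨h1, h2⟩
    · -- w j = w (m-1), j ≤ q
      exact hmin (m - 1) (by omega) j (by omega) h1
    · -- w j = w l, w (j+1) = w (m-1)
      have hjl : (j : ℕ) = l := by
        by_contra hne
        rcases lt_or_gt_of_ne hne with h | h
        · exact hmin l (by omega) j h h1
        · exact hmin j (by omega) l h h1.symm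
      have hj1 : (j : ℕ) + 1 = m - 1 := by
        by_contra hne
        rcases lt_or_gt_of_ne hne with h | h
        · exact hmin (m - 1) (by omega) _ h h2
        · omega
      omega
  · rw [hlast]
    intro e he
    rw [mem_insert] at he
    rcases he with rfl | he
    · show s(w (m - 1), w l) ∈ A
      rw [hwl]
      exact hadj.symm.2
    · simp only [pathE, mem_image, mem_univ, true_and] at he
      obtain ⟨j, rfl⟩ := he
      have := (ha j (by have := j.2; omega)).symm.2
      simpa using this

/-- the ends of walks in the closure -/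
theorem zw_subset {A : Finset (Sym2 (Fin n))} {D k r : ℕ} :
    zw A (cl A D (k + 1)) r ⊆
      ((univ : Finset (Fin (r + 2) → Fin n)).filter
        (fun w => Function.Injective w ∧ PathIn D k w A)).image (fun w => w 0) ∪
      (range r).biUnion (fun q => ((univ : Finset ((Fin (q + 2) → Fin n) × Fin (q + 2))).filter
        (fun x => ChordIn x.1 x.2 A)).image (fun x => x.1 0)) := by
  intro i hi
  simp only [zw, mem_filter, mem_univ, true_and] at hi
  obtain ⟨k', hki, h⟩ := hi
  obtain ⟨w, hw0, hw1, hwa, hwn, hwZ⟩ := walk_of_TW r 0 k' i hki h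
  by_cases hinj : Function.Injective (fun j : Fin (r + 2) => w j)
  · refine mem_union_left _ (mem_image.2 ⟨fun j : Fin (r + 2) => w j, mem_filter.2
      ⟨mem_univ _, hinj, ?_, ?_⟩, ?_⟩)
    · intro e he
      simp only [pathE, mem_image, mem_univ, true_and] at he
      obtain ⟨j, rfl⟩ := he
      have := (hwa j (by have := j.2; omega)).symm.2
      simpa using this
    · intro j
      have := hwZ j (by have := j.2; omega)
      simpa using this
    · simpa using hw0
  · obtain ⟨q, hq, l, hl⟩ := chord_of_walk hwa hwn hinj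
    refine mem_union_right _ (mem_biUnion.2 ⟨q, mem_range.2 hq, mem_image.2
      ⟨(fun j : Fin (q + 2) => w j, l), mem_filter.2 ⟨mem_univ _, hl⟩, ?_⟩⟩)
    simpa using hw0

lemma Pr_chordIn {a b : ℝ} {p : Sym2 (Fin n) → ℝ} (hp : PP n a b p) {r : ℕ}
    (w : Fin (r + 2) → Fin n) (l : Fin (r + 2)) :
    Pr p (prs n) (fun A => ChordIn w l A) ≤ (a / n) ^ (r + 2) := by
  have h0 : ∀ e ∈ prs n, 0 ≤ p e := fun e _ => hp.nn e
  have h1 : ∀ e ∈ prs n, p e ≤ 1 := fun e _ => hp.le1 e
  have han : 0 ≤ a / n := (hp.nn s(w 0, w 0)).trans (hp.up s(w 0, w 0))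
  by_cases h : Function.Injective w ∧ s(w (Fin.last _), w l) ∈ prs n ∧
      s(w (Fin.last _), w l) ∉ pathE w
  · obtain ⟨hw, h2, h3⟩ := h
    have hsub : insert s(w (Fin.last _), w l) (pathE w) ⊆ prs n :=
      insert_subset h2 (pathE_subset hw)
    have := Pr_subset_le (p := p) (S := prs n) h0 (fun e _ => hp.up e) hsub
    rw [card_insert_of_notMem h3, card_pathE hw] at this
    exact (Pr_mono h0 h1 fun A _ hA => hA.2.2.2).trans this
  · have : Pr p (prs n) (fun A => ChordIn w l A) = 0 := by
      rw [← Pr_false p (prs n)]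
      exact Pr_congr fun A _ => ⟨fun hA => h ⟨hA.1, hA.2.1, hA.2.2.1⟩, fun h => h.elim⟩
    rw [this]
    positivity

/-- expected number of ends of walks in the closure -/
theorem EE_zw {a b : ℝ} {p : Sym2 (Fin n) → ℝ} (hp : PP n a b p) (hn : 0 < n) {D k r : ℕ} {Q : ℝ}
    (hQ : ∀ w : Fin (r + 2) → Fin n, Function.Injective w →
      Pr p (prs n) (fun A => PathIn D k w A) ≤ (a / n) ^ (r + 1) * Q) (hQ0 : 0 ≤ Q) :
    EE p (prs n) (fun A => ((zw A (cl A D (k + 1)) r).card : ℝ))
      ≤ n * (a ^ (r + 1) * Q) + ∑ q ∈ range r, (q + 2) * a ^ (q + 2) := by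
  have h0 : ∀ e ∈ prs n, 0 ≤ p e := fun e _ => hp.nn e
  have h1 : ∀ e ∈ prs n, p e ≤ 1 := fun e _ => hp.le1 e
  have hn' : (0 : ℝ) < n := by exact_mod_cast hn
  have han : 0 ≤ a / n := (hp.nn s(⟨0, hn⟩, ⟨0, hn⟩)).trans (hp.up s(⟨0, hn⟩, ⟨0, hn⟩))
  have hbound : ∀ A ⊆ prs n, ((zw A (cl A D (k + 1)) r).card : ℝ)
      ≤ ∑ w : Fin (r + 2) → Fin n, ind (Function.Injective w ∧ PathIn D k w A)
        + ∑ q ∈ range r, ∑ x : (Fin (q + 2) → Fin n) × Fin (q + 2), ind (ChordIn x.1 x.2 A) := by
    intro A _
    have hc := (card_le_card (zw_subset (A := A) (D := D) (k := k) (r := r))).trans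
      (card_union_le _ _)
    have hc1 : (((univ : Finset (Fin (r + 2) → Fin n)).filter
        (fun w => Function.Injective w ∧ PathIn D k w A)).image (fun w => w 0)).card
        ≤ ((univ : Finset (Fin (r + 2) → Fin n)).filter
        (fun w => Function.Injective w ∧ PathIn D k w A)).card := card_image_le
    have hc2 : ((range r).biUnion (fun q =>
        ((univ : Finset ((Fin (q + 2) → Fin n) × Fin (q + 2))).filter
        (fun x => ChordIn x.1 x.2 A)).image (fun x => x.1 0))).card
        ≤ ∑ q ∈ range r, ((univ : Finset ((Fin (q + 2) → Fin n) × Fin (q + 2))).filter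
        (fun x => ChordIn x.1 x.2 A)).card :=
      card_biUnion_le.trans (Finset.sum_le_sum fun q _ => card_image_le)
    have hc3 : ((zw A (cl A D (k + 1)) r).card : ℝ)
        ≤ (((univ : Finset (Fin (r + 2) → Fin n)).filter
          (fun w => Function.Injective w ∧ PathIn D k w A)).card : ℝ)
          + ∑ q ∈ range r, (((univ : Finset ((Fin (q + 2) → Fin n) × Fin (q + 2))).filter
            (fun x => ChordIn x.1 x.2 A)).card : ℝ) := by
      exact_mod_cast hc.trans (Nat.add_le_add hc1 hc2)
    refine hc3.trans (add_le_add ?_ (Finset.sum_le_sum fun q _ => ?_))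
    · rw [card_filter]
      push_cast
      exact Finset.sum_le_sum fun w _ => by
        by_cases h : Function.Injective w ∧ PathIn D k w A
        · rw [ind_of h, if_pos h]
        · rw [ind_not h, if_neg h]
    · rw [card_filter]
      push_cast
      exact Finset.sum_le_sum fun x _ => by
        by_cases h : ChordIn x.1 x.2 A
        · rw [ind_of h, if_pos h]
        · rw [ind_not h, if_neg h]
  refine (EE_mono h0 h1 hbound).trans ?_
  rw [EE_add, EE_sum, EE_sum]
  refine add_le_add ?_ (Finset.sum_le_sum fun q _ => ?_)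
  · have hterm : ∀ w ∈ (univ : Finset (Fin (r + 2) → Fin n)),
        EE p (prs n) (fun A => ind (Function.Injective w ∧ PathIn D k w A))
          ≤ (a / n) ^ (r + 1) * Q := by
      intro w _
      by_cases hw : Function.Injective w
      · refine le_trans (EE_mono h0 h1 fun A _ => ind_mono fun h => h.2) (hQ w hw)
      · rw [EE_congr (G := fun _ => 0) (fun A _ => ind_not fun h => hw h.1), EE_const]
        positivity
    refine (Finset.sum_le_sum hterm).trans ?_
    rw [Finset.sum_const, card_univ, Fintype.card_fun, Fintype.card_fin, Fintype.card_fin,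
      nsmul_eq_mul]
    push_cast
    apply le_of_eq
    rw [div_pow, show r + 2 = (r + 1) + 1 from rfl, pow_succ (n : ℝ) (r + 1)]
    have hne : (n : ℝ) ^ (r + 1) ≠ 0 := pow_ne_zero _ hn'.ne'
    field_simp
  · rw [EE_sum]
    have hterm : ∀ x ∈ (univ : Finset ((Fin (q + 2) → Fin n) × Fin (q + 2))),
        EE p (prs n) (fun A => ind (ChordIn x.1 x.2 A)) ≤ (a / n) ^ (q + 2) :=
      fun x _ => Pr_chordIn hp x.1 x.2
    refine (Finset.sum_le_sum hterm).trans ?_
    rw [Finset.sum_const, card_univ, Fintype.card_prod, Fintype.card_fun, Fintype.card_fin,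
      Fintype.card_fin, nsmul_eq_mul]
    push_cast
    apply le_of_eq
    rw [div_pow]
    field_simp

end

end Pool.Agent.Helper42.BPX
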